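import Mathlib
import Pool.Agent.NH5.PR.Stm
import Pool.Agent.NH4.PJ.Stm

/-!
# Project XD (helper3): the natural density of the discriminants `D < 0` of a residue class with
`4`-rank zero

`N` runs over the squarefree numbers congruent to `r` modulo `m`, where `4 ∣ m`, `r` is prime to `m` and
`3` modulo `4`; ALL prime factors are allowed. The Redei matrix of `-N` over `𝔽₂` is the Laplacian of the
quadratic symbols `[q / p]`, `p`, `q` prime factors of `N`. Its kernel contains the constant vectors. The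
kernel consists of the constant vectors only (the `4`-rank of the class group of `ℚ(√-N)` is zero) for
exactly the proportion `∏ (1 - 2^{-i}) = 0.28878…` of these `N`. Statements of the parts. The templates are
the projects PR (`Pool.Agent.NH5.PR`) and PJ (`Pool.Agent.NH4.PJ`).
-/

set_option autoImplicit false
set_option linter.unusedVariables false

open scoped Classical

namespace Pool.Agent.NH3.XD

open Finset
open Pool.Agent.Y703.CX (sm la jj XX eL zz kk S_SIE)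
open Pool.Agent.Y703.CQ (nr sg prs HB S_EQ S_MER)
open Pool.Agent.NH5.PR (eta S_BIL S_ETA)
open Pool.Agent.NH4.PJ (inj)

/-! ### the class and the event -/

/-- the parameters -/
def Ok (m r : ℕ) : Prop := 0 < m ∧ 4 ∣ m ∧ r < m ∧ Nat.Coprime r m ∧ r % 4 = 3

/-- the class of the sets of primes -/
def Cl (m r : ℕ) (S : Finset ℕ) : Prop :=
  (∀ p ∈ S, p.Prime ∧ ¬ p ∣ m) ∧ (∏ p ∈ S, p) % m = r

/-- the sets of the class with product at most `X` -/
noncomputable def SS (m r X : ℕ) : Finset (Finset ℕ) :=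
  (range (X + 1)).powerset.filter fun S => Cl m r S ∧ ∏ p ∈ S, p ≤ X

/-- all sets of odd primes with product at most `X` -/
noncomputable def AA (X : ℕ) : Finset (Finset ℕ) :=
  (range (X + 1)).powerset.filter fun S => (∀ p ∈ S, p.Prime ∧ p ≠ 2) ∧ ∏ p ∈ S, p ≤ X

/-- the kernel of the Redei matrix -/
def Sol (S : Finset ℕ) (x : ℕ → ZMod 2) : Prop := ∀ p ∈ S, ∑ q ∈ S, nr p q * (x q + x p) = 0

/-- the good sets: the kernel consists of the constant vectors -/
def Gd (S : Finset ℕ) : Prop := ∀ x, Sol S x → ∀ p ∈ S, ∀ q ∈ S, x p = x q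

/-- FINAL, for sets of primes -/
def S_XDQ : Prop := ∀ m r : ℕ, Ok m r → Filter.Tendsto
  (fun X : ℕ => (((SS m r X).filter Gd).card : ℝ) / ((SS m r X).card : ℝ))
  Filter.atTop (nhds eta)

/-- FINAL, for numbers -/
def S_XDEN : Prop := ∀ m r : ℕ, Ok m r → Filter.Tendsto
  (fun X : ℕ => (((Icc 1 X).filter fun N => Squarefree N ∧ N % m = r ∧ Gd N.primeFactors).card : ℝ) /
    (((Icc 1 X).filter fun N => Squarefree N ∧ N % m = r).card : ℝ))
  Filter.atTop (nhds eta)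

/-! ### the linear algebra -/

/-- the data: symbols between the small primes `U`, between small and large primes, the classes modulo
`4` of the primes -/
structure Dat (U J : Type) where
  A : U → U → ZMod 2
  B : U → J → ZMod 2
  C : J → U → ZMod 2
  bU : U → ZMod 2
  bJ : J → ZMod 2

section dat

variable {U J : Type} [Fintype U] [Fintype J] [LinearOrder J]

/-- the reciprocity law, the product is `3` modulo `4`, the labels are not degenerate -/
structure Dat.Good (d : Dat U J) : Prop where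
  rA : ∀ u v, u ≠ v → d.A u v + d.A v u = d.bU u * d.bU v
  rB : ∀ u l, d.B u l + d.C l u = d.bU u * d.bJ l
  par : ∑ u, d.bU u + ∑ l, d.bJ l = 1
  nd : ∀ w : U → ZMod 2, (∃ u, w u ≠ 0) → ∃ k, d.bJ k = 0 ∧ ∑ u, w u * d.C k u ≠ 0

/-- the small rows -/
def Sml (d : Dat U J) (x : U → ZMod 2) (y : J → ZMod 2) : Prop :=
  ∀ u, ∑ v, d.A u v * (x v + x u) + ∑ l, d.B u l * (y l + x u) = 0

/-- the symbols `[l / k]` of the large primes from the free ones, `k < l`, by the reciprocity law -/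
noncomputable def ex3 (d : Dat U J) (α : prs (univ : Finset J) → ZMod 2) (k l : J) : ZMod 2 :=
  if h : (k, l) ∈ prs (univ : Finset J) then α ⟨(k, l), h⟩
  else if h' : (l, k) ∈ prs (univ : Finset J) then α ⟨(l, k), h'⟩ + d.bJ k * d.bJ l else 0

/-- the large rows for a set of indices -/
def Lrg (d : Dat U J) (JR : Finset J) (α : prs (univ : Finset J) → ZMod 2) (x : U → ZMod 2)
    (y : J → ZMod 2) : Prop :=
  ∀ k ∈ JR, ∑ u, d.C k u * (x u + y k) + ∑ l, ex3 d α k l * (y l + y k) = 0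

/-- only the constant solutions -/
def GdL (d : Dat U J) (α : prs (univ : Finset J) → ZMod 2) : Prop :=
  ∀ x y, Sml d x y → Lrg d univ α x y → ∃ c : ZMod 2, (∀ u, x u = c) ∧ ∀ l, y l = c

/-- the alternating form of the system -/
def om (d : Dat U J) (v w : (U → ZMod 2) × (J → ZMod 2)) : ZMod 2 :=
  (∑ u, d.bU u * v.1 u + ∑ l, d.bJ l * v.2 l) * (∑ u, d.bU u * w.1 u + ∑ l, d.bJ l * w.2 l) +
    (∑ u, d.bU u * (v.1 u * w.1 u) + ∑ l, d.bJ l * (v.2 l * w.2 l))

/-- the space of the solutions of the small rows which vanish at `i` -/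
noncomputable def KK (d : Dat U J) (i : J) : Finset ((U → ZMod 2) × (J → ZMod 2)) :=
  univ.filter fun z => Sml d z.1 z.2 ∧ z.2 i = 0

/-- the number of the solutions which vanish at `i` -/
noncomputable def nkL (d : Dat U J) (i : J) (α : prs (univ : Finset J) → ZMod 2) : ℕ :=
  ((KK d i).filter fun z => Lrg d (univ.erase i) α z.1 z.2).card

end dat

/-- XD-1: facts on the system: the row `i` follows from the others; the number of solutions is a power
of two; good means one solution -/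
def S_SYS : Prop := ∀ (U J : Type) [Fintype U] [Fintype J] [LinearOrder J] (d : Dat U J), d.Good →
  ∀ i : J, (∀ α, (∃ κ : ℕ, nkL d i α = 2 ^ κ) ∧ (nkL d i α = 1 ↔ GdL d α)) ∧
    (d.bJ i = 1 → (KK d i).card = 2 ^ (Fintype.card J - 1))

/-- XD-2: the probability that a family of vectors with independent large parts solves the large rows:
it depends only on whether the family is isotropic for the form `om` -/
def S_PRB : Prop := ∀ (U J : Type) [Fintype U] [Fintype J] [LinearOrder J] (d : Dat U J), d.Good →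
  ∀ (i : J) (n : ℕ) (z : Fin n → (U → ZMod 2) × (J → ZMod 2)), d.bJ i = 1 →
  (∀ s, z s ∈ KK d i) → LinearIndependent (ZMod 2) (fun s => (z s).2) →
  (univ.filter fun α : prs (univ : Finset J) → ZMod 2 =>
      ∀ s, Lrg d (univ.erase i) α (z s).1 (z s).2).card * 2 ^ ((Fintype.card J - 1) * n) =
    if ∀ s t, om d (z s) (z t) = 0 then
      2 ^ (prs (univ : Finset J)).card * 2 ^ (n * (n - 1) / 2) else 0

/-- XD-3: the radical of the form on the space of the small rows -/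
def S_RAD : Prop := ∀ (U J : Type) [Fintype U] [Fintype J] [LinearOrder J] (d : Dat U J), d.Good →
  ∀ i : J, d.bJ i = 1 →
  (((KK d i).filter fun v => ∀ w ∈ KK d i, om d v w = 0).card : ℝ) ≤
    2 ^ (2 * Fintype.card U + 1) * 2 ^ (Fintype.card J - 1) /
      2 ^ (univ.filter fun l => d.bJ l = 1).card

/-- XD-4: the number of the isotropic tuples of an alternating form with a small radical -/
def S_ISO : Prop := ∀ k : ℕ, ∃ C : ℝ, 0 < C ∧ ∀ (V : Type) [AddCommGroup V] [Module (ZMod 2) V]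
  [Fintype V] (ω : V →ₗ[ZMod 2] V →ₗ[ZMod 2] ZMod 2),
  (∀ v, ω v v = 0) → (∀ v w, ω v w = ω w v) →
  |((univ.filter fun z : Fin k → V => ∀ s t, ω (z s) (z t) = 0).card : ℝ) -
      (Fintype.card V : ℝ) ^ k / 2 ^ (k * (k - 1) / 2)| ≤
    C * (Fintype.card V : ℝ) ^ k *
      (((univ.filter fun v : V => ∀ w, ω v w = 0).card : ℝ) / Fintype.card V)

/-- XD-5: the moments -/
def S_XMOM : Prop := S_SYS → S_PRB → S_RAD → S_ISO → ∀ k : ℕ, ∃ C : ℝ, 0 < C ∧
  ∀ (U J : Type) [Fintype U] [Fintype J] [LinearOrder J] (d : Dat U J), d.Good → ∀ i : J,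
  d.bJ i = 1 → |(∑ α : prs (univ : Finset J) → ZMod 2, inj k (nkL d i α)) /
      2 ^ (prs (univ : Finset J)).card - 1| ≤
    C * 2 ^ (2 * Fintype.card U) / 2 ^ (univ.filter fun l => d.bJ l = 1).card

/-- XD-LA: the probability that a random completion is good -/
def S_XLA : Prop := ∀ ε : ℝ, 0 < ε → ∃ R : ℕ,
  ∀ (U J : Type) [Fintype U] [Fintype J] [LinearOrder J] (d : Dat U J), d.Good →
  2 * Fintype.card U + R ≤ (univ.filter fun l => d.bJ l = 1).card →
  |((univ.filter fun α : prs (univ : Finset J) → ZMod 2 => GdL d α).card : ℝ) /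
      2 ^ (prs (univ : Finset J)).card - eta| ≤ ε

/-! ### the boxes -/

/-- the labels of the large primes are not degenerate -/
def Nd (S₀ S₁ : Finset ℕ) : Prop :=
  ∀ w : ℕ → ZMod 2, (∃ u ∈ S₀, w u ≠ 0) → ∃ p ∈ S₁, p % 4 = 1 ∧ ∑ u ∈ S₀, w u * nr p u ≠ 0

/-- XD-BOX: the count in a box -/
def S_XBOX : Prop := S_EQ → S_XLA → S_ETA → ∀ ε : ℝ, 0 < ε → ∃ R : ℕ,
  ∀ (ι : Type) [Fintype ι] [LinearOrder ι] (J3 : Finset ι) (C : ι → Finset ℕ) (X : ι → ℕ) (κ : ℝ)
  (S₀ : Finset ℕ), 0 ≤ κ → (∀ i, (C i).card ≤ X i) → HB (univ : Finset ι) C X κ →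
  (∀ u ∈ S₀, u.Prime ∧ u ≠ 2) →
  (∀ i, ∀ p ∈ C i, p.Prime ∧ p ≠ 2 ∧ p ∉ S₀ ∧ (i ∈ J3 ↔ p % 4 = 3)) →
  (∀ i l, i ≠ l → Disjoint (C i) (C l)) →
  ((S₀.filter fun u => u % 4 = 3).card + J3.card) % 2 = 1 →
  2 * S₀.card + R ≤ J3.card →
  |(((Fintype.piFinset C).filter fun p => Nd S₀ (univ.image p) ∧ Gd (S₀ ∪ univ.image p)).card : ℝ) -
      eta * (((Fintype.piFinset C).filter fun p => Nd S₀ (univ.image p)).card : ℝ)| ≤
    ε * (((Fintype.piFinset C).filter fun p => Nd S₀ (univ.image p)).card : ℝ) +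
    2 ^ ((2 * S₀.card + 1) * Fintype.card ι + (prs (univ : Finset ι)).card) *
      (κ * ∏ j, (X j : ℝ))

/-- the regular sets -/
noncomputable def RR (m r X z H k R : ℕ) : Finset (Finset ℕ) :=
  (SS m r X).filter fun S => Set.InjOn (jj H) (la z S : Set ℕ) ∧ S.card ≤ k ∧
    (∏ p ∈ sm z S, p) * ∏ p ∈ la z S, XX H (jj H p) ≤ X ∧
    2 * (sm z S).card + R ≤ ((la z S).filter fun p => p % 4 = 3).card

/-- XD-KEY: the sum over the boxes -/
def S_XKEY : Prop := S_BIL → S_EQ → S_XLA → S_ETA → S_XBOX → ∀ ε : ℝ, 0 < ε →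
  ∃ (R : ℕ) (C : ℝ), 1 ≤ C ∧ ∀ (m r X z H k N : ℕ) (κ : ℝ), Ok m r →
  1 ≤ X → 1 ≤ H → 2 ≤ z → 0 ≤ κ → C ≤ κ ^ 12 * z → (H : ℝ) * Real.log X < N →
  |(((RR m r X z H k R).filter fun S => Nd (sm z S) (la z S) ∧ Gd S).card : ℝ) -
      eta * (((RR m r X z H k R).filter fun S => Nd (sm z S) (la z S)).card : ℝ)| ≤
    ε * ((RR m r X z H k R).card : ℝ) +
    (m * N + m : ℝ) ^ k * (3 ^ (6 * k ^ 2) * κ) * (X * (1 + Real.log X))

/-! ### the exceptional sets -/

/-- XD-CNT: sets with many primes, sets near the boundary, sets with two primes in a block -/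
structure CntP : Prop where
  many : ∀ (X k : ℕ), 1 ≤ X →
    (((AA X).filter fun S => k < S.card).card : ℝ) * 2 ^ k ≤ X * (1 + Real.log X)
  cut : ∀ (X z H k : ℕ), 1 ≤ X → 1 ≤ H →
    (((AA X).filter fun S => S.card ≤ k ∧
      X < (∏ p ∈ sm z S, p) * ∏ p ∈ la z S, XX H (jj H p)).card : ℝ) ≤ X * k / H + 1
  coll : ∀ (X z H : ℕ), 1 ≤ X → 1 ≤ H → (((AA X).filter fun S =>
    ¬ Set.InjOn (jj H) (la z S : Set ℕ)).card : ℝ) ≤ 4 * X * (1 + Real.log X) / H

/-- the sets of primes `1` modulo `4` on which the product of the primes in `W` is a square -/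
noncomputable def HD (W : Finset ℕ) (T : ℕ) : Finset (Finset ℕ) :=
  (range (T + 1)).powerset.filter fun S =>
    (∀ p ∈ S, p.Prime ∧ p % 4 = 1 ∧ p ∉ W ∧ ∑ u ∈ W, nr p u = 0) ∧ ∏ p ∈ S, p ≤ T

/-- XD-HAL: the logarithmic density for a nontrivial quadratic character -/
def S_XHAL : Prop := ∃ C : ℝ, 1 ≤ C ∧ ∀ (W : Finset ℕ) (T : ℕ), W.Nonempty →
  (∀ u ∈ W, u.Prime ∧ u ≠ 2) → 2 ≤ T →
  ∑ S ∈ HD W T, (1 : ℝ) / ((∏ p ∈ S, p : ℕ) : ℝ) ≤
    C * (Real.log ((∏ u ∈ W, u : ℕ) : ℝ)) ^ (1 / 2 : ℝ) * (Real.log T) ^ (1 / 4 : ℝ)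

/-- XD-BAD: few sets have degenerate labels -/
def S_XBAD : Prop := S_SIE → S_XHAL → S_MER → ∃ (C : ℝ) (X₀ : ℕ), ∀ X : ℕ, X₀ ≤ X →
  (((AA X).filter fun S => S.card ≤ kk X ∧ ¬ Nd (sm (zz X) S) (la (zz X) S)).card : ℝ) ≤
    C * X * (Real.log X) ^ (-1 / 8 : ℝ)

/-- XD-FEW: few sets have few large primes `3` modulo `4` -/
def S_XFEW : Prop := S_SIE → S_MER → ∀ R : ℕ, ∃ (C : ℝ) (X₀ : ℕ), ∀ X : ℕ, X₀ ≤ X →
  (((AA X).filter fun S => ((la (zz X) S).filter fun p => p % 4 = 3).card <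
      2 * (sm (zz X) S).card + R).card : ℝ) ≤ C * X * (Real.log X) ^ (-1 / 64 : ℝ)

/-- XD-LOW: the lower bound for the size of the class -/
def S_XLOW : Prop := ∀ m r : ℕ, Ok m r → ∃ (c : ℝ) (X₀ : ℕ), 0 < c ∧ ∀ X : ℕ, X₀ ≤ X →
  c * X ≤ ((SS m r X).card : ℝ)

/-- XD-ASY: the final asymptotics -/
def S_XASY : Prop := S_BIL → S_EQ → S_XLA → S_ETA → S_XBOX → S_XKEY → CntP → S_SIE → S_XHAL →
  S_XBAD → S_MER → S_XFEW → S_XLOW → S_XDQ

/-- XD-NS: the translation -/
def S_XNS : Prop := S_XDQ → S_XDEN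

end Pool.Agent.NH3.XD
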