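import Pool.Agent.NH3.XD.Stm

/-! XD-BOX: the count in a box (adapted from `Pool.Agent.NH5.PR.BOX`). -/

set_option autoImplicit false

open scoped Classical

namespace Pool.Agent.NH3.XD.BX

open Finset
open Pool.Agent.Y703.CQ (nr prs HB S_EQ)

/-- the type of the labels -/
abbrev Lb (S₀ : Finset ℕ) : Type := (S₀ → ZMod 2) × (S₀ → ZMod 2)

/-- the label of a prime with respect to the small primes -/
noncomputable def lb (S₀ : Finset ℕ) (x : ℕ) : Lb S₀ :=
  (fun u => nr u x, fun u => nr x u)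

/-- the good labels -/
def LN {ι : Type} (S₀ : Finset ℕ) (J3 : Finset ι) (β : ι → Lb S₀) : Prop :=
  ∀ w : S₀ → ZMod 2, (∃ u : S₀, w u ≠ 0) → ∃ i, i ∉ J3 ∧ ∑ u, w u * (β i).2 u ≠ 0

theorem nr_symm {p q : ℕ} (hp : p.Prime) (hp1 : p % 4 = 1) (hq : q.Prime) (hq2 : q ≠ 2) :
    nr p q = nr q p := by
  have : Fact p.Prime := ⟨hp⟩
  have : Fact q.Prime := ⟨hq⟩
  unfold nr
  have h := ZMod.exists_sq_eq_prime_iff_of_mod_four_eq_one (p := p) (q := q) hp1 hq2
  by_cases h1 : IsSquare (q : ZMod p)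
  · rw [if_pos h1, if_pos (h.1 h1)]
  · rw [if_neg h1, if_neg (fun h2 => h1 (h.2 h2))]

theorem nr_anti {p q : ℕ} (hp : p.Prime) (hp3 : p % 4 = 3) (hq : q.Prime) (hq3 : q % 4 = 3)
    (hpq : p ≠ q) : nr p q + 1 = nr q p := by
  have : Fact p.Prime := ⟨hp⟩
  have : Fact q.Prime := ⟨hq⟩
  unfold nr
  have h := ZMod.exists_sq_eq_prime_iff_of_mod_four_eq_three (p := p) (q := q) hp3 hq3 hpq
  by_cases h1 : IsSquare (q : ZMod p)
  · rw [if_pos h1, if_neg (h.1 h1)]
    decide
  · rw [if_neg h1, if_pos (by by_contra h2; exact h1 (h.2 h2))]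
    decide

theorem odd_cases {p : ℕ} (hp : p.Prime) (hp2 : p ≠ 2) : p % 4 = 1 ∨ p % 4 = 3 := by
  have := hp.eq_two_or_odd
  omega

/-- the class modulo `4` -/
noncomputable def b4 (p : ℕ) : ZMod 2 := if p % 4 = 3 then 1 else 0

theorem two_self (a : ZMod 2) : a + a = 0 := by
  revert a; decide

/-- **reciprocity** -/
theorem recip {p q : ℕ} (hp : p.Prime) (hp2 : p ≠ 2) (hq : q.Prime) (hq2 : q ≠ 2) (hpq : p ≠ q) :
    nr p q + nr q p = b4 p * b4 q := by
  unfold b4
  rcases odd_cases hp hp2 with h1 | h1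
  · rw [nr_symm hp h1 hq hq2, if_neg (by omega : ¬ p % 4 = 3), zero_mul]
    exact two_self _
  · rcases odd_cases hq hq2 with h2 | h2
    · rw [nr_symm hq h2 hp hp2, if_neg (by omega : ¬ q % 4 = 3), mul_zero]
      exact two_self _
    · rw [if_pos h1, if_pos h2, ← nr_anti hp h1 hq h2 hpq, ← add_assoc, two_self]
      decide

section one
variable {ι : Type} [Fintype ι] [LinearOrder ι] {J3 : Finset ι} {S₀ : Finset ℕ} {p : ι → ℕ}

/-- extension by zero -/
noncomputable def ez0 {S₀ : Finset ℕ} (v : S₀ → ZMod 2) (n : ℕ) : ZMod 2 :=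
  if h : n ∈ S₀ then v ⟨n, h⟩ else 0

theorem ez0_coe {S₀ : Finset ℕ} (v : S₀ → ZMod 2) (u : S₀) : ez0 v u = v u := by
  unfold ez0
  rw [dif_pos u.2]

omit [LinearOrder ι] in
theorem nd_iff (hJ : ∀ i, p i % 4 = 1 ↔ i ∉ J3) :
    Nd S₀ (univ.image p) ↔ LN S₀ J3 (fun i => lb S₀ (p i)) := by
  unfold Nd LN
  constructor
  · intro h w hw
    obtain ⟨u, hu2⟩ := hw
    obtain ⟨x, hx, hx1, hx2⟩ := h (ez0 w) ⟨u, u.2, by rw [ez0_coe]; exact hu2⟩
    rw [Finset.mem_image] at hx
    obtain ⟨i, -, rfl⟩ := hx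
    refine ⟨i, (hJ i).1 hx1, ?_⟩
    rw [← Finset.sum_coe_sort S₀] at hx2
    intro h0
    apply hx2
    rw [← h0]
    refine Finset.sum_congr rfl fun u _ => ?_
    rw [ez0_coe]
    rfl
  · intro h w hw
    obtain ⟨u, hu0, hu2⟩ := hw
    obtain ⟨i, hi, hi2⟩ := h (fun u => w u) ⟨⟨u, hu0⟩, hu2⟩
    refine ⟨p i, Finset.mem_image_of_mem _ (Finset.mem_univ _), (hJ i).2 hi, ?_⟩
    rw [← Finset.sum_coe_sort S₀]
    exact hi2

omit [LinearOrder ι] in
theorem sum_un (hp : Function.Injective p) (hd : ∀ i, p i ∉ S₀) (f : ℕ → ZMod 2) :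
    ∑ x ∈ S₀ ∪ univ.image p, f x = ∑ u : S₀, f u + ∑ l, f (p l) := by
  rw [Finset.sum_union, Finset.sum_image (fun a _ b _ h => hp h), ← Finset.sum_coe_sort S₀]
  rw [Finset.disjoint_left]
  intro x hx hx'
  rw [Finset.mem_image] at hx'
  obtain ⟨i, -, rfl⟩ := hx'
  exact hd i hx

/-- the data of labels -/
noncomputable def dt (S₀ : Finset ℕ) (J3 : Finset ι) (β : ι → Lb S₀) : Dat S₀ ι where
  A u v := nr u v
  B u l := (β l).1 u
  C k u := (β k).2 u
  bU u := b4 u
  bJ l := if l ∈ J3 then 1 else 0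

omit [Fintype ι] in
theorem bJ_eq (h3 : ∀ i, i ∈ J3 ↔ p i % 4 = 3) (l : ι) :
    (dt S₀ J3 (fun i => lb S₀ (p i))).bJ l = b4 (p l) := by
  unfold dt b4
  simp only
  by_cases h : l ∈ J3
  · rw [if_pos h, if_pos ((h3 l).1 h)]
  · rw [if_neg h, if_neg fun h' => h ((h3 l).2 h')]

theorem ex3_eq (hp : Function.Injective p) (hpr : ∀ i, (p i).Prime ∧ p i ≠ 2)
    (h3 : ∀ i, i ∈ J3 ↔ p i % 4 = 3) {k l : ι} (hkl : k ≠ l) :
    ex3 (dt S₀ J3 (fun i => lb S₀ (p i)))
      (fun e : prs (univ : Finset ι) => nr (p e.1.1) (p e.1.2)) k l = nr (p k) (p l) := by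
  unfold ex3
  by_cases h : (k, l) ∈ prs (univ : Finset ι)
  · rw [dif_pos h]
  · rw [dif_neg h]
    have h1 : ¬ k < l := by
      intro hlt
      apply h
      unfold prs
      exact Finset.mem_filter.2 ⟨Finset.mem_univ _, Finset.mem_univ _, fun h => hkl h.symm,
        fun _ => hlt⟩
    have h2 : (l, k) ∈ prs (univ : Finset ι) := by
      unfold prs
      exact Finset.mem_filter.2 ⟨Finset.mem_univ _, Finset.mem_univ _, hkl,
        fun _ => lt_of_le_of_ne (not_lt.1 h1) fun h => hkl h.symm⟩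
    rw [dif_pos h2, bJ_eq h3, bJ_eq h3,
      ← recip (hpr k).1 (hpr k).2 (hpr l).1 (hpr l).2 fun h => hkl (hp h)]
    show nr (p l) (p k) + (nr (p k) (p l) + nr (p l) (p k)) = nr (p k) (p l)
    rw [add_comm (nr (p k) (p l)), ← add_assoc, two_self, zero_add]

theorem gd_iff (hp : Function.Injective p) (hpr : ∀ i, (p i).Prime ∧ p i ≠ 2)
    (hd : ∀ i, p i ∉ S₀) (h3 : ∀ i, i ∈ J3 ↔ p i % 4 = 3) (i₀ : ι) :
    Gd (S₀ ∪ univ.image p) ↔ GdL (dt S₀ J3 (fun i => lb S₀ (p i)))
      (fun e : prs (univ : Finset ι) => nr (p e.1.1) (p e.1.2)) := by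
  have hsum : ∀ (k : ι) (y : ι → ZMod 2),
      ∑ l, ex3 (dt S₀ J3 (fun i => lb S₀ (p i)))
        (fun e : prs (univ : Finset ι) => nr (p e.1.1) (p e.1.2)) k l * (y l + y k) =
      ∑ l, nr (p k) (p l) * (y l + y k) := by
    intro k y
    refine Finset.sum_congr rfl fun l _ => ?_
    by_cases hkl : k = l
    · subst hkl
      rw [two_self, mul_zero, mul_zero]
    · rw [ex3_eq hp hpr h3 hkl]
  have hsol : ∀ x : ℕ → ZMod 2, Sol (S₀ ∪ univ.image p) x ↔
      Sml (dt S₀ J3 (fun i => lb S₀ (p i))) (fun u => x u) (fun l => x (p l)) ∧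
      Lrg (dt S₀ J3 (fun i => lb S₀ (p i))) univ
        (fun e : prs (univ : Finset ι) => nr (p e.1.1) (p e.1.2)) (fun u => x u)
        (fun l => x (p l)) := by
    intro x
    unfold Sol Sml Lrg
    constructor
    · intro h
      refine ⟨fun u => ?_, fun k _ => ?_⟩
      · have := h u (Finset.mem_union_left _ u.2)
        rw [sum_un hp hd] at this
        exact this
      · have := h (p k) (Finset.mem_union_right _ (Finset.mem_image_of_mem _ (Finset.mem_univ _)))
        rw [sum_un hp hd] at this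
        rw [hsum k (fun l => x (p l))]
        exact this
    · rintro ⟨h1, h2⟩ y hy
      rw [sum_un hp hd]
      rw [Finset.mem_union, Finset.mem_image] at hy
      rcases hy with hy | ⟨k, -, rfl⟩
      · exact h1 ⟨y, hy⟩
      · have := h2 k (Finset.mem_univ _)
        rw [hsum k (fun l => x (p l))] at this
        exact this
  unfold Gd GdL
  constructor
  · intro h c d h1 h2
    set c' : ℕ → ZMod 2 := fun n => if h : n ∈ S₀ then c ⟨n, h⟩ else
      if h : ∃ l, p l = n then d h.choose else 0 with hc'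
    have e1 : (fun u : S₀ => c' u) = c := by
      funext u
      simp only [hc']
      rw [dif_pos u.2]
    have e2 : (fun l => c' (p l)) = d := by
      funext l
      have hex : ∃ l', p l' = p l := ⟨l, rfl⟩
      simp only [hc']
      rw [dif_neg (hd l), dif_pos hex]
      exact congrArg d (hp hex.choose_spec)
    have hs : Sol (S₀ ∪ univ.image p) c' := by
      rw [hsol, e1, e2]
      exact ⟨h1, h2⟩
    have h3 := h c' hs
    have hmem : ∀ l, p l ∈ S₀ ∪ univ.image p := fun l =>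
      Finset.mem_union_right _ (Finset.mem_image_of_mem _ (Finset.mem_univ _))
    refine ⟨d i₀, fun u => ?_, fun l => ?_⟩
    · have h4 := h3 u (Finset.mem_union_left _ u.2) (p i₀) (hmem i₀)
      have h5 := congrFun e1 u
      have h6 := congrFun e2 i₀
      rw [← h5, ← h6]
      exact h4
    · have h4 := h3 (p l) (hmem l) (p i₀) (hmem i₀)
      have h5 := congrFun e2 l
      have h6 := congrFun e2 i₀
      rw [← h5, ← h6]
      exact h4
  · intro h x hx
    rw [hsol] at hx
    obtain ⟨c, ht1, ht2⟩ := h _ _ hx.1 hx.2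
    have key : ∀ y ∈ S₀ ∪ univ.image p, x y = c := by
      intro y hy
      rw [Finset.mem_union, Finset.mem_image] at hy
      rcases hy with hy | ⟨k, -, rfl⟩
      · exact ht1 ⟨y, hy⟩
      · exact ht2 k
    intro y hy z hz
    rw [key y hy, key z hz]

end one

theorem HB_sub {ι : Type} {J1 : Finset ι} {C : ι → Finset ℕ} {X : ι → ℕ} {κ : ℝ}
    (h : HB J1 C X κ) (P : ι → ℕ → Prop) [∀ i, DecidablePred (P i)] :
    HB J1 (fun i => (C i).filter (P i)) X κ := by
  intro i l hil hi c d hc hd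
  have h1 := h i l hil hi (fun x => if P i x then c x else 0) (fun y => if P l y then d y else 0)
    (fun x => by
      split_ifs
      · exact hc x
      · simp) (fun y => by
      split_ifs
      · exact hd y
      · simp)
  refine (le_of_eq ?_).trans h1
  congr 1
  rw [Finset.sum_filter]
  refine Finset.sum_congr rfl fun x _ => ?_
  by_cases hx : P i x
  · rw [if_pos hx, Finset.sum_filter]
    refine Finset.sum_congr rfl fun y _ => ?_
    by_cases hy : P l y
    · rw [if_pos hy, if_pos hx, if_pos hy]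
    · rw [if_neg hy, if_neg hy, mul_zero, zero_mul]
  · rw [if_neg hx]
    symm
    refine Finset.sum_eq_zero fun y _ => ?_
    rw [if_neg hx, zero_mul, zero_mul]

/-- a number as a sum in `𝔽₂` -/
theorem cast_card_filter (S : Finset ℕ) :
    ∑ u : S, b4 u = (((S.filter fun u => u % 4 = 3).card : ℕ) : ZMod 2) := by
  rw [Finset.sum_coe_sort S b4, Finset.card_filter]
  push_cast
  rfl

end Pool.Agent.NH3.XD.BX

namespace Pool.Agent.NH3.XD

open Finset
open Pool.Agent.NH5.PR (eta S_ETA)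
open Pool.Agent.Y703.CQ (nr prs HB S_EQ)
open BX

/-- **The count in a box.** -/
theorem t_XBOX : S_XBOX := by
  intro hEQ hLA _ ε hε
  obtain ⟨R0, hLA⟩ := hLA ε hε
  refine ⟨R0 + 1, ?_⟩
  intro ι _ _ J3 C X κ S₀ hκ hCX hHB hS₀ hC hdis hpar hcard
  have hJ3pos : 0 < J3.card := by omega
  obtain ⟨i₀, hi₀⟩ := Finset.card_pos.1 hJ3pos
  set R : ℝ := 2 ^ (prs (univ : Finset ι)).card * (κ * ∏ j, (X j : ℝ)) with hR
  have hR0 : 0 ≤ R := mul_nonneg (by positivity)
    (mul_nonneg hκ (Finset.prod_nonneg fun j _ => by positivity))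
  -- facts on tuples
  have hinj : ∀ p ∈ Fintype.piFinset C, Function.Injective p := by
    intro p hp i j hij
    rw [Fintype.mem_piFinset] at hp
    by_contra hne
    have h1 := Finset.disjoint_left.1 (hdis i j hne) (hp i)
    rw [hij] at h1
    exact h1 (hp j)
  have hJ3 : ∀ p ∈ Fintype.piFinset C, ∀ i, i ∈ J3 ↔ p i % 4 = 3 := by
    intro p hp i
    rw [Fintype.mem_piFinset] at hp
    exact (hC i _ (hp i)).2.2.2
  have hd : ∀ p ∈ Fintype.piFinset C, ∀ i, p i ∉ S₀ := by
    intro p hp i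
    rw [Fintype.mem_piFinset] at hp
    exact (hC i _ (hp i)).2.2.1
  have hpr : ∀ p ∈ Fintype.piFinset C, ∀ i, (p i).Prime ∧ p i ≠ 2 := by
    intro p hp i
    rw [Fintype.mem_piFinset] at hp
    exact ⟨(hC i _ (hp i)).1, (hC i _ (hp i)).2.1⟩
  have hJ : ∀ p ∈ Fintype.piFinset C, ∀ i, p i % 4 = 1 ↔ i ∉ J3 := by
    intro p hp i
    rw [hJ3 p hp i]
    have := odd_cases (hpr p hp i).1 (hpr p hp i).2
    omega
  -- the part with given labels
  have h1 : ∀ β : ι → Lb S₀, LN S₀ J3 β →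
      |(((Fintype.piFinset C).filter fun p => (fun i => lb S₀ (p i)) = β ∧
          Gd (S₀ ∪ univ.image p)).card : ℝ) -
        eta * (((Fintype.piFinset C).filter fun p => (fun i => lb S₀ (p i)) = β).card : ℝ)| ≤
      ε * (((Fintype.piFinset C).filter fun p => (fun i => lb S₀ (p i)) = β).card : ℝ) + R := by
    intro β hβ
    by_cases hemp : ((Fintype.piFinset C).filter fun p => (fun i => lb S₀ (p i)) = β) = ∅
    · have he2 : ((Fintype.piFinset C).filter fun p => (fun i => lb S₀ (p i)) = β ∧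
          Gd (S₀ ∪ univ.image p)) = ∅ := by
        rw [← Finset.filter_filter, hemp, Finset.filter_empty]
      rw [he2, hemp]
      simpa using hR0
    obtain ⟨p₀, hp₀⟩ := Finset.nonempty_iff_ne_empty.2 hemp
    rw [Finset.mem_filter] at hp₀
    obtain ⟨hp₀, hp₀β⟩ := hp₀
    set C' : ι → Finset ℕ := fun i => (C i).filter fun q => lb S₀ q = β i with hC'
    have hpi : (Fintype.piFinset C).filter (fun p => (fun i => lb S₀ (p i)) = β) =
        Fintype.piFinset C' := by
      ext p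
      simp only [Finset.mem_filter, Fintype.mem_piFinset, hC']
      constructor
      · rintro ⟨h2, h3⟩ i
        exact ⟨h2 i, congrFun h3 i⟩
      · intro h2
        exact ⟨fun i => (h2 i).1, funext fun i => (h2 i).2⟩
    have hgood : (dt S₀ J3 β).Good := by
      refine ⟨?_, ?_, ?_, ?_⟩
      · intro u v huv
        exact recip (hS₀ u u.2).1 (hS₀ u u.2).2 (hS₀ v v.2).1 (hS₀ v v.2).2
          fun h => huv (Subtype.ext h)
      · intro u l
        rw [← hp₀β, bJ_eq (hJ3 p₀ hp₀)]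
        show nr u (p₀ l) + nr (p₀ l) u = b4 u * b4 (p₀ l)
        exact recip (hS₀ u u.2).1 (hS₀ u u.2).2 (hpr p₀ hp₀ l).1 (hpr p₀ hp₀ l).2
          fun h => hd p₀ hp₀ l (by rw [← h]; exact u.2)
      · show ∑ u : S₀, b4 u + ∑ l : ι, (if l ∈ J3 then (1 : ZMod 2) else 0) = 1
        rw [cast_card_filter, Finset.sum_ite_mem, Finset.univ_inter, Finset.sum_const,
          nsmul_eq_mul, mul_one, ← Nat.cast_add]
        rw [ZMod.natCast_eq_one_iff_odd]
        exact Nat.odd_iff.2 hpar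
      · intro w hw
        obtain ⟨k, hk, hk2⟩ := hβ w hw
        exact ⟨k, if_neg hk, hk2⟩
    have hc3 : (univ.filter fun l => (dt S₀ J3 β).bJ l = 1).card = J3.card := by
      have : (univ.filter fun l => (dt S₀ J3 β).bJ l = 1) = J3 := by
        ext l
        rw [Finset.mem_filter]
        show l ∈ univ ∧ (if l ∈ J3 then (1 : ZMod 2) else 0) = 1 ↔ l ∈ J3
        by_cases h : l ∈ J3
        · simp [h]
        · simp [h]
      rw [this]
    have h2 := hLA S₀ ι (dt S₀ J3 β) hgood (by rw [hc3, Fintype.card_coe]; omega)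
    set Q : (prs (univ : Finset ι) → ZMod 2) → Prop := fun α => GdL (dt S₀ J3 β) α with hQ
    have h3 := hEQ ι univ C' X κ hκ
      (fun i => (Finset.card_le_card (Finset.filter_subset _ _)).trans (hCX i))
      (HB_sub hHB fun i q => lb S₀ q = β i) Q
    have h4 : ((Fintype.piFinset C).filter fun p => (fun i => lb S₀ (p i)) = β ∧
        Gd (S₀ ∪ univ.image p)) = ((Fintype.piFinset C').filter fun p =>
          Q fun e => nr (p e.1.1) (p e.1.2)) := by
      rw [← hpi, Finset.filter_filter]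
      refine Finset.filter_congr fun p hp => ?_
      refine and_congr_right fun hl => ?_
      rw [gd_iff (hinj p hp) (hpr p hp) (hd p hp) (hJ3 p hp) i₀]
      subst hl
      exact Iff.rfl
    have h5 : (((Fintype.piFinset C').card : ℕ) : ℝ) = ∏ j, ((C' j).card : ℝ) := by
      rw [Fintype.card_piFinset]
      push_cast
      rfl
    rw [h4, hpi, h5]
    set n : ℝ := (((Fintype.piFinset C').filter fun p =>
          Q fun e => nr (p e.1.1) (p e.1.2)).card : ℝ) with hn
    set q : ℝ := ((univ.filter Q).card : ℝ) / 2 ^ (prs (univ : Finset ι)).card with hq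
    set P : ℝ := ∏ j, ((C' j).card : ℝ) with hP
    have h2' : |q - eta| ≤ ε := h2
    have hP0 : 0 ≤ P := Finset.prod_nonneg fun j _ => by positivity
    have h6 : |n - eta * P| ≤ |n - q * P| + |q - eta| * P := by
      have h7 : n - eta * P = (n - q * P) + (q - eta) * P := by ring
      have h8 : |(q - eta) * P| = |q - eta| * P := by rw [abs_mul, abs_of_nonneg hP0]
      rw [h7, ← h8]
      exact abs_add_le _ _
    have h7 : |q - eta| * P ≤ ε * P := mul_le_mul_of_nonneg_right h2' hP0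
    have h8 : |n - q * P| ≤ R := h3
    linarith
  -- sum over the labels
  set LL := univ.filter (fun β : ι → Lb S₀ => LN S₀ J3 β) with hLL
  have hfib : ∀ T : (ι → ℕ) → Prop,
      (((Fintype.piFinset C).filter fun p => Nd S₀ (univ.image p) ∧ T p).card : ℝ) =
      ∑ β ∈ LL, (((Fintype.piFinset C).filter fun p =>
        (fun i => lb S₀ (p i)) = β ∧ T p).card : ℝ) := by
    intro T
    rw [Finset.card_eq_sum_card_fiberwise (f := fun (p : ι → ℕ) (i : ι) => lb S₀ (p i))
      (t := LL) (by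
        intro p hp
        rw [Finset.mem_coe, Finset.mem_filter] at hp
        rw [Finset.mem_coe, hLL, Finset.mem_filter]
        exact ⟨Finset.mem_univ _, (nd_iff (hJ p hp.1)).1 hp.2.1⟩)]
    push_cast
    refine Finset.sum_congr rfl fun β hβ => ?_
    rw [hLL, Finset.mem_filter] at hβ
    congr 2
    ext p
    simp only [Finset.mem_filter]
    constructor
    · rintro ⟨⟨h3, h4, h4'⟩, h5⟩
      exact ⟨h3, h5, h4'⟩
    · rintro ⟨h3, h4, h5⟩
      refine ⟨⟨h3, ?_, h5⟩, h4⟩
      rw [nd_iff (hJ p h3), h4]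
      exact hβ.2
  have hf1 := hfib fun p => Gd (S₀ ∪ univ.image p)
  have hf2 := hfib fun _ => True
  simp only [and_true] at hf2
  rw [hf1, hf2, Finset.mul_sum, ← Finset.sum_sub_distrib]
  refine (Finset.abs_sum_le_sum_abs _ _).trans ?_
  refine (Finset.sum_le_sum fun β hβ => h1 β (Finset.mem_filter.1 hβ).2).trans ?_
  rw [Finset.sum_add_distrib, ← Finset.mul_sum, Finset.sum_const, nsmul_eq_mul]
  have h5 : ((LL.card : ℕ) : ℝ) ≤ 2 ^ ((2 * S₀.card + 1) * Fintype.card ι) := by
    have h6 : LL.card ≤ Fintype.card (ι → Lb S₀) := Finset.card_le_univ _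
    rw [Fintype.card_fun, Fintype.card_prod, Fintype.card_fun, ZMod.card,
      Fintype.card_coe, ← pow_add, ← pow_mul] at h6
    have h7 : 2 ^ ((S₀.card + S₀.card) * Fintype.card ι) ≤
        2 ^ ((2 * S₀.card + 1) * Fintype.card ι) := by
      refine Nat.pow_le_pow_right (by norm_num) (Nat.mul_le_mul_right _ (by omega))
    exact_mod_cast h6.trans h7
  have h6 := mul_le_mul_of_nonneg_right h5 hR0
  rw [pow_add, mul_assoc]
  linarith

end Pool.Agent.NH3.XD
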