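import Pool.Agent.NH3.XD.Stm
import Pool.Agent.NH4.PJ.FEW

/-!
# XD-FEW: few sets have few large primes `3` modulo `4` (helper86)
-/

set_option autoImplicit false

open scoped Classical

namespace Pool.Agent.NH3.XD.Few

open Finset Filter
open Pool.Agent.Y703.CX (sm la eL zz S_SIE)
open Pool.Agent.Y703.CQ (S_MER)
open Pool.Agent.Y495.CX.Few (PN euler prod_pos' le_of_mem_prod mert eL_tendsto log_small zz_ge
  loglog_zz rpow_eq)
open Pool.Agent.Y362.CQ (moment)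
open Pool.Agent.NH4.PJ.Few (thr)

lemma AA_mem {X : ℕ} {S : Finset ℕ} (h : S ∈ AA X) :
    (∀ p ∈ S, p.Prime ∧ p ≠ 2) ∧ ∏ p ∈ S, p ≤ X := by
  unfold AA at h
  rw [mem_filter] at h
  exact h.2

/-- a family of sets of primes with a condition -/
noncomputable def LL (X : ℕ) (Q : Finset ℕ → Prop) : Finset (Finset ℕ) :=
  (range (X + 1)).powerset.filter fun S => (∀ p ∈ S, p.Prime ∧ p ≠ 2) ∧
    ∏ p ∈ S, p ≤ X ∧ Q S

lemma mem_LL {X : ℕ} {Q : Finset ℕ → Prop} {S : Finset ℕ} :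
    S ∈ LL X Q ↔ S ⊆ range (X + 1) ∧
      (∀ p ∈ S, p.Prime ∧ p ≠ 2) ∧ ∏ p ∈ S, p ≤ X ∧ Q S := by
  unfold LL
  rw [mem_filter, mem_powerset]

lemma LL_sub {X : ℕ} {Q : Finset ℕ → Prop} (hQ : ∀ S, Q S → ∀ T, T ⊆ S → Q T)
    {S T : Finset ℕ} (hS : S ∈ LL X Q) (h : T ⊆ S) : T ∈ LL X Q := by
  rw [mem_LL] at hS ⊢
  obtain ⟨a0, a1, a2, a3⟩ := hS
  refine ⟨h.trans a0, fun p hp => a1 p (h hp), ?_, hQ S a3 T h⟩
  refine le_trans ?_ a2
  exact prod_le_prod_of_subset_of_one_le' h fun p hp _ => (a1 p hp).1.one_lt.le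

lemma mem_LL_of {X : ℕ} {Q : Finset ℕ → Prop} {S : Finset ℕ} (hS : S ∈ AA X) (hQ : Q S) :
    S ∈ LL X Q := by
  unfold AA at hS
  rw [mem_filter, mem_powerset] at hS
  rw [mem_LL]
  exact ⟨hS.1, hS.2.1, hS.2.2, hQ⟩

/-- sets with many small primes -/
lemma part1 (K : ℝ) (hK : 1 ≤ K) : ∃ C : ℝ, 0 ≤ C ∧ ∀ᶠ X : ℕ in atTop,
    (((AA X).filter fun S => eL X / K < ((sm (zz X) S).card : ℝ)).card : ℝ) ≤
      C * X * Real.exp (-(4 / 5) * eL X) := by
  obtain ⟨C, hC0, hC⟩ := mert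
  set κ : ℝ := Real.exp K with hκ
  have κ0 : 0 < κ := Real.exp_pos _
  have hK0 : 0 < K := by linarith
  refine ⟨Real.exp (κ * C), (Real.exp_pos _).le, ?_⟩
  filter_upwards [eL_tendsto.eventually (log_small (3 * κ) (1 / 5) (by norm_num)),
    eL_tendsto.eventually (eventually_ge_atTop 2)] with X h1 h2
  have h3 := moment X (zz X) (AA X)
    (fun S hS => ⟨fun p hp => ((AA_mem hS).1 p hp).1, (AA_mem hS).2⟩) κ κ0.le
  have h4 := hC (zz X) (zz_ge h2)
  have h5 := loglog_zz h2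
  have h6 : (((AA X).filter fun S => eL X / K < ((sm (zz X) S).card : ℝ)).card : ℝ) *
      Real.exp (eL X) ≤ ∑ S ∈ AA X, κ ^ (sm (zz X) S).card := by
    rw [← nsmul_eq_mul, ← sum_const]
    refine le_trans ?_ (sum_le_sum_of_subset_of_nonneg
      (filter_subset (fun S => eL X / K < ((sm (zz X) S).card : ℝ)) (AA X))
      fun S _ _ => by positivity)
    refine sum_le_sum fun S hS => ?_
    rw [mem_filter] at hS
    rw [hκ, ← Real.exp_nat_mul]
    apply Real.exp_le_exp.2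
    have := hS.2
    rw [div_lt_iff₀ hK0] at this
    exact this.le
  have h7 := h6.trans h3
  have h8 : κ * ∑ p ∈ PN (zz X), (1 : ℝ) / p ≤ κ * C + 1 / 5 * eL X := by
    have : κ * ∑ p ∈ PN (zz X), (1 : ℝ) / p ≤ κ * (3 * Real.log (eL X) + C) :=
      mul_le_mul_of_nonneg_left (by linarith) κ0.le
    nlinarith
  have h9 : (X : ℝ) * Real.exp (κ * ∑ p ∈ PN (zz X), (1 : ℝ) / p) ≤
      X * (Real.exp (κ * C) * Real.exp (1 / 5 * eL X)) := by
    rw [← Real.exp_add]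
    exact mul_le_mul_of_nonneg_left (Real.exp_le_exp.2 h8) (Nat.cast_nonneg _)
  have h10 := h7.trans h9
  have h11 : (Real.exp (κ * C) * X * Real.exp (-(4 / 5) * eL X)) * Real.exp (eL X) =
      X * (Real.exp (κ * C) * Real.exp (1 / 5 * eL X)) := by
    have : Real.exp (1 / 5 * eL X) = Real.exp (-(4 / 5) * eL X) * Real.exp (eL X) := by
      rw [← Real.exp_add]
      congr 1
      ring
    rw [this]
    ring
  rw [← h11] at h10
  exact le_of_mul_le_mul_right h10 (Real.exp_pos _)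

/-- the logarithmic density of a family -/
lemma LB_sum (BT : ℕ → Prop) (X z : ℕ) (Q : Finset ℕ → Prop) (w : ℕ → ℝ) (M : ℝ)
    (hw : ∀ p, 0 ≤ w p) (hM : 0 ≤ M) (h1w : ∀ S ∈ LL X Q, 1 ≤ M * ∏ p ∈ S, w p)
    (hw1 : ∀ p, w p ≤ 1) (hB : ∀ p, BT p → z < p → w p ≤ 1 / 4) :
    ∑ S ∈ LL X Q, (1 : ℝ) / ((∏ p ∈ S, p : ℕ) : ℝ) ≤ M *
      Real.exp (∑ p ∈ PN z, (1 : ℝ) / p + ∑ p ∈ PN X, (1 : ℝ) / p -
        3 / 4 * ∑ p ∈ (PN X).filter BT, (1 : ℝ) / p) := by
  have h1 : ∀ S ∈ LL X Q, (1 : ℝ) / ((∏ p ∈ S, p : ℕ) : ℝ) ≤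
      M * ∏ p ∈ S, (w p * (1 / p)) := by
    intro S hS
    have h2 := h1w S hS
    have h3 : (0 : ℝ) ≤ ∏ p ∈ S, (1 : ℝ) / p := prod_nonneg fun p _ => by positivity
    have h4 : (1 : ℝ) / ((∏ p ∈ S, p : ℕ) : ℝ) = ∏ p ∈ S, (1 : ℝ) / p := by
      rw [prod_div_distrib, prod_const_one]
      push_cast
      rfl
    rw [h4, prod_mul_distrib]
    calc ∏ p ∈ S, (1 : ℝ) / p = 1 * ∏ p ∈ S, (1 : ℝ) / p := (one_mul _).symm
      _ ≤ (M * ∏ p ∈ S, w p) * ∏ p ∈ S, (1 : ℝ) / p :=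
          mul_le_mul_of_nonneg_right h2 h3
      _ = _ := by ring
  refine (sum_le_sum h1).trans ?_
  rw [← mul_sum]
  apply mul_le_mul_of_nonneg_left _ hM
  have hnn : ∀ p : ℕ, 0 ≤ w p * (1 / (p : ℝ)) := fun p => mul_nonneg (hw p) (by positivity)
  have h5 : ∑ S ∈ LL X Q, ∏ p ∈ S, (w p * (1 / (p : ℝ))) ≤
      ∑ S ∈ (PN X).powerset, ∏ p ∈ S, (w p * (1 / (p : ℝ))) := by
    refine sum_le_sum_of_subset_of_nonneg ?_ fun S _ _ => prod_nonneg fun p _ => hnn p
    intro S hS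
    rw [mem_LL] at hS
    rw [mem_powerset]
    intro p hp
    have h6 := hS.2.1 p hp
    rw [mem_filter, mem_Icc]
    exact ⟨⟨h6.1.one_lt.le, le_of_mem_prod (fun p hp => (hS.2.1 p hp).1) hS.2.2.1 hp⟩, h6.1⟩
  refine h5.trans ((euler _ _ fun p _ => hnn p).trans ?_)
  apply Real.exp_le_exp.2
  have h6 : ∀ p ∈ PN X, w p * (1 / (p : ℝ)) ≤
      (if p ≤ z then (1 : ℝ) / p else 0) + 1 / p -
        3 / 4 * (if BT p then (1 : ℝ) / p else 0) := by
    intro p hp
    have hp0 : (0 : ℝ) ≤ 1 / p := by positivity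
    have hw' : w p * (1 / (p : ℝ)) ≤ 1 / p := by
      have := mul_le_mul_of_nonneg_right (hw1 p) hp0
      linarith
    by_cases hb : BT p
    · rw [if_pos hb]
      by_cases hpz : p ≤ z
      · rw [if_pos hpz]
        linarith
      · rw [if_neg hpz]
        have := mul_le_mul_of_nonneg_right (hB p hb (not_le.1 hpz)) hp0
        linarith
    · rw [if_neg hb, mul_zero, sub_zero]
      have e0 : (0 : ℝ) ≤ if p ≤ z then (1 : ℝ) / p else 0 := by
        split_ifs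
        · exact hp0
        · exact le_refl _
      linarith
  refine (sum_le_sum h6).trans ?_
  rw [sum_sub_distrib, sum_add_distrib, ← mul_sum, ← sum_filter, ← sum_filter]
  gcongr
  intro p hp
  rw [mem_filter, mem_filter, mem_Icc] at hp
  rw [mem_filter, mem_Icc]
  exact ⟨⟨hp.1.1.1, hp.2⟩, hp.1.2⟩

/-- sets with few large primes with the property `BT` -/
lemma partB (hs : S_SIE) (BT : ℕ → Prop) (hm : ∃ C : ℝ, 0 ≤ C ∧ ∀ y : ℕ, 3 ≤ y →
      1 / 16 * Real.log (Real.log y) - C ≤ ∑ p ∈ (PN y).filter BT, (1 : ℝ) / p)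
    {r : ℝ} (hr : 23 / 1000 - 3 / 64 < r) : ∃ C : ℝ, 0 ≤ C ∧ ∀ᶠ X : ℕ in atTop,
    ((LL X fun S => ((la (zz X) S).filter BT).card ≤ ⌊eL X / 64⌋₊).card : ℝ) ≤
      C * X * Real.exp (r * eL X) := by
  obtain ⟨C, hC0, hC⟩ := mert
  obtain ⟨C₁, hC₁0, hC₁⟩ := hm
  obtain ⟨C', hC'1, hC'⟩ := hs
  have hl4 : Real.log 4 / 64 < 23 / 1000 := by
    have h1 : (4 : ℝ) = 2 ^ 2 := by norm_num
    rw [h1, Real.log_pow]
    have := Real.log_two_lt_d9
    push_cast
    linarith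
  refine ⟨C' * Real.exp (2 * C + C₁), by positivity, ?_⟩
  have hε : 0 < r - (23 / 1000 - 3 / 64) := by linarith
  filter_upwards [eL_tendsto.eventually (log_small 3 _ hε),
    eL_tendsto.eventually (eventually_ge_atTop 2), eventually_ge_atTop 3] with X h1 h2 h3
  set l := eL X with hl
  have h4 := hC (zz X) (zz_ge h2)
  have h5 := loglog_zz h2
  have h6 := hC₁ X h3
  have h6' := hC X h3
  rw [← hl] at h5
  change 1 / 16 * l - C₁ ≤ _ at h6
  change _ ≤ l + C at h6'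
  set Q : Finset ℕ → Prop := fun S => ((la (zz X) S).filter BT).card ≤ ⌊l / 64⌋₊ with hQ
  have hQs : ∀ S, Q S → ∀ T, T ⊆ S → Q T := by
    intro S h T hT
    refine (card_le_card (filter_subset_filter _ ?_)).trans h
    unfold la
    exact filter_subset_filter _ hT
  have h7 := hC' X (LL X Q) (by omega)
    (fun S hS => ⟨fun p hp => ((mem_LL.1 hS).2.1 p hp).1, (mem_LL.1 hS).2.2.1⟩)
    (fun S hS T hT => LL_sub hQs hS hT)
  have h8 := LB_sum BT X (zz X) Q (fun p => if ¬ p ≤ zz X ∧ BT p then 1 / 4 else 1)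
    (Real.exp (Real.log 4 / 64 * l)) (by
      intro p
      split_ifs <;> norm_num) (Real.exp_pos _).le (by
      intro S hS
      rw [mem_LL] at hS
      rw [← prod_filter, prod_const]
      have h1 : (S.filter fun p => ¬ p ≤ zz X ∧ BT p).card ≤ ⌊l / 64⌋₊ := by
        refine (card_le_card ?_).trans hS.2.2.2
        intro p hp
        rw [mem_filter] at hp
        unfold la
        rw [mem_filter, mem_filter]
        exact ⟨⟨hp.1, hp.2.1⟩, hp.2.2⟩
      have h2' : (1 / 4 : ℝ) ^ ⌊l / 64⌋₊ ≤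
          (1 / 4 : ℝ) ^ (S.filter fun p => ¬ p ≤ zz X ∧ BT p).card :=
        pow_le_pow_of_le_one (by norm_num) (by norm_num) h1
      have h3' : Real.exp (-(Real.log 4 / 64 * l)) ≤ (1 / 4 : ℝ) ^ ⌊l / 64⌋₊ := by
        have e1 : (1 / 4 : ℝ) = Real.exp (-Real.log 4) := by
          rw [Real.exp_neg, Real.exp_log (by norm_num)]
          norm_num
        rw [e1, ← Real.exp_nat_mul]
        apply Real.exp_le_exp.2
        have e2 : ((⌊l / 64⌋₊ : ℕ) : ℝ) ≤ l / 64 := Nat.floor_le (by linarith)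
        have e4 : 0 ≤ Real.log 4 := Real.log_nonneg (by norm_num)
        have e5 := mul_le_mul_of_nonneg_right e2 e4
        linarith
      calc (1 : ℝ) = Real.exp (Real.log 4 / 64 * l) *
            Real.exp (-(Real.log 4 / 64 * l)) := by
            rw [← Real.exp_add, add_neg_cancel, Real.exp_zero]
        _ ≤ _ := mul_le_mul_of_nonneg_left (h3'.trans h2') (Real.exp_pos _).le) (by
      intro p
      split_ifs <;> norm_num) (by
      intro p h h'
      rw [if_pos ⟨not_le.2 h', h⟩])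
  have hlX : Real.log X = Real.exp l := by
    have := rpow_eq (X := X) h2 1
    rwa [Real.rpow_one, one_mul] at this
  rw [hlX] at h7
  have h12 : Real.exp (Real.log 4 / 64 * l) * Real.exp (∑ p ∈ PN (zz X), (1 : ℝ) / p +
      ∑ p ∈ PN X, (1 : ℝ) / p - 3 / 4 * ∑ p ∈ (PN X).filter BT, (1 : ℝ) / p) ≤
      Real.exp (2 * C + C₁) * Real.exp ((r + 1) * l) := by
    rw [← Real.exp_add, ← Real.exp_add]
    apply Real.exp_le_exp.2
    have e1 : ∑ p ∈ PN (zz X), (1 : ℝ) / p ≤ 3 * Real.log l + C := by linarith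
    have e2 : Real.log 4 / 64 * l ≤ 23 / 1000 * l :=
      mul_le_mul_of_nonneg_right hl4.le (by linarith)
    nlinarith
  have h13 : ((LL X Q).card : ℝ) * Real.exp l ≤
      C' * X * (Real.exp (2 * C + C₁) * Real.exp ((r + 1) * l)) := by
    refine h7.trans ?_
    exact mul_le_mul_of_nonneg_left (h8.trans h12) (by positivity)
  have h14 : (C' * Real.exp (2 * C + C₁) * X * Real.exp (r * l)) * Real.exp l =
      C' * X * (Real.exp (2 * C + C₁) * Real.exp ((r + 1) * l)) := by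
    have : Real.exp ((r + 1) * l) = Real.exp (r * l) * Real.exp l := by
      rw [← Real.exp_add]
      congr 1
      ring
    rw [this]
    ring
  rw [← h14] at h13
  exact le_of_mul_le_mul_right h13 (Real.exp_pos _)

/-- the class `3` modulo `4` -/
def T3 (p : ℕ) : Prop := p % 4 = 3

/-- the primes `3` modulo `4` -/
lemma mer3 (hm : S_MER) : ∃ C : ℝ, 0 ≤ C ∧ ∀ y : ℕ, 3 ≤ y →
    1 / 16 * Real.log (Real.log y) - C ≤ ∑ p ∈ (PN y).filter T3, (1 : ℝ) / p := by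
  obtain ⟨C₁, h1⟩ := hm 3 (by decide)
  obtain ⟨C₂, h2⟩ := hm 11 (by decide)
  refine ⟨|C₁| + |C₂|, by positivity, fun y hy => ?_⟩
  have h3 := h1 y hy
  have h4 := h2 y hy
  have h5 : 0 ≤ Real.log (Real.log y) := by
    apply Real.log_nonneg
    rw [Real.le_log_iff_exp_le (by positivity)]
    have e1 := Real.exp_one_lt_d9
    have e2 : (3 : ℝ) ≤ y := by exact_mod_cast hy
    linarith
  have hd : Disjoint ((range (y + 1)).filter fun p => p.Prime ∧ p % 56 = 3 % 56)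
      ((range (y + 1)).filter fun p => p.Prime ∧ p % 56 = 11 % 56) := by
    rw [disjoint_filter]
    rintro p - ⟨-, e1⟩ ⟨-, e2⟩
    omega
  have h6 : ∑ p ∈ (range (y + 1)).filter (fun p => p.Prime ∧ p % 56 = 3 % 56), (1 : ℝ) / p +
      ∑ p ∈ (range (y + 1)).filter (fun p => p.Prime ∧ p % 56 = 11 % 56), (1 : ℝ) / p ≤
      ∑ p ∈ (PN y).filter T3, (1 : ℝ) / p := by
    rw [← sum_union hd]
    refine sum_le_sum_of_subset_of_nonneg ?_ fun p _ _ => by positivity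
    intro p hp
    rw [mem_union, mem_filter, mem_filter, mem_range] at hp
    rw [mem_filter, mem_filter, mem_Icc]
    unfold T3
    rcases hp with ⟨a, b, c⟩ | ⟨a, b, c⟩
    · exact ⟨⟨⟨b.one_lt.le, by omega⟩, b⟩, by omega⟩
    · exact ⟨⟨⟨b.one_lt.le, by omega⟩, b⟩, by omega⟩
  have h7 := (abs_le.1 h3).1
  have h8 := (abs_le.1 h4).1
  have h9 := le_abs_self C₁
  have h10 := le_abs_self C₂
  linarith

end Few

open Few Finset Filter
open Pool.Agent.Y703.CX (sm la eL zz S_SIE)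
open Pool.Agent.Y495.CX.Few (eL_tendsto rpow_eq)
open Pool.Agent.NH4.PJ.Few (thr)

theorem t_XFEW : S_XFEW := by
  intro hs hm R
  set r : ℝ := -1 / 64 with hr
  obtain ⟨C₁, hC₁, h1⟩ := part1 (80 * (((2 : ℕ) : ℝ) + 1)) (by norm_num)
  obtain ⟨C₂, hC₂, h2⟩ := partB hs T3 (mer3 hm) (r := r) (by rw [hr]; norm_num)
  have h4 := (h1.and h2).and
    (eL_tendsto.eventually (eventually_ge_atTop (max 2 (320 * (R : ℝ)))))
  rw [eventually_atTop] at h4
  obtain ⟨X₀, hX₀⟩ := h4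
  refine ⟨C₁ + C₂, X₀, fun X hX => ?_⟩
  obtain ⟨⟨h5, h6⟩, h8⟩ := hX₀ X hX
  have h9 : 2 ≤ eL X := (le_max_left _ _).trans h8
  have h10 : 320 * (R : ℝ) ≤ eL X := (le_max_right _ _).trans h8
  rw [rpow_eq h9]
  set F1 := (AA X).filter fun S => eL X / (80 * (((2 : ℕ) : ℝ) + 1)) <
    ((sm (zz X) S).card : ℝ) with hF1
  set F2 := LL X fun S => ((la (zz X) S).filter T3).card ≤ ⌊eL X / 64⌋₊ with hF2
  have h11 : ((AA X).filter fun S => ((la (zz X) S).filter fun p => p % 4 = 3).card <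
      2 * (sm (zz X) S).card + R) ⊆ F1 ∪ F2 := by
    intro S hS
    rw [mem_filter] at hS
    rw [mem_union]
    by_cases hc : eL X / (80 * (((2 : ℕ) : ℝ) + 1)) < ((sm (zz X) S).card : ℝ)
    · exact Or.inl (mem_filter.2 ⟨hS.1, hc⟩)
    right
    rw [not_lt] at hc
    refine mem_LL_of hS.1 ?_
    apply Nat.le_floor
    have e1 : (la (zz X) S).filter T3 = (la (zz X) S).filter fun p => p % 4 = 3 := by
      ext p
      rw [mem_filter, mem_filter]
      rfl
    rw [e1]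
    exact (thr hc h10 (by linarith) hS.2).1
  have h12 : (((AA X).filter fun S => ((la (zz X) S).filter fun p => p % 4 = 3).card <
      2 * (sm (zz X) S).card + R).card : ℝ) ≤ (F1.card : ℝ) + (F2.card : ℝ) := by
    exact_mod_cast (card_le_card h11).trans (card_union_le _ _)
  have h13 : C₁ * X * Real.exp (-(4 / 5) * eL X) ≤ C₁ * X * Real.exp (r * eL X) := by
    apply mul_le_mul_of_nonneg_left _ (by positivity)
    apply Real.exp_le_exp.2
    apply mul_le_mul_of_nonneg_right _ (by linarith)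
    rw [hr]; norm_num
  refine h12.trans ((add_le_add (h5.trans h13) h6).trans (le_of_eq ?_))
  ring

end Pool.Agent.NH3.XD
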