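import Pool.Agent.NH3.XD.Stm
import Pool.Agent.NH1.Sub

/-!
# Project XD: the kernel of the Redei matrix in terms of subsets
-/

set_option autoImplicit false

open scoped Classical

namespace Pool.Agent.NH3.XD

open Finset
open Pool.Agent.Y703.CQ (nr)
open Pool.Agent.NH1 (gen)
open Pool.Agent.Z700 (pr)

theorem nr_jac {p q : ℕ} (hp : p.Prime) (h2 : p ≠ 2) (hq : q.Prime) (hpq : q ≠ p) :
    jacobiSym q p = if nr p q = 0 then 1 else -1 := by
  haveI : Fact p.Prime := ⟨hp⟩
  have h0 : ((q : ℤ) : ZMod p) ≠ 0 := by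
    rw [Int.cast_natCast, Ne, ZMod.natCast_eq_zero_iff, Nat.prime_dvd_prime_iff_eq hp hq]
    exact fun h => hpq h.symm
  rw [← jacobiSym.legendreSym.to_jacobiSym]
  unfold nr
  by_cases h : IsSquare ((q : ℕ) : ZMod p)
  · rw [if_pos h, if_pos rfl, legendreSym.eq_one_iff p h0, Int.cast_natCast]
    exact h
  · rw [if_neg h, if_neg one_ne_zero]
    rw [legendreSym.eq_neg_one_iff p, Int.cast_natCast]
    exact h

theorem prod_jac {p : ℕ} (hp : p.Prime) (h2 : p ≠ 2) (T : Finset ℕ) (hT : ∀ q ∈ T, q.Prime ∧ q ≠ p) :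
    jacobiSym (pr T) p = if ∑ q ∈ T, nr p q = 0 then 1 else -1 := by
  induction T using Finset.induction_on with
  | empty =>
    unfold pr
    simp
  | insert q T hq ih =>
    have h1 := nr_jac hp h2 (hT q (mem_insert_self _ _)).1 (hT q (mem_insert_self _ _)).2
    have h3 := ih fun t ht => hT t (mem_insert_of_mem ht)
    have e : pr (insert q T) = q * pr T := by
      unfold pr
      rw [prod_insert hq]
    rw [e, sum_insert hq]
    push_cast
    rw [jacobiSym.mul_left, h1, h3]
    generalize nr p q = a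
    generalize ∑ q ∈ T, nr p q = b
    revert a b
    decide

theorem gd_iff_gen {N : Finset ℕ} (hN : ∀ p ∈ N, p.Prime ∧ p ≠ 2) :
    Gd N ↔ ∀ D ⊆ N, (∀ p ∈ N, gen N D p = 1) → D = ∅ ∨ D = N := by
  have key : ∀ D ⊆ N, ∀ p ∈ N, (gen N D p = 1 ↔
      ∑ q ∈ N, nr p q * ((if q ∈ D then (1 : ZMod 2) else 0) + if p ∈ D then 1 else 0) = 0) := by
    intro D hD p hp
    unfold gen
    by_cases h : p ∈ D
    · rw [if_pos h, prod_jac (hN p hp).1 (hN p hp).2 (N \ D) fun q hq =>
        ⟨(hN q (mem_sdiff.1 hq).1).1, fun hqp => (mem_sdiff.1 hq).2 (hqp ▸ h)⟩]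
      have e : ∑ q ∈ N, nr p q * ((if q ∈ D then (1 : ZMod 2) else 0) + if p ∈ D then 1 else 0) =
          ∑ q ∈ N \ D, nr p q := by
        rw [← sum_sdiff hD]
        have e1 : ∑ q ∈ D, nr p q * ((if q ∈ D then (1 : ZMod 2) else 0) + if p ∈ D then 1 else 0) =
            0 := by
          refine sum_eq_zero fun q hq => ?_
          rw [if_pos hq, if_pos h]
          have : (1 : ZMod 2) + 1 = 0 := rfl
          rw [this, mul_zero]
        rw [e1, add_zero]
        refine sum_congr rfl fun q hq => ?_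
        rw [if_neg (mem_sdiff.1 hq).2, if_pos h, zero_add, mul_one]
      rw [e]
      split_ifs with h3 <;> simp [h3]
    · rw [if_neg h, prod_jac (hN p hp).1 (hN p hp).2 D fun q hq =>
        ⟨(hN q (hD hq)).1, fun hqp => h (hqp ▸ hq)⟩]
      have e : ∑ q ∈ N, nr p q * ((if q ∈ D then (1 : ZMod 2) else 0) + if p ∈ D then 1 else 0) =
          ∑ q ∈ D, nr p q := by
        rw [← sum_sdiff hD]
        have e1 : ∑ q ∈ N \ D, nr p q *
            ((if q ∈ D then (1 : ZMod 2) else 0) + if p ∈ D then 1 else 0) = 0 := by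
          refine sum_eq_zero fun q hq => ?_
          rw [if_neg (mem_sdiff.1 hq).2, if_neg h, add_zero, mul_zero]
        rw [e1, zero_add]
        refine sum_congr rfl fun q hq => ?_
        rw [if_pos hq, if_neg h, add_zero, mul_one]
      rw [e]
      split_ifs with h3 <;> simp [h3]
  constructor
  · intro h D hD hg
    have h1 := h (fun q => if q ∈ D then 1 else 0) fun p hp => (key D hD p hp).1 (hg p hp)
    rcases D.eq_empty_or_nonempty with h2 | ⟨q, hq⟩
    · exact Or.inl h2
    · right
      refine hD.antisymm fun p hp => ?_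
      by_contra hpD
      have h3 := h1 p hp q (hD hq)
      simp only [if_neg hpD, if_pos hq] at h3
      exact zero_ne_one h3
  · intro h x hx p hp q hq
    have h2 : ∀ a : ZMod 2, a = if a = 1 then 1 else 0 := by decide
    have h1 := h (N.filter fun t => x t = 1) (filter_subset _ _) fun p hp => by
      rw [key _ (filter_subset _ _) p hp]
      refine Eq.trans (sum_congr rfl fun t ht => ?_) (hx p hp)
      simp only [mem_filter, ht, hp, true_and]
      rw [← h2, ← h2]
    have h3 : x p = 1 ↔ x q = 1 := by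
      rcases h1 with h1 | h1
      · have hf : ∀ t ∈ N, ¬ x t = 1 := fun t ht h => by
          have h5 : t ∈ N.filter fun t => x t = 1 := mem_filter.2 ⟨ht, h⟩
          rw [h1] at h5
          exact absurd h5 (notMem_empty t)
        exact iff_of_false (hf p hp) (hf q hq)
      · have hf : ∀ t ∈ N, x t = 1 := fun t ht => by
          rw [← h1] at ht
          exact (mem_filter.1 ht).2
        exact iff_of_true (hf p hp) (hf q hq)
    rw [h2 (x p), h2 (x q)]
    simp only [h3]

end Pool.Agent.NH3.XD
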