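import Pool.Agent.NH3.XD.Stm
import Pool.Agent.Y475.CQ.HAL

/-!
# XD-HAL: the logarithmic density for a quadratic character (helper73)

Adaptation of `Pool.Agent.NH5.PR.HAL`: the primes are `1` modulo `4`, the primes of `W` are arbitrary odd
primes.
-/

set_option autoImplicit false

open scoped Classical

namespace Pool.Agent.NH3.XD.HAL

open Finset
open Pool.Agent.Y703.CQ (nr)
open Pool.Agent.Y475.CQ (c0 cJ c0_mod cJ_mod leg main_le sum_zero tsum_le part_le zeta_le pow_small)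

/-- the two characters -/
noncomputable def dd (M : ℕ) : Fin 2 → (ℕ →* ℝ) := ![c0, cJ M]

theorem dd_val (M : ℕ) (i : Fin 2) (n : ℕ) : dd M i n = 0 ∨ dd M i n = 1 ∨ dd M i n = -1 := by
  fin_cases i
  · show ((ZMod.χ₄ (n : ZMod 4) : ℤ) : ℝ) = 0 ∨ _ = 1 ∨ _ = -1
    have : ∀ z : ZMod 4, ZMod.χ₄ z = 0 ∨ ZMod.χ₄ z = 1 ∨ ZMod.χ₄ z = -1 := by decide
    rcases this (n : ZMod 4) with h | h | h
    · left; rw [h]; simp
    · right; left; show ((ZMod.χ₄ (n : ZMod 4) : ℤ) : ℝ) = 1; rw [h]; simp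
    · right; right; show ((ZMod.χ₄ (n : ZMod 4) : ℤ) : ℝ) = -1; rw [h]; simp
  · rcases jacobiSym.trichotomy (n : ℤ) M with h | h | h
    · left; show ((jacobiSym (n : ℤ) M : ℤ) : ℝ) = 0; rw [h]; simp
    · right; left; show ((jacobiSym (n : ℤ) M : ℤ) : ℝ) = 1; rw [h]; simp
    · right; right; show ((jacobiSym (n : ℤ) M : ℤ) : ℝ) = -1; rw [h]; simp

/-- congruent modulo the period -/
theorem dd_mod (M : ℕ) (V : Finset (Fin 2)) (a b : ℕ) (h4 : a ≡ b [MOD 4])
    (hM : (1 : Fin 2) ∈ V → a ≡ b [MOD M]) : (∏ i ∈ V, dd M i) a = (∏ i ∈ V, dd M i) b := by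
  rw [MonoidHom.finsetProd_apply, MonoidHom.finsetProd_apply]
  refine prod_congr rfl fun i hi => ?_
  fin_cases i
  · exact c0_mod a b h4
  · exact cJ_mod M a b (hM hi)

theorem abs_dd (M : ℕ) (V : Finset (Fin 2)) (n : ℕ) : |(∏ i ∈ V, dd M i) n| ≤ 1 := by
  rw [MonoidHom.finsetProd_apply, abs_prod]
  refine prod_le_one (fun _ _ => abs_nonneg _) fun i _ => ?_
  rcases dd_val M i n with h | h | h <;> rw [h] <;> norm_num

/-- the product is `-1` if one character is `-1` and the others are one -/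
theorem prod_neg (M : ℕ) (V : Finset (Fin 2)) (j : Fin 2) (hj : j ∈ V) (k : ℕ)
    (h1 : dd M j k = -1) (h2 : ∀ i ∈ V, i ≠ j → dd M i k = 1) : (∏ i ∈ V, dd M i) k = -1 := by
  rw [MonoidHom.finsetProd_apply, prod_eq_single_of_mem j hj h2, h1]

/-- a number congruent to one modulo 4 which is a nonresidue modulo the product of the primes -/
theorem exK (W : Finset ℕ) (hW : W.Nonempty) (hp : ∀ u ∈ W, u.Prime ∧ u ≠ 2) :
    ∃ k : ℕ, k ≡ 1 [MOD 4] ∧ Nat.Coprime k (∏ u ∈ W, u) ∧ jacobiSym (k : ℤ) (∏ u ∈ W, u) = -1 := by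
  obtain ⟨v, hv⟩ := hW
  have hvp := (hp v hv).1
  have hvf : Fact v.Prime := ⟨hvp⟩
  have hv2 : v ≠ 2 := (hp v hv).2
  obtain ⟨g, hg⟩ := FiniteField.exists_nonsquare (F := ZMod v) (by rw [ZMod.ringChar_zmod_n]; exact hv2)
  set Q := ∏ u ∈ W.erase v, u with hQ
  have hM : ∏ u ∈ W, u = v * Q := (mul_prod_erase W (fun u => u) hv).symm
  have hcop : Nat.Coprime v (4 * Q) := by
    refine Nat.Coprime.mul_right ?_ ?_
    · rw [Nat.Prime.coprime_iff_not_dvd hvp]
      intro h
      have h1 : v ∣ 2 ^ 2 := by simpa using h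
      exact hv2 ((Nat.prime_dvd_prime_iff_eq hvp Nat.prime_two).1 (hvp.dvd_of_dvd_pow h1))
    · rw [Nat.coprime_prod_right_iff]
      intro u hu
      exact (Nat.coprime_primes hvp (hp u (mem_of_mem_erase hu)).1).2 (ne_of_mem_erase hu).symm
  obtain ⟨k, hk1, hk2⟩ := Nat.chineseRemainder hcop g.val 1
  have hk4 : k ≡ 1 [MOD 4] := hk2.of_dvd (dvd_mul_right _ _)
  have hkQ : k ≡ 1 [MOD Q] := hk2.of_dvd (dvd_mul_left _ _)
  have hkv : ((k : ℕ) : ZMod v) = g := by
    rw [(ZMod.natCast_eq_natCast_iff k g.val v).2 hk1, ZMod.natCast_zmod_val]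
  have hJQ : jacobiSym (k : ℤ) Q = 1 := by
    have h1 : jacobiSym (k : ℤ) Q = jacobiSym ((1 : ℕ) : ℤ) Q :=
      jacobiSym.mod_left' ((Int.natCast_modEq_iff).2 hkQ)
    rw [h1, Nat.cast_one, jacobiSym.one_left]
  have hJv : jacobiSym (k : ℤ) v = -1 := by
    rw [leg, legendreSym.eq_neg_one_iff]
    rw [Int.cast_natCast, hkv]
    exact hg
  have hQ0 : Q ≠ 0 := by
    rw [hQ, prod_ne_zero_iff]
    intro u hu
    exact (hp u (mem_of_mem_erase hu)).1.ne_zero
  have : NeZero v := ⟨hvp.ne_zero⟩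
  have : NeZero Q := ⟨hQ0⟩
  refine ⟨k, hk4, ?_, ?_⟩
  · rw [hM]
    refine Nat.Coprime.mul_right ?_ ?_
    · rw [Nat.coprime_comm, Nat.Prime.coprime_iff_not_dvd hvp]
      intro h
      rw [← ZMod.natCast_eq_zero_iff, hkv] at h
      exact hg (h ▸ IsSquare.zero)
    · have := hkQ.gcd_eq
      rw [Nat.gcd_one_left] at this
      exact this
  · rw [hM, jacobiSym.mul_right, hJv, hJQ, mul_one]

/-- the bounds of the L-functions -/
theorem L_le (W : Finset ℕ) (hW : W.Nonempty) (hp : ∀ u ∈ W, u.Prime ∧ u ≠ 2)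
    (V : Finset (Fin 2)) (hV : V.Nonempty) (σ : ℝ) (hσ : 1 < σ) :
    ∑' n : ℕ, (∏ i ∈ V, dd (∏ u ∈ W, u) i) n * (n : ℝ) ^ (-σ) ≤
      if (1 : Fin 2) ∈ V then 10 * Real.log ((∏ u ∈ W, u : ℕ) : ℝ) else 10 := by
  set M := ∏ u ∈ W, u with hM
  have hl4 : Real.log ((4 : ℕ) : ℝ) ≤ 2 := by
    have h2 : Real.log ((4 : ℕ) : ℝ) = 2 * Real.log 2 := by
      rw [← Real.log_rpow (by norm_num)]
      norm_num
    have h3 := Real.log_two_lt_d9
    linarith
  obtain ⟨k, hk1, hk2, hk3⟩ := exK W hW hp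
  split_ifs with h3
  · have hM1 : 3 ≤ M := by
      obtain ⟨v, hv⟩ := hW
      have h1 : v ∣ M := dvd_prod_of_mem (fun u => u) hv
      have h2 : 0 < M := by
        rw [hM]
        exact prod_pos fun u hu => (hp u hu).1.pos
      have h4 : 3 ≤ v := by
        have a1 := (hp v hv).1.two_le
        have a2 := (hp v hv).2
        omega
      exact h4.trans (Nat.le_of_dvd h2 h1)
    have hq : 1 ≤ 4 * M := by omega
    have hper : ∀ n, (∏ i ∈ V, dd M i) (4 * M + n) = (∏ i ∈ V, dd M i) n := by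
      intro n
      refine dd_mod M V _ _ ?_ fun _ => ?_
      · show (4 * M + n) % 4 = n % 4
        rw [Nat.mul_add_mod]
      · show (4 * M + n) % M = n % M
        rw [mul_comm 4 M, Nat.mul_add_mod]
    have hkneg : (∏ i ∈ V, dd M i) k = -1 := by
      refine prod_neg M V 1 h3 k ?_ fun i hi h => ?_
      · show ((jacobiSym (k : ℤ) M : ℤ) : ℝ) = -1
        rw [hk3]; simp
      · fin_cases i
        · show c0 k = 1
          rw [c0_mod k 1 hk1, map_one]
        · exact absurd rfl h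
    have hk4 : Nat.Coprime k 4 := by
      have := hk1.gcd_eq
      rw [Nat.gcd_one_left] at this
      exact this
    have hz := sum_zero (∏ i ∈ V, dd M i) (4 * M) hq hper k (Nat.Coprime.mul_right hk4 hk2) hkneg
    have h5 := tsum_le (fun n => (∏ i ∈ V, dd M i) n) (4 * M) hq (abs_dd M V)
      (part_le _ (4 * M) hq (abs_dd M V) hper hz) σ hσ
    refine h5.trans ?_
    have hM0 : (3 : ℝ) ≤ (M : ℝ) := by exact_mod_cast hM1
    rw [Nat.cast_mul, Real.log_mul (by norm_num) (by linarith)]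
    have h6 : 1 ≤ Real.log M := by
      rw [Real.le_log_iff_exp_le (by linarith)]
      exact (Real.exp_one_lt_d9.le.trans (by norm_num : (2.7182818286 : ℝ) ≤ 3)).trans hM0
    linarith
  · have hV0 : (0 : Fin 2) ∈ V := by
      obtain ⟨j, hj⟩ := hV
      fin_cases j
      · exact hj
      · exact absurd hj h3
    have hper : ∀ n, (∏ i ∈ V, dd M i) (4 + n) = (∏ i ∈ V, dd M i) n := by
      intro n
      refine dd_mod M V _ _ ?_ fun h => absurd h h3
      show (4 + n) % 4 = n % 4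
      rw [Nat.add_mod_left]
    have hkneg : (∏ i ∈ V, dd M i) 3 = -1 := by
      refine prod_neg M V 0 hV0 3 ?_ fun i hi h => ?_
      · show ((ZMod.χ₄ ((3 : ℕ) : ZMod 4) : ℤ) : ℝ) = -1
        have a1 : ZMod.χ₄ ((3 : ℕ) : ZMod 4) = -1 := by decide
        rw [a1]; simp
      · fin_cases i
        · exact absurd rfl h
        · exact absurd hi h3
    have hz := sum_zero (∏ i ∈ V, dd M i) 4 (by norm_num) hper 3 (by norm_num) hkneg
    have h5 := tsum_le (fun n => (∏ i ∈ V, dd M i) n) 4 (by norm_num) (abs_dd M V)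
      (part_le _ 4 (by norm_num) (abs_dd M V) hper hz) σ hσ
    refine h5.trans ?_
    linarith

/-- the symbols of a split prime -/
theorem dd_one (W : Finset ℕ) (hp : ∀ u ∈ W, u.Prime ∧ u ≠ 2) (p : ℕ) (h1 : p.Prime)
    (h4 : p % 4 = 1) (hpW : p ∉ W)
    (hs : ∑ u ∈ W, nr p u = 0) (i : Fin 2) : dd (∏ u ∈ W, u) i p = 1 := by
  have hpf : Fact p.Prime := ⟨h1⟩
  fin_cases i
  · show c0 p = 1
    rw [c0_mod p 1 (show p % 4 = 1 % 4 by omega), map_one]
  · show ((jacobiSym (p : ℤ) (∏ u ∈ W, u) : ℤ) : ℝ) = 1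
    have key : ∀ W' : Finset ℕ, W' ⊆ W →
        jacobiSym (p : ℤ) (∏ u ∈ W', u) = if ∑ u ∈ W', nr p u = 0 then 1 else -1 := by
      intro W'
      induction W' using Finset.induction_on with
      | empty => intro _; simp
      | insert a s ha ih =>
        intro hs'
        have haW : a ∈ W := hs' (mem_insert_self a s)
        have ihs := ih ((subset_insert a s).trans hs')
        have hap := (hp a haW).1
        have ha2 := (hp a haW).2
        have haf : Fact a.Prime := ⟨hap⟩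
        have : NeZero a := ⟨hap.ne_zero⟩
        have : NeZero (∏ u ∈ s, u) := ⟨by
          rw [prod_ne_zero_iff]
          intro u hu
          exact (hp u (hs' (mem_insert_of_mem hu))).1.ne_zero⟩
        rw [prod_insert ha, sum_insert ha, jacobiSym.mul_right, ihs]
        have hodd : Odd a := hap.odd_of_ne_two ha2
        have hrec : jacobiSym (p : ℤ) a = jacobiSym (a : ℤ) p :=
          jacobiSym.quadratic_reciprocity_one_mod_four (by omega) hodd
        have hne : ((a : ℤ) : ZMod p) ≠ 0 := by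
          intro h0
          rw [Int.cast_natCast, ZMod.natCast_eq_zero_iff] at h0
          have := (Nat.prime_dvd_prime_iff_eq h1 hap).1 h0
          exact hpW (this ▸ haW)
        have hval : jacobiSym (p : ℤ) a = if nr p a = 0 then 1 else -1 := by
          rw [hrec, leg]
          unfold nr
          by_cases hsq : IsSquare (a : ZMod p)
          · rw [if_pos hsq, if_pos rfl]
            exact (legendreSym.eq_one_iff p hne).2 (by rwa [Int.cast_natCast])
          · rw [if_neg hsq, if_neg (by decide)]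
            exact (legendreSym.eq_neg_one_iff p).2 (by rwa [Int.cast_natCast])
        rw [hval]
        have hz : ∀ x y : ZMod 2, (if x = 0 then (1 : ℤ) else -1) * (if y = 0 then 1 else -1) =
            if x + y = 0 then 1 else -1 := by decide
        exact hz _ _
    rw [key W Subset.rfl, if_pos hs]
    simp

end Pool.Agent.NH3.XD.HAL

namespace Pool.Agent.NH3.XD

open Finset
open Pool.Agent.Y703.CQ (nr)
open Pool.Agent.Y475.CQ (main_le zeta_le pow_small)

theorem t_XHAL : S_XHAL := by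
  refine ⟨1000, by norm_num, fun W T hW hp hT => ?_⟩
  set M := ∏ u ∈ W, u with hM
  have lT : 0 < Real.log T := Real.log_pos (by exact_mod_cast (by omega : 1 < T))
  obtain ⟨σ, hσd⟩ : ∃ σ : ℝ, σ = 1 + 1 / Real.log T := ⟨_, rfl⟩
  have hσ : 1 < σ := by
    rw [hσd]
    have : 0 < 1 / Real.log T := by positivity
    linarith
  obtain ⟨P, hPd⟩ : ∃ P : Finset ℕ, P = (range (T + 1)).filter
    (fun p => p.Prime ∧ p % 4 = 1 ∧ p ∉ W ∧ ∑ u ∈ W, nr p u = 0) := ⟨_, rfl⟩
  have hP : ∀ p ∈ P, p.Prime ∧ p % 4 = 1 ∧ p ∉ W ∧ ∑ u ∈ W, nr p u = 0 := by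
    intro p hp'
    rw [hPd, mem_filter] at hp'
    exact hp'.2
  have hmain := main_le (HAL.dd M) (univ : Finset (Fin 2)) (fun i _ n => HAL.dd_val M i n) σ hσ P
    (fun p h => (hP p h).1) (fun i _ p h => HAL.dd_one W hp p (hP p h).1 (hP p h).2.1
      (hP p h).2.2.1 (hP p h).2.2.2 i)
  -- the product of the values
  have hM1 : 0 < Real.log (M : ℝ) := by
    obtain ⟨v, hv⟩ := hW
    have h1 : v ∣ M := dvd_prod_of_mem (fun u => u) hv
    have h2 : 0 < M := by
      rw [hM]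
      exact prod_pos fun u hu => (hp u hu).1.pos
    have h3 : 2 ≤ M := (hp v hv).1.two_le.trans (Nat.le_of_dvd h2 h1)
    exact Real.log_pos (by exact_mod_cast (by omega : 1 < M))
  have hlog2 := Real.log_two_gt_d9
  have lT2 : Real.log 2 ≤ Real.log T := Real.log_le_log (by norm_num) (by exact_mod_cast hT)
  have hprod : ∏ V ∈ (univ : Finset (Fin 2)).powerset,
      ∑' n : ℕ, (∏ i ∈ V, HAL.dd M i) n * (n : ℝ) ^ (-σ) ≤
      3 * Real.log T * 10 ^ 3 * (Real.log (M : ℝ)) ^ 2 := by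
    have h1 : ∏ V ∈ (univ : Finset (Fin 2)).powerset,
        ∑' n : ℕ, (∏ i ∈ V, HAL.dd M i) n * (n : ℝ) ^ (-σ) ≤
        ∏ V ∈ (univ : Finset (Fin 2)).powerset, (if V = ∅ then 3 * Real.log T else
          if (1 : Fin 2) ∈ V then 10 * Real.log (M : ℝ) else 10) := by
      refine prod_le_prod (fun V hV => hmain.2 V hV) fun V _ => ?_
      by_cases hVe : V = ∅
      · rw [if_pos hVe, hVe]
        have e : ∑' n : ℕ, (∏ i ∈ (∅ : Finset (Fin 2)), HAL.dd M i) n * (n : ℝ) ^ (-σ) =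
            ∑' n : ℕ, (1 : ℝ) * (n : ℝ) ^ (-σ) := by
          refine tsum_congr fun n => ?_
          rw [prod_empty]
          rfl
        rw [e]
        refine (zeta_le σ hσ).trans ?_
        have e2 : 1 / (σ - 1) = Real.log T := by
          rw [hσd]
          field_simp
          ring
        rw [e2]
        linarith
      · rw [if_neg hVe]
        exact HAL.L_le W hW hp V (nonempty_iff_ne_empty.2 hVe) σ hσ
    refine h1.trans (le_of_eq ?_)
    rw [prod_ite, prod_ite, prod_const, prod_const, prod_const]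
    have c1 : (filter (fun V : Finset (Fin 2) => V = ∅) univ.powerset).card = 1 := by decide
    have c2 : (filter (fun V : Finset (Fin 2) => (1 : Fin 2) ∈ V)
      (filter (fun V : Finset (Fin 2) => ¬ V = ∅) univ.powerset)).card = 2 := by decide
    have c3 : (filter (fun V : Finset (Fin 2) => (1 : Fin 2) ∉ V)
      (filter (fun V : Finset (Fin 2) => ¬ V = ∅) univ.powerset)).card = 1 := by decide
    rw [c1, c2, c3]
    ring
  have hbig := hmain.1.trans hprod
  have hc : 2 ^ (univ : Finset (Fin 2)).card = 4 := by decide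
  rw [hc] at hbig
  -- the sum
  have hx : ∀ p ∈ P, 0 < (p : ℝ) ^ (-σ) ∧ (p : ℝ) ^ (-σ) < 1 := fun p h =>
    pow_small p (hP p h).1.two_le σ hσ
  have hsum : ∑ S ∈ HD W T, (1 : ℝ) / ((∏ p ∈ S, p : ℕ) : ℝ) ≤
      3 * ∏ p ∈ P, (1 - (p : ℝ) ^ (-σ))⁻¹ := by
    have s1 : ∑ S ∈ HD W T, (1 : ℝ) / ((∏ p ∈ S, p : ℕ) : ℝ) ≤
        ∑ S ∈ P.powerset, 3 * ∏ p ∈ S, (p : ℝ) ^ (-σ) := by
      have hsub : HD W T ⊆ P.powerset := by
        intro S hS
        unfold HD at hS
        rw [mem_filter, mem_powerset] at hS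
        rw [mem_powerset]
        intro p hpS
        rw [hPd, mem_filter]
        exact ⟨hS.1 hpS, hS.2.1 p hpS⟩
      refine le_trans (sum_le_sum fun S hS => ?_) (sum_le_sum_of_subset_of_nonneg hsub
        fun S hS _ => ?_)
      · have hSP := hsub hS
        rw [mem_powerset] at hSP
        unfold HD at hS
        rw [mem_filter] at hS
        have hle := hS.2.2
        have hpos : 0 < ∏ p ∈ S, p := prod_pos fun p h => (hP p (hSP h)).1.pos
        have e : ∏ p ∈ S, (p : ℝ) ^ (-σ) = ((∏ p ∈ S, p : ℕ) : ℝ) ^ (-σ) := by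
          rw [Nat.cast_prod, Real.finsetProd_rpow]
          intro p _
          exact Nat.cast_nonneg p
        rw [e]
        generalize ∏ p ∈ S, p = N at hle hpos ⊢
        have hN : (0 : ℝ) < (N : ℝ) := by exact_mod_cast hpos
        have hNT : (N : ℝ) ≤ (T : ℝ) := by exact_mod_cast hle
        have hN1 : (1 : ℝ) ≤ (N : ℝ) := by exact_mod_cast hpos
        have h2 : (N : ℝ) ^ (σ - 1) ≤ 3 := by
          have a1 : (N : ℝ) ^ (σ - 1) = Real.exp (Real.log N * (σ - 1)) :=
            Real.rpow_def_of_pos hN _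
          have a2 : Real.log N * (σ - 1) ≤ 1 := by
            have a3 : σ - 1 = 1 / Real.log T := by rw [hσd]; ring
            rw [a3, mul_one_div, div_le_one lT]
            exact Real.log_le_log hN hNT
          rw [a1]
          exact (Real.exp_le_exp.2 a2).trans (Real.exp_one_lt_d9.le.trans (by norm_num))
        have h3 : (N : ℝ) ^ (σ - 1) * (N : ℝ) ^ (-σ) = 1 / N := by
          rw [← Real.rpow_add hN]
          have : σ - 1 + -σ = -1 := by ring
          rw [this, Real.rpow_neg_one, one_div]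
        rw [← h3]
        exact mul_le_mul_of_nonneg_right h2 (Real.rpow_nonneg hN.le _)
      · refine mul_nonneg (by norm_num) (prod_nonneg fun p _ => Real.rpow_nonneg (Nat.cast_nonneg _) _)
    refine s1.trans ?_
    rw [← mul_sum, ← prod_one_add]
    refine mul_le_mul_of_nonneg_left (prod_le_prod (fun p h => ?_) fun p h => ?_) (by norm_num)
    · have := (hx p h).1
      positivity
    · obtain ⟨a1, a2⟩ := hx p h
      rw [← one_div, le_div_iff₀ (by linarith)]
      nlinarith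
  generalize ∏ p ∈ P, (1 - (p : ℝ) ^ (-σ))⁻¹ = Q at hbig hsum
  have hH0 : 0 ≤ ∑ S ∈ HD W T, (1 : ℝ) / ((∏ p ∈ S, p : ℕ) : ℝ) :=
    sum_nonneg fun S _ => by positivity
  generalize ∑ S ∈ HD W T, (1 : ℝ) / ((∏ p ∈ S, p : ℕ) : ℝ) = H at hsum hH0 ⊢
  generalize Real.log (M : ℝ) = Y at hbig hM1 ⊢
  apply le_of_pow_le_pow_left₀ (n := 4) (by norm_num) (by positivity)
  have e1 : (1000 * Y ^ (1 / 2 : ℝ) * Real.log T ^ (1 / 4 : ℝ)) ^ 4 =
      1000 ^ 4 * Y ^ 2 * Real.log T := by
    rw [mul_pow, mul_pow, ← Real.rpow_natCast (Y ^ (1 / 2 : ℝ)), ← Real.rpow_mul hM1.le,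
      ← Real.rpow_natCast (Real.log T ^ (1 / 4 : ℝ)), ← Real.rpow_mul lT.le]
    have e2 : Y ^ ((1 / 2 : ℝ) * ((4 : ℕ) : ℝ)) = Y ^ 2 := by
      rw [← Real.rpow_natCast Y 2]
      norm_num
    rw [e2]
    norm_num
  rw [e1]
  calc H ^ 4 ≤ (3 * Q) ^ 4 := pow_le_pow_left₀ hH0 hsum 4
    _ = 3 ^ 4 * Q ^ 4 := by ring
    _ ≤ 3 ^ 4 * (3 * Real.log T * 10 ^ 3 * Y ^ 2) := by
        exact mul_le_mul_of_nonneg_left hbig (by norm_num)
    _ = (3 ^ 5 * 10 ^ 3) * (Y ^ 2 * Real.log T) := by ring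
    _ ≤ 1000 ^ 4 * (Y ^ 2 * Real.log T) := by
        apply mul_le_mul_of_nonneg_right (by norm_num) (by positivity)
    _ = 1000 ^ 4 * Y ^ 2 * Real.log T := by ring

end Pool.Agent.NH3.XD
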