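import Pool.Agent.NH3.XD.Stm

/-!
XD-4 (helper51): the number of the isotropic tuples of an alternating form over `𝔽₂`.
-/

set_option autoImplicit false

open scoped Classical

namespace Pool.Agent.NH3.XD

open Finset

namespace ISO

/-- the nontrivial character of `𝔽₂` -/
noncomputable def ch (x : ZMod 2) : ℝ := if x = 0 then 1 else -1

theorem ch_zero : ch 0 = 1 := by simp [ch]

theorem ch_one : ch 1 = -1 := by simp [ch]

theorem cases2 (x : ZMod 2) : x = 0 ∨ x = 1 := by
  revert x
  decide

theorem ch_add (x y : ZMod 2) : ch (x + y) = ch x * ch y := by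
  rcases cases2 x with rfl | rfl <;> rcases cases2 y with rfl | rfl
  · simp [ch]
  · simp [ch]
  · simp [ch]
  · have : (1 + 1 : ZMod 2) = 0 := by decide
    rw [this]
    simp [ch]

theorem ch_sum {ι : Type} (s : Finset ι) (f : ι → ZMod 2) :
    ch (∑ i ∈ s, f i) = ∏ i ∈ s, ch (f i) := by
  induction s using Finset.induction_on with
  | empty => simp [ch_zero]
  | insert a s ha ih => rw [sum_insert ha, prod_insert ha, ch_add, ih]

theorem one_sum (x : ZMod 2) : ∑ c : ZMod 2, ch (c * x) = if x = 0 then 2 else 0 := by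
  have h : ∑ c : ZMod 2, ch (c * x) = ch (0 * x) + ch (1 * x) := Fin.sum_univ_two _
  rw [h]
  rcases cases2 x with rfl | rfl
  · simp [ch]
    norm_num
  · simp [ch]

variable {V : Type} [AddCommGroup V] [Module (ZMod 2) V] [Fintype V]

theorem lin_sum (f : V →ₗ[ZMod 2] ZMod 2) :
    ∑ v, ch (f v) = if f = 0 then (Fintype.card V : ℝ) else 0 := by
  split_ifs with h
  · subst h
    simp [ch_zero]
  · have : ∃ w, f w ≠ 0 := by
      by_contra hc
      push Not at hc
      exact h (LinearMap.ext hc)
    obtain ⟨w, hw⟩ := this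
    have hw1 : f w = 1 := (cases2 _).resolve_left hw
    have h1 : ∑ v, ch (f v) = ∑ v, ch (f (v + w)) :=
      (Equiv.sum_comp (Equiv.addRight w) fun v => ch (f v)).symm
    have h2 : ∑ v, ch (f (v + w)) = - ∑ v, ch (f v) := by
      rw [← sum_neg_distrib]
      refine sum_congr rfl fun v _ => ?_
      rw [map_add, ch_add, hw1, ch_one]
      ring
    linarith

variable (ω : V →ₗ[ZMod 2] V →ₗ[ZMod 2] ZMod 2)

theorem key (k : ℕ) (z : Fin k → V) :
    (2:ℝ) ^ k * ((univ.filter fun v : V => ∀ s, ω (z s) v = 0).card : ℝ) =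
      (Fintype.card V : ℝ) *
        ((univ.filter fun c : Fin k → ZMod 2 => ω (∑ s, c s • z s) = 0).card : ℝ) := by
  have h1 : ∀ v : V, (if ∀ s, ω (z s) v = 0 then (2:ℝ) ^ k else 0) =
      ∑ c : Fin k → ZMod 2, ch (ω (∑ s, c s • z s) v) := by
    intro v
    have h2 : ∀ c : Fin k → ZMod 2, ch (ω (∑ s, c s • z s) v) = ∏ s, ch (c s * ω (z s) v) := by
      intro c
      rw [← ch_sum]
      congr 1
      rw [map_sum, LinearMap.sum_apply]
      refine sum_congr rfl fun s _ => ?_
      rw [map_smul, LinearMap.smul_apply, smul_eq_mul]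
    simp_rw [h2]
    have h3 := Finset.prod_univ_sum (fun _ : Fin k => (univ : Finset (ZMod 2)))
      (fun s c => ch (c * ω (z s) v))
    rw [Fintype.piFinset_univ] at h3
    rw [← h3]
    simp_rw [one_sum]
    split_ifs with h
    · simp [h]
    · push Not at h
      obtain ⟨s, hs⟩ := h
      exact (prod_eq_zero (mem_univ s) (by simp [hs])).symm
  calc (2:ℝ) ^ k * ((univ.filter fun v : V => ∀ s, ω (z s) v = 0).card : ℝ)
      = ∑ v : V, (if ∀ s, ω (z s) v = 0 then (2:ℝ) ^ k else 0) := by
        rw [sum_ite, sum_const_zero, add_zero, sum_const, nsmul_eq_mul, mul_comm]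
    _ = ∑ c : Fin k → ZMod 2, ∑ v : V, ch (ω (∑ s, c s • z s) v) := by
        simp_rw [h1]
        exact sum_comm
    _ = ∑ c : Fin k → ZMod 2, (if ω (∑ s, c s • z s) = 0 then (Fintype.card V : ℝ) else 0) := by
        simp_rw [lin_sum]
    _ = _ := by
        rw [sum_ite, sum_const_zero, add_zero, sum_const, nsmul_eq_mul, mul_comm]

/-- the isotropic tuples -/
noncomputable def Is (k : ℕ) : Finset (Fin k → V) :=
  univ.filter fun z : Fin k → V => ∀ s t, ω (z s) (z t) = 0

theorem step (h1 : ∀ v, ω v v = 0) (h2 : ∀ v w, ω v w = ω w v) (k : ℕ) :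
    (Is ω (k+1)).card = ∑ z ∈ Is ω k, (univ.filter fun v : V => ∀ s, ω (z s) v = 0).card := by
  rw [← card_sigma]
  refine card_bij' (fun z _ => (⟨Fin.tail z, z 0⟩ : Σ _ : Fin k → V, V))
    (fun x _ => Fin.cons x.2 x.1) ?_ ?_ ?_ ?_
  · intro z hz
    simp only [Is, mem_filter, mem_univ, true_and, mem_sigma] at hz ⊢
    exact ⟨fun s t => hz s.succ t.succ, fun s => hz s.succ 0⟩
  · rintro ⟨z, v⟩ hz
    simp only [Is, mem_filter, mem_univ, true_and, mem_sigma] at hz ⊢
    obtain ⟨g1, g2⟩ := hz
    intro s t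
    refine Fin.cases ?_ (fun s => ?_) s <;> refine Fin.cases ?_ (fun t => ?_) t
    · simp [h1]
    · simp only [Fin.cons_zero, Fin.cons_succ]
      rw [h2]
      exact g2 t
    · simp only [Fin.cons_zero, Fin.cons_succ]
      exact g2 s
    · simp only [Fin.cons_succ]
      exact g1 s t
  · intro z _
    exact Fin.cons_self_tail z
  · rintro ⟨z, v⟩ _
    simp

theorem bad (k : ℕ) (c : Fin k → ZMod 2) (hc : c ≠ 0) :
    (univ.filter fun z : Fin k → V => ω (∑ s, c s • z s) = 0).card * Fintype.card V ≤
      (univ.filter fun v : V => ∀ w, ω v w = 0).card * Fintype.card V ^ k := by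
  obtain ⟨s0, hs0⟩ : ∃ s, c s ≠ 0 := by
    by_contra h
    push Not at h
    exact hc (funext h)
  have hs1 : c s0 = 1 := (cases2 _).resolve_left hs0
  have e1 : Fintype.card V ^ k = (univ : Finset (Fin k → V)).card := by
    rw [card_univ, Fintype.card_fun, Fintype.card_fin]
  have e2 : Fintype.card V = (univ : Finset V).card := rfl
  rw [e1]
  nth_rw 1 [e2]
  rw [← card_product, ← card_product]
  refine card_le_card_of_injOn (fun x => (∑ s, c s • x.1 s, Function.update x.1 s0 x.2)) ?_ ?_
  · rintro ⟨z, v⟩ hz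
    simp only [coe_product, Set.mem_prod, mem_coe, mem_filter, mem_univ, true_and, and_true] at hz ⊢
    intro w
    rw [hz]
    rfl
  · rintro ⟨z, v⟩ _ ⟨z', v'⟩ _ h
    simp only [Prod.mk.injEq] at h
    obtain ⟨h1, h2⟩ := h
    have h3 : v = v' := by
      have := congrFun h2 s0
      simpa using this
    have h4 : ∀ s, s ≠ s0 → z s = z' s := by
      intro s hs
      have := congrFun h2 s
      simpa [Function.update_of_ne hs] using this
    have h5 : z s0 = z' s0 := by
      rw [← add_sum_erase _ _ (mem_univ s0), ← add_sum_erase _ _ (mem_univ s0), hs1, one_smul,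
        one_smul, sum_congr rfl fun s hs => by rw [h4 s (ne_of_mem_erase hs)]] at h1
      exact add_right_cancel h1
    have h6 : z = z' := by
      funext s
      by_cases hs : s = s0
      · rw [hs, h5]
      · exact h4 s hs
    rw [h3, h6]

end ISO

open ISO in
theorem t_ISO : S_ISO := by
  intro k
  refine ⟨k + 1, by positivity, ?_⟩
  intro V _ _ _ ω hv hs
  have hq : (0:ℝ) < Fintype.card V := by
    have : Nonempty V := ⟨0⟩
    exact_mod_cast Fintype.card_pos
  set q : ℝ := (Fintype.card V : ℝ) with hqd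
  set rad : ℝ := ((univ.filter fun v : V => ∀ w, ω v w = 0).card : ℝ) with hrad
  have hr0 : 0 ≤ rad := by positivity
  have hρ : 0 ≤ rad / q := by positivity
  have main : ∀ k : ℕ, q ^ k / 2 ^ (k * (k - 1) / 2) ≤ ((Is ω k).card : ℝ) ∧
      ((Is ω k).card : ℝ) ≤ q ^ k / 2 ^ (k * (k - 1) / 2) + k * q ^ k * (rad / q) := by
    intro k
    induction k with
    | zero => simp [Is]
    | succ k ih =>
      obtain ⟨i1, i2⟩ := ih
      have ed : (k + 1) * (k + 1 - 1) / 2 = k * (k - 1) / 2 + k := by
        rcases k with _ | k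
        · rfl
        · have : (k + 1 + 1) * (k + 1 + 1 - 1) = (k + 1) * (k + 1 - 1) + (k + 1) * 2 := by
            simp only [Nat.add_sub_cancel]
            ring
          rw [this, Nat.add_mul_div_right _ _ (by norm_num)]
      have e1 : (2:ℝ) ^ k * ((Is ω (k+1)).card : ℝ) = ∑ z ∈ Is ω k, q *
          ((univ.filter fun c : Fin k → ZMod 2 => ω (∑ s, c s • z s) = 0).card : ℝ) := by
        rw [step ω hv hs, Nat.cast_sum, mul_sum]
        exact sum_congr rfl fun z _ => key ω k z
      have low : q * ((Is ω k).card : ℝ) ≤ (2:ℝ) ^ k * ((Is ω (k+1)).card : ℝ) := by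
        rw [e1, ← mul_sum]
        refine mul_le_mul_of_nonneg_left ?_ hq.le
        rw [← Nat.cast_sum]
        norm_cast
        rw [card_eq_sum_ones]
        refine sum_le_sum fun z _ => ?_
        rw [Nat.one_le_iff_ne_zero, ← Nat.pos_iff_ne_zero, card_pos]
        exact ⟨0, by simp⟩
      have e2 : ∀ z : Fin k → V,
          ((univ.filter fun c : Fin k → ZMod 2 => ω (∑ s, c s • z s) = 0).card : ℝ) =
          1 + ∑ c ∈ (univ : Finset (Fin k → ZMod 2)).erase 0,
            (if ω (∑ s, c s • z s) = 0 then (1:ℝ) else 0) := by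
        intro z
        rw [← Finset.sum_boole, ← add_sum_erase _ _ (mem_univ (0 : Fin k → ZMod 2))]
        congr 1
        simp
      have up : (2:ℝ) ^ k * ((Is ω (k+1)).card : ℝ) ≤ q * ((Is ω k).card : ℝ) +
          q * (2 ^ k * (q ^ k * (rad / q))) := by
        rw [e1, ← mul_sum, ← mul_add]
        refine mul_le_mul_of_nonneg_left ?_ hq.le
        simp_rw [e2]
        rw [sum_add_distrib, sum_const, nsmul_eq_mul, mul_one, sum_comm]
        refine add_le_add le_rfl ?_
        calc ∑ c ∈ (univ : Finset (Fin k → ZMod 2)).erase 0, ∑ z ∈ Is ω k,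
              (if ω (∑ s, c s • z s) = 0 then (1:ℝ) else 0)
            ≤ ∑ c ∈ (univ : Finset (Fin k → ZMod 2)).erase 0, (q ^ k * (rad / q)) := by
              refine sum_le_sum fun c hc => ?_
              calc ∑ z ∈ Is ω k, (if ω (∑ s, c s • z s) = 0 then (1:ℝ) else 0)
                  ≤ ∑ z : Fin k → V, (if ω (∑ s, c s • z s) = 0 then (1:ℝ) else 0) :=
                    sum_le_sum_of_subset_of_nonneg (subset_univ _) fun z _ _ => by positivity
                _ = ((univ.filter fun z : Fin k → V => ω (∑ s, c s • z s) = 0).card : ℝ) :=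
                    Finset.sum_boole _ _
                _ ≤ q ^ k * (rad / q) := by
                    rw [← mul_div_assoc, le_div_iff₀ hq, mul_comm (q ^ k)]
                    have := bad ω k c (ne_of_mem_erase hc)
                    rw [hrad, hqd]
                    exact_mod_cast this
          _ ≤ ∑ c : Fin k → ZMod 2, (q ^ k * (rad / q)) :=
              sum_le_sum_of_subset_of_nonneg (subset_univ _) fun z _ _ => by positivity
          _ = 2 ^ k * (q ^ k * (rad / q)) := by
              rw [sum_const, nsmul_eq_mul, card_univ, Fintype.card_fun, Fintype.card_fin, ZMod.card]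
              push_cast
              rfl
      have p2 : (0:ℝ) < 2 ^ k := by positivity
      have hD : (2:ℝ) ^ (k * (k - 1) / 2 + k) = 2 ^ (k * (k - 1) / 2) * 2 ^ k := pow_add _ _ _
      rw [ed, hD]
      have D0 : (0:ℝ) < 2 ^ (k * (k - 1) / 2) := by positivity
      generalize (2:ℝ) ^ (k * (k - 1) / 2) = D at i1 i2 D0 hD ⊢
      have h8 : (2:ℝ) ^ k * (q ^ (k+1) / (D * 2 ^ k)) = q * (q ^ k / D) := by
        field_simp
        rw [pow_succ, mul_comm]
      constructor
      · have h3 : q * (q ^ k / D) ≤ (2:ℝ) ^ k * ((Is ω (k+1)).card : ℝ) :=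
          (mul_le_mul_of_nonneg_left i1 hq.le).trans low
        rw [← h8] at h3
        exact le_of_mul_le_mul_left h3 p2
      · have h4 : (2:ℝ) ^ k * ((Is ω (k+1)).card : ℝ) ≤
            q * (q ^ k / D + k * q ^ k * (rad / q)) +
              q * (2 ^ k * (q ^ k * (rad / q))) :=
          up.trans (add_le_add (mul_le_mul_of_nonneg_left i2 hq.le) le_rfl)
        have h5 : (1:ℝ) ≤ 2 ^ k := one_le_pow₀ (by norm_num)
        have h6 : (0:ℝ) ≤ k * q ^ (k+1) * (rad / q) := by positivity
        have h7 : q * (q ^ k / D + k * q ^ k * (rad / q)) +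
              q * (2 ^ k * (q ^ k * (rad / q))) ≤ 2 ^ k * (q ^ (k+1) / (D * 2 ^ k) +
                ((k+1 : ℕ) : ℝ) * q ^ (k+1) * (rad / q)) := by
          have h9 := mul_le_mul_of_nonneg_right h5 h6
          have h10 : (2:ℝ) ^ k * (q ^ (k+1) / (D * 2 ^ k) +
                ((k+1 : ℕ) : ℝ) * q ^ (k+1) * (rad / q)) = q * (q ^ k / D) +
                2 ^ k * (k * q ^ (k+1) * (rad / q)) + q * (2 ^ k * (q ^ k * (rad / q))) := by
            rw [mul_add, h8]
            push_cast
            ring
          rw [h10]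
          have h11 : q * (q ^ k / D + k * q ^ k * (rad / q)) =
              q * (q ^ k / D) + k * q ^ (k+1) * (rad / q) := by ring
          rw [h11]
          linarith
        exact le_of_mul_le_mul_left (h4.trans h7) p2
  obtain ⟨m1, m2⟩ := main k
  rw [abs_le]
  have h9 : (0:ℝ) ≤ q ^ k * (rad / q) := by positivity
  have h10 : (0:ℝ) ≤ k * q ^ k * (rad / q) := by positivity
  constructor
  · have : (0:ℝ) ≤ (k + 1) * q ^ k * (rad / q) := by positivity
    have := m1
    unfold Is at this
    linarith
  · have := m2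
    unfold Is at this
    nlinarith

end Pool.Agent.NH3.XD
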