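import Pool.Agent.NH3.XD.Stm
import Pool.Agent.Y703.CQ.Key

/-! XD-KEY of helper3 (by helper40): the sum over the boxes (after `Pool.Agent.NH5.PR.Key`). -/

set_option autoImplicit false

open scoped Classical

namespace Pool.Agent.NH3.XD.K40

open Finset
open Pool.Agent.Y703.CX (sm la jj XX)
open Pool.Agent.Y703.CQ (nr sg prs HB S_EQ)
open Pool.Agent.Y703.CQ.K302 (le_XX sm_la_card sm_la_prod card_sub TT mem_TT harm_TT root12 prs_card)
open Pool.Agent.NH5.PR (eta S_BIL S_ETA)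

/-- the code of a prime: the block and the class modulo `m` -/
noncomputable def cd (m H p : ℕ) : ℕ := m * jj H p + p % m

theorem cd_div {m : ℕ} (hm : 0 < m) (H p : ℕ) : cd m H p / m = jj H p := by
  unfold cd
  rw [Nat.mul_add_div hm, Nat.div_eq_of_lt (Nat.mod_lt _ hm), add_zero]

theorem cd_mod (m H p : ℕ) : cd m H p % m = p % m := by
  unfold cd
  rw [Nat.mul_add_mod, Nat.mod_mod]

theorem cd_m4 {m : ℕ} (h4 : 4 ∣ m) (H p : ℕ) : cd m H p % 4 = p % 4 := by
  rw [← Nat.mod_mod_of_dvd _ h4, cd_mod, Nat.mod_mod_of_dvd _ h4]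

/-- the key of a set -/
noncomputable def ky (m z H : ℕ) (S : Finset ℕ) : Finset ℕ × Finset ℕ :=
  (sm z S, (la z S).image (cd m H))

/-- the keys which occur -/
structure KP (m r X z H k R : ℕ) (S₀ J : Finset ℕ) : Prop where
  cl : ∀ q ∈ S₀, q.Prime ∧ ¬ q ∣ m
  le : ∀ q ∈ S₀, q ≤ z
  md : ((∏ p ∈ S₀, p) * ∏ i ∈ J, i) % m = r
  inj : Set.InjOn (fun i => i / m) (J : Set ℕ)
  card : S₀.card + J.card ≤ k
  prod : (∏ p ∈ S₀, p) * ∏ i ∈ J, XX H (i / m) ≤ X
  few : 2 * S₀.card + R ≤ (J.filter fun i => i % 4 = 3).card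

theorem inj_cd {m : ℕ} (hm : 0 < m) {H : ℕ} {S : Set ℕ} (h : Set.InjOn (jj H) S) :
    Set.InjOn (cd m H) S := by
  intro a ha b hb hab
  apply h ha hb
  rw [← cd_div hm H a, ← cd_div hm H b, hab]

theorem card_im {m H : ℕ} {S : Finset ℕ} (hi : Set.InjOn (cd m H) (S : Set ℕ)) (P : ℕ → Prop)
    [DecidablePred P] (hP : ∀ p, P (cd m H p) ↔ P p) :
    ((S.image (cd m H)).filter P).card = (S.filter P).card := by
  rw [Finset.filter_image, Finset.card_image_of_injOn]
  · congr 1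
    ext p
    simp only [mem_filter, hP]
  · intro a ha b hb hab
    exact hi (mem_coe.2 (mem_filter.1 (mem_coe.1 ha)).1)
      (mem_coe.2 (mem_filter.1 (mem_coe.1 hb)).1) hab

theorem prod_im {m H : ℕ} {S : Finset ℕ} (hi : Set.InjOn (cd m H) (S : Set ℕ)) :
    (∏ i ∈ S.image (cd m H), i) % m = (∏ p ∈ S, p) % m := by
  rw [Finset.prod_image hi, Finset.prod_nat_mod, Finset.prod_congr rfl fun p _ => cd_mod m H p,
    ← Finset.prod_nat_mod]

/-- the number of the factors `3` modulo `4` of an odd product -/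
theorem prod_m4 (S : Finset ℕ) : (∏ p ∈ S, p) % 2 = 1 →
    (∏ p ∈ S, p) % 4 = if (S.filter fun p => p % 4 = 3).card % 2 = 1 then 3 else 1 := by
  induction S using Finset.induction_on with
  | empty => intro _; simp
  | insert a S ha ih =>
    intro h
    rw [Finset.prod_insert ha] at h ⊢
    have h1 : a % 2 = 1 ∧ (∏ p ∈ S, p) % 2 = 1 := by
      have h2 := Nat.odd_mul.1 (Nat.odd_iff.2 h)
      exact ⟨Nat.odd_iff.1 h2.1, Nat.odd_iff.1 h2.2⟩
    have h2 := ih h1.2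
    have h3 : a % 4 = 1 ∨ a % 4 = 3 := by omega
    rcases h3 with h3 | h3
    · have e1 : ((insert a S).filter fun p => p % 4 = 3) = S.filter fun p => p % 4 = 3 := by
        rw [Finset.filter_insert, if_neg (by omega)]
      rw [e1, Nat.mul_mod, h2, h3]
      by_cases h4 : (S.filter fun p => p % 4 = 3).card % 2 = 1
      · rw [if_pos h4]
      · rw [if_neg h4]
    · have e1 : ((insert a S).filter fun p => p % 4 = 3).card =
          (S.filter fun p => p % 4 = 3).card + 1 := by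
        rw [Finset.filter_insert, if_pos h3,
          Finset.card_insert_of_notMem (fun h => ha (Finset.mem_filter.1 h).1)]
      rw [e1, Nat.mul_mod, h2, h3]
      by_cases h4 : (S.filter fun p => p % 4 = 3).card % 2 = 1
      · rw [if_pos h4, if_neg (by omega)]
      · rw [if_neg h4, if_pos (by omega)]

theorem par_of {m r : ℕ} (hok : Ok m r) {S₀ J : Finset ℕ}
    (h : ((∏ p ∈ S₀, p) * ∏ i ∈ J, i) % m = r) :
    ((S₀.filter fun u => u % 4 = 3).card + (J.filter fun i => i % 4 = 3).card) % 2 = 1 := by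
  obtain ⟨-, h4, -, -, hr⟩ := hok
  have h1 : ((∏ p ∈ S₀, p) * ∏ i ∈ J, i) % 4 = 3 := by
    rw [← Nat.mod_mod_of_dvd _ h4, h, hr]
  have h2 := Nat.odd_mul.1 (Nat.odd_iff.2 (show ((∏ p ∈ S₀, p) * ∏ i ∈ J, i) % 2 = 1 by omega))
  have h3 := prod_m4 S₀ (Nat.odd_iff.1 h2.1)
  have h5 := prod_m4 J (Nat.odd_iff.1 h2.2)
  rw [Nat.mul_mod, h3, h5] at h1
  by_cases e1 : (S₀.filter fun u => u % 4 = 3).card % 2 = 1
  · by_cases e2 : (J.filter fun i => i % 4 = 3).card % 2 = 1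
    · rw [if_pos e1, if_pos e2] at h1
      omega
    · omega
  · by_cases e2 : (J.filter fun i => i % 4 = 3).card % 2 = 1
    · omega
    · rw [if_neg e1, if_neg e2] at h1
      omega

theorem rr_iff {m r X z H k R : ℕ} (hok : Ok m r) (hH : 1 ≤ H) {S : Finset ℕ}
    (hS : ∀ q ∈ S, q.Prime ∧ ¬ q ∣ m)
    (hi : Set.InjOn (cd m H) (la z S : Set ℕ)) :
    S ∈ RR m r X z H k R ↔ KP m r X z H k R (ky m z H S).1 (ky m z H S).2 := by
  have hm := hok.1
  have h4 := hok.2.1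
  set J := (la z S).image (cd m H) with hJ
  have hky : ky m z H S = (sm z S, J) := rfl
  rw [hky]
  have f2 : J.card = (la z S).card := Finset.card_image_of_injOn hi
  have f3 : (J.filter fun i => i % 4 = 3).card = ((la z S).filter fun i => i % 4 = 3).card :=
    card_im hi _ fun p => by rw [cd_m4 h4]
  have f8 : ∏ e ∈ J, XX H (e / m) = ∏ p ∈ la z S, XX H (jj H p) := by
    rw [hJ, Finset.prod_image hi]
    simp only [cd_div hm]
  have f9 : Set.InjOn (jj H) (la z S : Set ℕ) ↔ Set.InjOn (fun i => i / m) (J : Set ℕ) := by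
    constructor
    · intro h a ha b hb hab
      rw [Finset.mem_coe, hJ, Finset.mem_image] at ha hb
      obtain ⟨p, hp, rfl⟩ := ha
      obtain ⟨q, hq, rfl⟩ := hb
      simp only [cd_div hm] at hab
      rw [h (Finset.mem_coe.2 hp) (Finset.mem_coe.2 hq) hab]
    · intro h p hp q hq hpq
      refine hi hp hq (h (Finset.mem_coe.2 (Finset.mem_image_of_mem _ (Finset.mem_coe.1 hp)))
        (Finset.mem_coe.2 (Finset.mem_image_of_mem _ (Finset.mem_coe.1 hq))) ?_)
      simp only [cd_div hm]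
      exact hpq
  have f11 : ((∏ p ∈ sm z S, p) * ∏ i ∈ J, i) % m = (∏ p ∈ S, p) % m := by
    rw [← sm_la_prod z S, Nat.mul_mod, hJ, prod_im hi, ← Nat.mul_mod]
  have hsm : sm z S ⊆ S := Finset.filter_subset _ _
  have hla : la z S ⊆ S := Finset.filter_subset _ _
  constructor
  · intro h
    unfold RR at h
    rw [Finset.mem_filter] at h
    obtain ⟨h1, h2, h3, h4, h5⟩ := h
    unfold SS at h1
    rw [Finset.mem_filter] at h1
    obtain ⟨-, ⟨h8, h9⟩, h11⟩ := h1
    refine ⟨fun q hq => h8 q (hsm hq), fun q hq => (Finset.mem_filter.1 hq).2, ?_,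
      f9.1 h2, ?_, ?_, ?_⟩
    · rw [f11]
      exact h9
    · rw [f2, sm_la_card]
      exact h3
    · rw [f8]
      exact h4
    · rw [f3]
      exact h5
  · rintro ⟨k1, k2, k4, k5, k6, k7, k8⟩
    have hprod : ∏ p ∈ S, p ≤ X := by
      rw [← sm_la_prod z S]
      refine le_trans (Nat.mul_le_mul_left _ ?_) k7
      rw [f8]
      refine Finset.prod_le_prod' fun p hp => le_XX hH (hS p (hla hp)).1.one_le
    unfold RR SS
    rw [Finset.mem_filter, Finset.mem_filter, Finset.mem_powerset]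
    refine ⟨⟨?_, ⟨hS, ?_⟩, hprod⟩, f9.2 k5, ?_, ?_, ?_⟩
    · intro q hq
      rw [Finset.mem_range]
      have h1 : q ∣ ∏ p ∈ S, p := Finset.dvd_prod_of_mem _ hq
      have h2 : 0 < ∏ p ∈ S, p := Finset.prod_pos fun p hp => (hS p hp).1.pos
      have := Nat.le_of_dvd h2 h1
      omega
    · rw [← f11]
      exact k4
    · rw [← sm_la_card z S, ← f2]
      exact k6
    · rw [← f8]
      exact k7
    · rw [← f3]
      exact k8

/-- the primes of a block -/
noncomputable def CC (m z H i : ℕ) : Finset ℕ :=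
  (Icc 1 (XX H (i / m))).filter fun p => (p.Prime ∧ ¬ p ∣ m) ∧ z < p ∧ cd m H p = i

theorem mem_CC {m : ℕ} (hm : 0 < m) {z H : ℕ} (hH : 1 ≤ H) {i p : ℕ} :
    p ∈ CC m z H i ↔ (p.Prime ∧ ¬ p ∣ m) ∧ z < p ∧ cd m H p = i := by
  unfold CC
  rw [Finset.mem_filter, Finset.mem_Icc]
  constructor
  · exact fun h => h.2
  · intro h
    refine ⟨⟨h.1.1.one_le, ?_⟩, h⟩
    have := le_XX hH h.1.1.one_le
    rw [← cd_div hm H p, h.2.2] at this
    exact this

section fill
variable {m z H : ℕ} {S₀ J : Finset ℕ} {p : J → ℕ}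

theorem sm_fill (hm : 0 < m) (hH : 1 ≤ H) (h₀ : ∀ q ∈ S₀, q ≤ z)
    (hp : ∀ i : J, p i ∈ CC m z H i) :
    sm z (S₀ ∪ univ.image p) = S₀ := by
  ext q
  unfold sm
  rw [Finset.mem_filter, Finset.mem_union, Finset.mem_image]
  constructor
  · rintro ⟨h | ⟨i, -, rfl⟩, h2⟩
    · exact h
    · have := ((mem_CC hm hH).1 (hp i)).2.1
      omega
  · exact fun h => ⟨Or.inl h, h₀ q h⟩

theorem la_fill (hm : 0 < m) (hH : 1 ≤ H) (h₀ : ∀ q ∈ S₀, q ≤ z)
    (hp : ∀ i : J, p i ∈ CC m z H i) :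
    la z (S₀ ∪ univ.image p) = univ.image p := by
  ext q
  unfold la
  rw [Finset.mem_filter, Finset.mem_union, Finset.mem_image]
  constructor
  · rintro ⟨h | h, h2⟩
    · exact absurd (h₀ q h) h2
    · exact h
  · rintro ⟨i, -, rfl⟩
    have := ((mem_CC hm hH).1 (hp i)).2.1
    exact ⟨Or.inr ⟨i, Finset.mem_univ _, rfl⟩, by omega⟩

theorem ph_fill (hm : 0 < m) (hH : 1 ≤ H) (hp : ∀ i : J, p i ∈ CC m z H i) (i : J) :
    cd m H (p i) = i :=
  ((mem_CC hm hH).1 (hp i)).2.2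

theorem im_fill (hm : 0 < m) (hH : 1 ≤ H) (hp : ∀ i : J, p i ∈ CC m z H i) :
    (univ.image p).image (cd m H) = J := by
  ext k
  rw [Finset.mem_image]
  constructor
  · rintro ⟨q, hq, rfl⟩
    rw [Finset.mem_image] at hq
    obtain ⟨i, -, rfl⟩ := hq
    rw [ph_fill hm hH hp]
    exact i.2
  · intro hk
    exact ⟨p ⟨k, hk⟩, Finset.mem_image_of_mem _ (Finset.mem_univ _), ph_fill hm hH hp ⟨k, hk⟩⟩

theorem ky_fill (hm : 0 < m) (hH : 1 ≤ H) (h₀ : ∀ q ∈ S₀, q ≤ z)
    (hp : ∀ i : J, p i ∈ CC m z H i) :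
    ky m z H (S₀ ∪ univ.image p) = (S₀, J) := by
  unfold ky
  rw [sm_fill hm hH h₀ hp, la_fill hm hH h₀ hp, im_fill hm hH hp]

theorem inj_fill (hm : 0 < m) (hH : 1 ≤ H) (h₀ : ∀ q ∈ S₀, q ≤ z)
    (hp : ∀ i : J, p i ∈ CC m z H i) :
    Set.InjOn (cd m H) (la z (S₀ ∪ univ.image p) : Set ℕ) := by
  rw [la_fill hm hH h₀ hp]
  intro a ha b hb hab
  rw [Finset.mem_coe, Finset.mem_image] at ha hb
  obtain ⟨i, -, rfl⟩ := ha
  obtain ⟨j, -, rfl⟩ := hb
  rw [ph_fill hm hH hp, ph_fill hm hH hp] at hab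
  rw [Subtype.ext hab]

end fill

theorem rr_facts {m r X z H k R : ℕ} {S : Finset ℕ} (hS : S ∈ RR m r X z H k R) :
    (∀ q ∈ S, q.Prime ∧ ¬ q ∣ m) ∧ Set.InjOn (jj H) (la z S : Set ℕ) ∧ ∏ p ∈ S, p ≤ X := by
  unfold RR SS at hS
  rw [Finset.mem_filter, Finset.mem_filter] at hS
  exact ⟨hS.1.2.1.1, hS.2.1, hS.1.2.2⟩

theorem key_bij {m r X z H k R : ℕ} (hok : Ok m r) (hH : 1 ≤ H) {S₀ J : Finset ℕ}
    (hkey : KP m r X z H k R S₀ J) (P : Finset ℕ → Prop) [DecidablePred P] [DecidableEq J] :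
    ((Fintype.piFinset fun i : J => CC m z H i).filter fun p => P (S₀ ∪ univ.image p)).card =
      ((RR m r X z H k R).filter fun S => ky m z H S = (S₀, J) ∧ P S).card := by
  have h₀ := hkey.le
  have hm := hok.1
  apply Finset.card_bij (fun (p : J → ℕ) _ => S₀ ∪ univ.image p)
  · intro p hp
    rw [Finset.mem_filter, Fintype.mem_piFinset] at hp
    obtain ⟨hp, hP⟩ := hp
    have hk := ky_fill hm hH h₀ hp
    rw [Finset.mem_filter]
    refine ⟨?_, hk, hP⟩
    rw [rr_iff hok hH _ (inj_fill hm hH h₀ hp), hk]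
    · exact hkey
    · intro q hq
      rw [Finset.mem_union, Finset.mem_image] at hq
      rcases hq with hq | ⟨i, -, rfl⟩
      · exact hkey.cl q hq
      · exact ((mem_CC hm hH).1 (hp i)).1
  · intro p hp p' hp' h
    rw [Finset.mem_filter, Fintype.mem_piFinset] at hp hp'
    have h1 := la_fill hm hH h₀ hp.1
    rw [h, la_fill hm hH h₀ hp'.1] at h1
    funext i
    have h2 : p i ∈ univ.image p' := by
      rw [h1]
      exact Finset.mem_image_of_mem _ (Finset.mem_univ _)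
    rw [Finset.mem_image] at h2
    obtain ⟨j, -, hj⟩ := h2
    have h3 := ph_fill hm hH hp.1 i
    have h4 := ph_fill hm hH hp'.1 j
    rw [hj, h3] at h4
    rw [← hj, Subtype.ext h4]
  · intro S hS
    rw [Finset.mem_filter] at hS
    obtain ⟨hSR, hSk, hSP⟩ := hS
    obtain ⟨hSO, hSI, -⟩ := rr_facts hSR
    have hk1 : sm z S = S₀ := congrArg Prod.fst hSk
    have hk2 : (la z S).image (cd m H) = J := congrArg Prod.snd hSk
    have hex : ∀ i : J, ∃ q ∈ la z S, cd m H q = i := by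
      rintro ⟨i, hi⟩
      rw [← hk2, Finset.mem_image] at hi
      exact hi
    choose p hp1 hp2 using hex
    have him : univ.image p = la z S := by
      ext q
      rw [Finset.mem_image]
      constructor
      · rintro ⟨i, -, rfl⟩
        exact hp1 i
      · intro hq
        have hjq : cd m H q ∈ J := by
          rw [← hk2]
          exact Finset.mem_image_of_mem _ hq
        exact ⟨⟨cd m H q, hjq⟩, Finset.mem_univ _, inj_cd hm hSI (Finset.mem_coe.2 (hp1 _))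
          (Finset.mem_coe.2 hq) (hp2 ⟨cd m H q, hjq⟩)⟩
    have hSe : S₀ ∪ univ.image p = S := by
      rw [him, ← hk1]
      unfold sm la
      exact Finset.filter_union_filter_not_eq _ _
    refine ⟨p, ?_, hSe⟩
    rw [Finset.mem_filter, Fintype.mem_piFinset, hSe]
    refine ⟨fun i => (mem_CC hm hH).2 ⟨hSO _ (Finset.mem_filter.1 (hp1 i)).1,
      not_le.1 (Finset.mem_filter.1 (hp1 i)).2, hp2 i⟩, hSP⟩

theorem CC_facts {m : ℕ} (hm : 0 < m) {z H : ℕ} (hH : 1 ≤ H) {i p : ℕ} (hp : p ∈ CC m z H i) :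
    (p.Prime ∧ ¬ p ∣ m) ∧ z < p ∧ p ≤ XX H (i / m) ∧ cd m H p = i := by
  obtain ⟨h1, h2, h3⟩ := (mem_CC hm hH).1 hp
  refine ⟨h1, h2, ?_, h3⟩
  unfold CC at hp
  exact (Finset.mem_Icc.1 (Finset.mem_filter.1 hp).1).2

theorem CC_disj {m : ℕ} (hm : 0 < m) {z H : ℕ} (hH : 1 ≤ H) {J : Finset ℕ} (i l : J)
    (hil : i ≠ l) : Disjoint (CC m z H i) (CC m z H l) := by
  rw [Finset.disjoint_left]
  intro p hp hp'
  have h5 := ((mem_CC hm hH).1 hp).2.2
  have h6 := ((mem_CC hm hH).1 hp').2.2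
  exact hil (Subtype.ext (h5.symm.trans h6))

theorem ne_of_cl {m : ℕ} (h4 : 4 ∣ m) {q : ℕ} (h : q.Prime ∧ ¬ q ∣ m) : q ≠ 2 := by
  rintro rfl
  exact h.2 (dvd_trans (by norm_num) h4)

theorem hb_box {C₁ : ℝ}
    (h1 : ∀ (P Q : Finset ℕ) (A B z s t : ℕ) (c d : ℕ → ℂ),
      (∀ p ∈ P, p.Prime ∧ p ≠ 2 ∧ p % 4 = s ∧ p ≤ A) →
      (∀ q ∈ Q, q.Prime ∧ q ≠ 2 ∧ q % 4 = t ∧ q ≤ B) →
      Disjoint P Q → 1 ≤ z → z ≤ A → z ≤ B → (∀ p, ‖c p‖ ≤ 1) → (∀ q, ‖d q‖ ≤ 1) →
      ‖∑ p ∈ P, ∑ q ∈ Q, c p * d q * sg (nr p q)‖ ^ 12 * z ≤ C₁ * ((A : ℝ) * B) ^ 12)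
    {m : ℕ} (hm : 0 < m) (h4 : 4 ∣ m)
    {z H : ℕ} (hH : 1 ≤ H) (hz : 1 ≤ z) {κ : ℝ} (hκ : 0 ≤ κ) (hκ1 : C₁ ≤ κ ^ 12 * z)
    {J : Finset ℕ} :
    HB (univ : Finset J) (fun i : J => CC m z H i) (fun i => XX H ((i : ℕ) / m)) κ := by
  intro i l hil hi c d hc hd
  show ‖∑ x ∈ CC m z H i, ∑ y ∈ CC m z H l, c x * d y * sg (nr x y)‖ ≤
    κ * ((XX H ((i : ℕ) / m) : ℝ) * (XX H ((l : ℕ) / m) : ℝ))
  have hz0 : (0 : ℝ) < z := by exact_mod_cast hz
  have hk0 : (0 : ℝ) ≤ κ * ((XX H ((i : ℕ) / m) : ℝ) * (XX H ((l : ℕ) / m) : ℝ)) := by positivity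
  rcases (CC m z H i).eq_empty_or_nonempty with he | ⟨p₀, hp₀⟩
  · rw [he, Finset.sum_empty, norm_zero]
    exact hk0
  rcases (CC m z H l).eq_empty_or_nonempty with he | ⟨q₀, hq₀⟩
  · rw [he]
    simp only [Finset.sum_empty, Finset.sum_const_zero, norm_zero]
    exact hk0
  have hzi : z ≤ XX H ((i : ℕ) / m) := by
    have := CC_facts hm hH hp₀
    omega
  have hzl : z ≤ XX H ((l : ℕ) / m) := by
    have := CC_facts hm hH hq₀
    omega
  have hm4 : ∀ (j : J), ∀ p ∈ CC m z H j, p.Prime ∧ p ≠ 2 ∧ p % 4 = (j : ℕ) % 4 ∧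
      p ≤ XX H ((j : ℕ) / m) := by
    intro j p hp
    obtain ⟨h3, -, h4', h5⟩ := CC_facts hm hH hp
    refine ⟨h3.1, ne_of_cl h4 h3, ?_, h4'⟩
    rw [← cd_m4 h4 H p, h5]
  have h3 := h1 (CC m z H i) (CC m z H l) (XX H ((i : ℕ) / m)) (XX H ((l : ℕ) / m)) z
    ((i : ℕ) % 4) ((l : ℕ) % 4) c d (hm4 i) (hm4 l) (CC_disj hm hH i l hil) hz hzi hzl hc hd
  exact root12 (norm_nonneg _) hκ (Nat.cast_nonneg _) (Nat.cast_nonneg _) hz0 h3 hκ1

/-- the conclusion of `S_XBOX` -/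
def BoxP (ε : ℝ) (R : ℕ) : Prop :=
  ∀ (ι : Type) [Fintype ι] [LinearOrder ι] (J3 : Finset ι) (C : ι → Finset ℕ) (X : ι → ℕ) (κ : ℝ)
  (S₀ : Finset ℕ), 0 ≤ κ → (∀ i, (C i).card ≤ X i) → HB (univ : Finset ι) C X κ →
  (∀ u ∈ S₀, u.Prime ∧ u ≠ 2) →
  (∀ i, ∀ p ∈ C i, p.Prime ∧ p ≠ 2 ∧ p ∉ S₀ ∧ (i ∈ J3 ↔ p % 4 = 3)) →
  (∀ i l, i ≠ l → Disjoint (C i) (C l)) →
  ((S₀.filter fun u => u % 4 = 3).card + J3.card) % 2 = 1 →
  2 * S₀.card + R ≤ J3.card →
  |(((Fintype.piFinset C).filter fun p => Nd S₀ (univ.image p) ∧ Gd (S₀ ∪ univ.image p)).card : ℝ) -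
      eta * (((Fintype.piFinset C).filter fun p => Nd S₀ (univ.image p)).card : ℝ)| ≤
    ε * (((Fintype.piFinset C).filter fun p => Nd S₀ (univ.image p)).card : ℝ) +
    2 ^ ((2 * S₀.card + 1) * Fintype.card ι + (prs (univ : Finset ι)).card) *
      (κ * ∏ j, (X j : ℝ))

theorem box_dec {ε : ℝ} {R : ℕ} (hBOX : BoxP ε R) (ι : Type) [Fintype ι]
    [inst : DecidableEq ι] (lo : LinearOrder ι) (J3 : Finset ι) (C : ι → Finset ℕ) (X : ι → ℕ)
    (κ : ℝ) (S₀ : Finset ℕ) (h1 : 0 ≤ κ) (h2 : ∀ i, (C i).card ≤ X i)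
    (h3 : HB (univ : Finset ι) C X κ) (h4 : ∀ u ∈ S₀, u.Prime ∧ u ≠ 2)
    (h5 : ∀ i, ∀ p ∈ C i, p.Prime ∧ p ≠ 2 ∧ p ∉ S₀ ∧ (i ∈ J3 ↔ p % 4 = 3))
    (h6 : ∀ i l, i ≠ l → Disjoint (C i) (C l))
    (h7 : ((S₀.filter fun u => u % 4 = 3).card + J3.card) % 2 = 1)
    (h8 : 2 * S₀.card + R ≤ J3.card) :
    |(((Fintype.piFinset C).filter fun p =>
        Nd S₀ (univ.image p) ∧ Gd (S₀ ∪ univ.image p)).card : ℝ) -
      eta * (((Fintype.piFinset C).filter fun p => Nd S₀ (univ.image p)).card : ℝ)| ≤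
    ε * (((Fintype.piFinset C).filter fun p => Nd S₀ (univ.image p)).card : ℝ) +
    2 ^ ((2 * S₀.card + 1) * Fintype.card ι + (prs (univ : Finset ι)).card) *
      (κ * ∏ j, (X j : ℝ)) := by
  have h := hBOX ι J3 C X κ S₀ h1 h2 h3 h4 h5 h6 h7 h8
  have e : inst = fun a b => lo.toDecidableEq a b := Subsingleton.elim _ _
  subst e
  exact h

theorem sub_card (J : Finset ℕ) (P : ℕ → Prop) [DecidablePred P] :
    ((univ : Finset J).filter fun e : J => P e).card = (J.filter P).card := by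
  have h : J.filter P = ((univ : Finset J).filter fun e : J => P e).map
      (Function.Embedding.subtype _) := by
    ext x
    simp only [mem_filter, mem_map, mem_univ, true_and, Function.Embedding.coe_subtype,
      Subtype.exists, exists_and_right, exists_eq_right]
    constructor
    · rintro ⟨h1, h2⟩
      exact ⟨h1, h2⟩
    · rintro ⟨h1, h2⟩
      exact ⟨h1, h2⟩
  rw [h, card_map]

theorem per_key {ε : ℝ} {R : ℕ} (hε : 0 ≤ ε) (hBOX : BoxP ε R)
    {m r X z H k : ℕ} (hok : Ok m r) (hH : 1 ≤ H) {κ : ℝ} (hκ : 0 ≤ κ) {S₀ J : Finset ℕ}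
    (hk : KP m r X z H k R S₀ J)
    (hHB : HB (univ : Finset J) (fun i : J => CC m z H i)
      (fun i => XX H ((i : ℕ) / m)) κ) :
    |(((RR m r X z H k R).filter fun S => ky m z H S = (S₀, J) ∧
        (Nd (sm z S) (la z S) ∧ Gd S)).card : ℝ) -
      eta * (((RR m r X z H k R).filter fun S => ky m z H S = (S₀, J) ∧
        Nd (sm z S) (la z S)).card : ℝ)| ≤
    ε * (((RR m r X z H k R).filter fun S => ky m z H S = (S₀, J)).card : ℝ) +
      (3 ^ (6 * k ^ 2) * κ) * (X / ((∏ p ∈ S₀, p : ℕ) : ℝ)) := by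
  have hm := hok.1
  have h4m := hok.2.1
  set J3 : Finset J := univ.filter fun e : J => (e : ℕ) % 4 = 3 with hJ3
  have c3 : J3.card = (J.filter fun i => i % 4 = 3).card := sub_card J fun i => i % 4 = 3
  have hinj : Function.Injective (fun i : J => (i : ℕ) / m) := by
    intro a b hab
    exact Subtype.ext (hk.inj (Finset.mem_coe.2 a.2) (Finset.mem_coe.2 b.2) hab)
  let lo : LinearOrder J := LinearOrder.lift' (fun i : J => (i : ℕ) / m) hinj
  have hbox := box_dec hBOX J lo J3 (fun i => CC m z H i)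
    (fun i => XX H ((i : ℕ) / m)) κ S₀ hκ
    (fun i => by
      refine (Finset.card_filter_le _ _).trans ?_
      rw [Nat.card_Icc]
      omega)
    hHB (fun u hu => ⟨(hk.cl u hu).1, ne_of_cl h4m (hk.cl u hu)⟩)
    (fun i p hp => by
      obtain ⟨h3, h3', h4, h5⟩ := CC_facts hm hH hp
      refine ⟨h3.1, ne_of_cl h4m h3, fun h => ?_, ?_⟩
      · have := hk.le p h
        omega
      · rw [hJ3, Finset.mem_filter, ← h5, cd_m4 h4m]
        simp)
    (fun i l hil => CC_disj hm hH i l hil)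
    (by
      rw [c3]
      exact par_of hok hk.md)
    (by
      rw [c3]
      exact hk.few)
  have e1 : ((Fintype.piFinset fun i : J => CC m z H i).filter fun p =>
      Nd S₀ (univ.image p) ∧
      Gd (S₀ ∪ univ.image p)).card = ((RR m r X z H k R).filter fun S =>
        ky m z H S = (S₀, J) ∧ (Nd (sm z S) (la z S) ∧ Gd S)).card := by
    rw [← key_bij hok hH hk (fun S => Nd (sm z S) (la z S) ∧ Gd S)]
    congr 1
    refine Finset.filter_congr fun p hp => ?_
    rw [Fintype.mem_piFinset] at hp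
    rw [sm_fill hm hH hk.le hp, la_fill hm hH hk.le hp]
  have e2 : ((Fintype.piFinset fun i : J => CC m z H i).filter fun p =>
      Nd S₀ (univ.image p)).card = ((RR m r X z H k R).filter fun S =>
        ky m z H S = (S₀, J) ∧ Nd (sm z S) (la z S)).card := by
    rw [← key_bij hok hH hk (fun S => Nd (sm z S) (la z S))]
    congr 1
    refine Finset.filter_congr fun p hp => ?_
    rw [Fintype.mem_piFinset] at hp
    rw [sm_fill hm hH hk.le hp, la_fill hm hH hk.le hp]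
  rw [e1, e2] at hbox
  refine hbox.trans (add_le_add ?_ ?_)
  · have h4 : (((RR m r X z H k R).filter fun S => ky m z H S = (S₀, J) ∧
        Nd (sm z S) (la z S)).card : ℝ) ≤
        (((RR m r X z H k R).filter fun S => ky m z H S = (S₀, J)).card : ℝ) := by
      have : (RR m r X z H k R).filter
          (fun S => ky m z H S = (S₀, J) ∧ Nd (sm z S) (la z S)) ⊆
          (RR m r X z H k R).filter fun S => ky m z H S = (S₀, J) := by
        intro S hS
        rw [Finset.mem_filter] at hS ⊢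
        exact ⟨hS.1, hS.2.1⟩
      exact_mod_cast Finset.card_le_card this
    exact mul_le_mul_of_nonneg_left h4 hε
  · have hcJ : Fintype.card J = J.card := Fintype.card_coe J
    have hcard := hk.card
    have hJK : J.card ≤ k := by omega
    have hSK : S₀.card ≤ k := by omega
    obtain ⟨n, hn⟩ : ∃ n : ℕ, n = (@prs J _ lo (univ : Finset J)).card := ⟨_, rfl⟩
    have hpr : n ≤ k * k := by
      rw [hn]
      refine (@prs_card J _ lo _).trans ?_
      rw [hcJ]
      exact Nat.mul_le_mul hJK hJK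
    rw [← hn]
    have h5 : (2 : ℝ) ^ ((2 * S₀.card + 1) * Fintype.card J + n) ≤ 3 ^ (6 * k ^ 2) := by
      have hexp : (2 * S₀.card + 1) * Fintype.card J + n ≤ 6 * k ^ 2 := by
        rw [hcJ]
        have h6 : S₀.card * J.card ≤ k * k := Nat.mul_le_mul hSK hJK
        have h7 : k ≤ k * k := by
          rcases Nat.eq_zero_or_pos k with hk0 | hk0
          · rw [hk0]
          · exact Nat.le_mul_of_pos_left k hk0
        calc (2 * S₀.card + 1) * J.card + n
            = 2 * (S₀.card * J.card) + J.card + n := by ring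
          _ ≤ 2 * (k * k) + k * k + k * k := by
              gcongr
              exact hJK.trans h7
          _ ≤ 6 * k ^ 2 := by nlinarith
      calc (2 : ℝ) ^ ((2 * S₀.card + 1) * Fintype.card J + n) ≤ 2 ^ (6 * k ^ 2) :=
            pow_le_pow_right₀ (by norm_num) hexp
        _ ≤ 3 ^ (6 * k ^ 2) := by
            apply pow_le_pow_left₀ <;> norm_num
    have hN0 : (0 : ℝ) < ((∏ p ∈ S₀, p : ℕ) : ℝ) := by
      exact_mod_cast Finset.prod_pos fun p hp => (hk.cl p hp).1.pos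
    have hprod : ∏ j : J, (XX H ((j : ℕ) / m) : ℝ) ≤ X / ((∏ p ∈ S₀, p : ℕ) : ℝ) := by
      have h5 : ∏ j : J, (XX H ((j : ℕ) / m) : ℝ) = ((∏ k ∈ J, XX H (k / m) : ℕ) : ℝ) := by
        rw [← Finset.prod_coe_sort J (fun k => XX H (k / m))]
        push_cast
        rfl
      rw [h5, le_div_iff₀ hN0, mul_comm]
      exact_mod_cast hk.prod
    calc (2 : ℝ) ^ ((2 * S₀.card + 1) * Fintype.card J + n) *
        (κ * ∏ j : J, (XX H ((j : ℕ) / m) : ℝ)) ≤
        3 ^ (6 * k ^ 2) * (κ * (X / ((∏ p ∈ S₀, p : ℕ) : ℝ))) := by gcongr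
      _ = _ := by ring

/-- **XD-KEY.** -/
theorem t_XKEY : S_XKEY := by
  intro hB1 hEQ hLA hETA hBOX ε hε
  obtain ⟨C₁, hC₁, h1⟩ := hB1
  obtain ⟨R, hR⟩ := hBOX hEQ hLA hETA ε hε
  have hBP : BoxP ε R := hR
  refine ⟨R, C₁, hC₁, ?_⟩
  intro m r X z H k N κ hok hX hH hz hκ hκz hN
  have hm := hok.1
  have h4m := hok.2.1
  set T := (RR m r X z H k R).image (ky m z H) with hT
  set B : ℝ := 3 ^ (6 * k ^ 2) * κ with hB
  have hB0 : 0 ≤ B := by positivity
  have hfib : ∀ (P : Finset ℕ → Prop) [DecidablePred P],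
      (((RR m r X z H k R).filter fun S => P S).card : ℝ) =
      ∑ e ∈ T, (((RR m r X z H k R).filter fun S => ky m z H S = e ∧ P S).card : ℝ) := by
    intro P _
    rw [Finset.card_eq_sum_card_fiberwise (f := ky m z H) (t := T) (by
      intro S hS
      rw [Finset.mem_coe, Finset.mem_filter] at hS
      exact Finset.mem_coe.2 (Finset.mem_image_of_mem _ hS.1))]
    push_cast
    refine Finset.sum_congr rfl fun e _ => ?_
    congr 2
    ext S
    simp only [Finset.mem_filter]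
    tauto
  have hKP : ∀ e ∈ T, KP m r X z H k R e.1 e.2 := by
    intro e he
    rw [hT, Finset.mem_image] at he
    obtain ⟨S, hS, rfl⟩ := he
    obtain ⟨f1, f2, f3⟩ := rr_facts hS
    exact (rr_iff hok hH f1 (inj_cd hm f2)).1 hS
  have hf1 := hfib fun S => Nd (sm z S) (la z S) ∧ Gd S
  have hf2 := hfib fun S => Nd (sm z S) (la z S)
  have hf3 := hfib fun _ => True
  simp only [and_true, Finset.filter_true] at hf3
  rw [hf1, hf2, hf3, Finset.mul_sum, ← Finset.sum_sub_distrib]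
  refine (Finset.abs_sum_le_sum_abs _ _).trans ?_
  have h3 : ∀ e ∈ T, |(((RR m r X z H k R).filter fun S => ky m z H S = e ∧
        (Nd (sm z S) (la z S) ∧ Gd S)).card : ℝ) -
      eta * (((RR m r X z H k R).filter fun S => ky m z H S = e ∧
        Nd (sm z S) (la z S)).card : ℝ)| ≤
      ε * (((RR m r X z H k R).filter fun S => ky m z H S = e).card : ℝ) +
      B * (X / ((∏ p ∈ e.1, p : ℕ) : ℝ)) := by
    intro e he
    obtain ⟨S₀, J⟩ := e
    have hk' := hKP _ he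
    exact per_key hε.le hBP hok hH hκ hk' (hb_box h1 hm h4m hH (by omega) hκ hκz)
  refine (Finset.sum_le_sum h3).trans ?_
  rw [Finset.sum_add_distrib, ← Finset.mul_sum]
  refine add_le_add le_rfl ?_
  have hsub : T ⊆ (TT X) ×ˢ ((range (m * N)).powerset.filter fun J => J.card ≤ k) := by
    intro e he
    have hk' := hKP e he
    rw [hT, Finset.mem_image] at he
    obtain ⟨S, hS, rfl⟩ := he
    obtain ⟨f1, f2, f3⟩ := rr_facts hS
    rw [Finset.mem_product, Finset.mem_filter, Finset.mem_powerset]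
    refine ⟨mem_TT (fun q hq => (hk'.cl q hq).1) ?_, ?_, ?_⟩
    · refine le_trans ?_ f3
      exact Nat.le_of_dvd (Finset.prod_pos fun p hp => (f1 p hp).1.pos)
        (Finset.prod_dvd_prod_of_subset _ _ _ (Finset.filter_subset _ _))
    · intro e he
      unfold ky at he
      rw [Finset.mem_image] at he
      obtain ⟨q, hq, rfl⟩ := he
      have hqS := (Finset.mem_filter.1 hq).1
      have hq0 := (f1 q hqS).1.pos
      have hqX : q ≤ X := by
        refine le_trans ?_ f3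
        exact Nat.le_of_dvd (Finset.prod_pos fun p hp => (f1 p hp).1.pos)
          (Finset.dvd_prod_of_mem _ hqS)
      rw [Finset.mem_range]
      have h3 : ((jj H q : ℕ) : ℝ) < N := by
        refine lt_of_le_of_lt (Nat.floor_le (mul_nonneg (Nat.cast_nonneg _)
          (Real.log_nonneg (by exact_mod_cast hq0)))) ?_
        refine lt_of_le_of_lt ?_ hN
        refine mul_le_mul_of_nonneg_left ?_ (Nat.cast_nonneg _)
        exact Real.log_le_log (by exact_mod_cast hq0) (by exact_mod_cast hqX)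
      have h4 : jj H q < N := by exact_mod_cast h3
      have h5 : q % m < m := Nat.mod_lt _ hm
      unfold cd
      calc m * jj H q + q % m < m * jj H q + m := by omega
        _ = m * (jj H q + 1) := by ring
        _ ≤ m * N := Nat.mul_le_mul_left _ h4
    · have := hk'.card
      omega
  refine (Finset.sum_le_sum_of_subset_of_nonneg hsub fun _ _ _ => by positivity).trans ?_
  rw [Finset.sum_product]
  simp only [Finset.sum_const, nsmul_eq_mul]
  rw [← Finset.mul_sum]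
  have h4 : ((((range (m * N)).powerset.filter fun J => J.card ≤ k).card : ℕ) : ℝ) ≤
      (m * N + m : ℝ) ^ k := by
    have h5 := card_sub (range (m * N)) k
    rw [Finset.card_range] at h5
    have hm1 : (1 : ℝ) ≤ m := by exact_mod_cast hm
    calc ((((range (m * N)).powerset.filter fun J => J.card ≤ k).card : ℕ) : ℝ) ≤
          (((m * N + 1) ^ k : ℕ) : ℝ) := by exact_mod_cast h5
      _ = (m * N + 1 : ℝ) ^ k := by push_cast; ring
      _ ≤ _ := by
        apply pow_le_pow_left₀ (by positivity)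
        linarith
  have h5 : ∑ S ∈ TT X, B * (X / ((∏ p ∈ S, p : ℕ) : ℝ)) ≤ B * (X * (1 + Real.log X)) := by
    have h6 : ∀ S ∈ TT X, B * ((X : ℝ) / ((∏ p ∈ S, p : ℕ) : ℝ)) =
        B * X * (1 / ((∏ p ∈ S, p : ℕ) : ℝ)) := by
      intro S _
      ring
    rw [Finset.sum_congr rfl h6, ← Finset.mul_sum]
    have h7 := mul_le_mul_of_nonneg_left (harm_TT X) (mul_nonneg hB0 (Nat.cast_nonneg X))
    refine h7.trans (le_of_eq ?_)
    ring
  have h6 : 0 ≤ ∑ S ∈ TT X, B * ((X : ℝ) / ((∏ p ∈ S, p : ℕ) : ℝ)) :=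
    Finset.sum_nonneg fun _ _ => by positivity
  rw [mul_assoc]
  gcongr

end Pool.Agent.NH3.XD.K40
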