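import Pool.Agent.NH3.XD.Stm

/-!
# Project XD: the lower bound for the size of the class, and the translation to numbers

`t_XNS`: `N` and the set of the prime factors of `N`; `t_XLOW`: the class has at least `X / (2 m)` members,
by removing the multiples of the squares of the odd numbers.
-/

set_option autoImplicit false

open scoped Classical

namespace Pool.Agent.NH3.XD

open Finset

namespace LowX

/-- no prime factor of a number of the class divides the modulus -/
theorem not_dvd {m r N p : ℕ} (hr : Nat.Coprime r m) (hN : N % m = r) (hp : p.Prime) (hpN : p ∣ N) :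
    ¬ p ∣ m := by
  intro hpm
  have h1 : p ∣ r := by
    rw [← hN]
    exact (Nat.dvd_mod_iff hpm).2 hpN
  have h2 : p ∣ Nat.gcd r m := Nat.dvd_gcd h1 hpm
  rw [hr] at h2
  exact hp.one_lt.ne' (Nat.dvd_one.1 h2)

theorem card_eq (m r : ℕ) (hr : Nat.Coprime r m) (X : ℕ) (Q : Finset ℕ → Prop) :
    ((Icc 1 X).filter fun N => Squarefree N ∧ N % m = r ∧ Q N.primeFactors).card =
      ((SS m r X).filter Q).card := by
  refine Finset.card_bij (fun N _ => N.primeFactors) ?_ ?_ ?_
  · intro D hD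
    obtain ⟨h1, h2, hcl, h4⟩ := Finset.mem_filter.1 hD
    obtain ⟨h5, h6⟩ := Finset.mem_Icc.1 h1
    refine Finset.mem_filter.2 ⟨Finset.mem_filter.2 ⟨?_, ⟨fun p hp => ?_, ?_⟩, ?_⟩, h4⟩
    · rw [Finset.mem_powerset]
      intro p hp
      have := Nat.le_of_dvd (by omega) (Nat.dvd_of_mem_primeFactors hp)
      exact Finset.mem_range.2 (by omega)
    · exact ⟨Nat.prime_of_mem_primeFactors hp,
        not_dvd hr hcl (Nat.prime_of_mem_primeFactors hp) (Nat.dvd_of_mem_primeFactors hp)⟩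
    · rw [Nat.prod_primeFactors_of_squarefree h2]
      exact hcl
    · rw [Nat.prod_primeFactors_of_squarefree h2]
      exact h6
  · intro D hD E hE h
    have h2 := (Finset.mem_filter.1 hD).2.1
    have h3 := (Finset.mem_filter.1 hE).2.1
    have h' : D.primeFactors = E.primeFactors := h
    rw [← Nat.prod_primeFactors_of_squarefree h2, ← Nat.prod_primeFactors_of_squarefree h3, h']
  · intro S hS
    obtain ⟨h1, h2⟩ := Finset.mem_filter.1 hS
    obtain ⟨h3, h4, h5⟩ := Finset.mem_filter.1 h1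
    have hpr : ∀ p ∈ S, p.Prime := fun p hp => (h4.1 p hp).1
    have hpf : (∏ p ∈ S, p).primeFactors = S := Nat.primeFactors_prod hpr
    have hsq : Squarefree (∏ p ∈ S, p) := by
      refine Finset.squarefree_prod_of_pairwise_isCoprime (fun p hp q hq hpq => ?_)
        fun p hp => (hpr p hp).squarefree
      show IsRelPrime p q
      rw [← Nat.coprime_iff_isRelPrime]
      exact (Nat.coprime_primes (hpr p hp) (hpr q hq)).mpr hpq
    refine ⟨∏ p ∈ S, p, ?_, hpf⟩
    refine Finset.mem_filter.2 ⟨Finset.mem_Icc.2 ⟨?_, h5⟩, hsq, h4.2, ?_⟩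
    · exact Nat.one_le_iff_ne_zero.2 hsq.ne_zero
    · rw [hpf]
      exact h2

/-- many numbers of the class -/
theorem card_class {m r : ℕ} (hm : 0 < m) (hr0 : 0 < r) (hr : r < m) (X : ℕ) :
    X / m ≤ ((Icc 1 X).filter fun N => N % m = r).card := by
  have h : ((range (X / m)).image fun t => t * m + r) ⊆ (Icc 1 X).filter fun N => N % m = r := by
    intro N hN
    obtain ⟨t, ht, rfl⟩ := Finset.mem_image.1 hN
    have h1 := Finset.mem_range.1 ht
    have h2 : (t + 1) * m ≤ X := by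
      calc (t + 1) * m ≤ (X / m) * m := Nat.mul_le_mul_right m h1
        _ ≤ X := Nat.div_mul_le_self X m
    rw [add_mul, one_mul] at h2
    refine Finset.mem_filter.2 ⟨Finset.mem_Icc.2 ⟨by omega, by omega⟩, ?_⟩
    rw [Nat.mul_comm t m, Nat.mul_add_mod, Nat.mod_eq_of_lt hr]
  have h3 := Finset.card_le_card h
  rw [Finset.card_image_of_injOn, Finset.card_range] at h3
  · exact h3
  · intro a _ b _ hab
    have h4 : a * m + r = b * m + r := hab
    exact Nat.eq_of_mul_eq_mul_right hm (by omega)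

/-- few numbers of the class are divisible by `d ^ 2` -/
theorem card_sq {m r d : ℕ} (hc : Nat.Coprime d m) (X : ℕ) :
    ((Icc 1 X).filter fun N => N % m = r ∧ d * d ∣ N).card ≤ X / (m * (d * d)) + 1 := by
  have h : ∀ N ∈ (Icc 1 X).filter (fun N => N % m = r ∧ d * d ∣ N),
      N / (m * (d * d)) ∈ range (X / (m * (d * d)) + 1) := by
    intro N hN
    have h1 := (Finset.mem_Icc.1 (Finset.mem_filter.1 hN).1).2
    exact Finset.mem_range.2 (Nat.lt_succ_of_le (Nat.div_le_div_right h1))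
  have h2 := Finset.card_le_card_of_injOn (fun N => N / (m * (d * d))) h ?_
  · rwa [Finset.card_range] at h2
  · intro a ha b hb hab
    obtain ⟨_, ha1, ha2⟩ := Finset.mem_filter.1 (Finset.mem_coe.1 ha)
    obtain ⟨_, hb1, hb2⟩ := Finset.mem_filter.1 (Finset.mem_coe.1 hb)
    have hab' : a / (m * (d * d)) = b / (m * (d * d)) := hab
    have h3 : a ≡ b [MOD m] := by
      show a % m = b % m
      rw [ha1, hb1]
    have h4 : a ≡ b [MOD (d * d)] := by
      show a % (d * d) = b % (d * d)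
      rw [Nat.mod_eq_zero_of_dvd ha2, Nat.mod_eq_zero_of_dvd hb2]
    have h5 : Nat.Coprime m (d * d) := (Nat.Coprime.mul_left hc hc).symm
    have h6 : a ≡ b [MOD (m * (d * d))] := (Nat.modEq_and_modEq_iff_modEq_mul h5).1 ⟨h3, h4⟩
    rw [← Nat.div_add_mod a (m * (d * d)), ← Nat.div_add_mod b (m * (d * d)), hab', h6]

/-- the sum of the reciprocals of the odd squares -/
theorem sum_odd (J : ℕ) :
    ∑ j ∈ range J, (1 : ℝ) / (((2 * j + 3) * (2 * j + 3) : ℕ) : ℝ) ≤
      1 / 4 * (1 - 1 / ((J : ℝ) + 1)) := by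
  induction J with
  | zero => simp
  | succ J ih =>
    rw [Finset.sum_range_succ]
    have h : (1 : ℝ) / (((2 * J + 3) * (2 * J + 3) : ℕ) : ℝ) ≤
        1 / 4 * (1 / ((J : ℝ) + 1) - 1 / ((J : ℝ) + 1 + 1)) := by
      have e : 1 / 4 * (1 / ((J : ℝ) + 1) - 1 / ((J : ℝ) + 1 + 1)) =
          1 / (4 * (((J : ℝ) + 1) * ((J : ℝ) + 1 + 1))) := by
        have h1 : (J : ℝ) + 1 ≠ 0 := by positivity
        have h2 : (J : ℝ) + 1 + 1 ≠ 0 := by positivity
        field_simp
        ring
      rw [e]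
      apply one_div_le_one_div_of_le
      · positivity
      · push_cast
        nlinarith
    push_cast at ih h ⊢
    linarith

/-- the numbers of the class which are not squarefree -/
theorem card_bad {m r : ℕ} (hOk : Ok m r) (X : ℕ) :
    (((Icc 1 X).filter fun N => N % m = r ∧ ¬ Squarefree N).card : ℝ) ≤
      (X : ℝ) / m * (1 / 4) + Nat.sqrt X := by
  obtain ⟨hm, h4m, hr, hc, hr4⟩ := hOk
  have hsub : ((Icc 1 X).filter fun N => N % m = r ∧ ¬ Squarefree N) ⊆
      ((range (Nat.sqrt X)).filter fun j => Nat.Coprime (2 * j + 3) m).biUnion fun j =>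
        (Icc 1 X).filter fun N => N % m = r ∧ (2 * j + 3) * (2 * j + 3) ∣ N := by
    intro N hN
    obtain ⟨h1, h2, h3⟩ := Finset.mem_filter.1 hN
    rw [Nat.squarefree_iff_prime_squarefree] at h3
    push Not at h3
    obtain ⟨p, hp, hpp⟩ := h3
    have h4 : ¬ p ∣ m := not_dvd hc h2 hp (dvd_trans (Dvd.intro _ rfl) hpp)
    have h5 : p ≠ 2 := by
      rintro rfl
      exact h4 (dvd_trans (by norm_num) h4m)
    have h6 : p % 2 = 1 := (hp.eq_two_or_odd).resolve_left h5
    have h7 := hp.two_le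
    have h8 : p * p ≤ X := by
      have := Nat.le_of_dvd (by have := (Finset.mem_Icc.1 h1).1; omega) hpp
      exact this.trans (Finset.mem_Icc.1 h1).2
    have h9 : p ≤ Nat.sqrt X := Nat.le_sqrt.2 h8
    obtain ⟨j, hj⟩ : ∃ j, p = 2 * j + 3 := ⟨(p - 3) / 2, by omega⟩
    refine Finset.mem_biUnion.2 ⟨j, Finset.mem_filter.2 ⟨Finset.mem_range.2 (by omega), ?_⟩,
      Finset.mem_filter.2 ⟨h1, h2, ?_⟩⟩
    · rw [← hj]
      exact (Nat.Prime.coprime_iff_not_dvd hp).2 h4
    · rw [← hj]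
      exact hpp
  have h1 := (Finset.card_le_card hsub).trans Finset.card_biUnion_le
  have h2 : ∑ j ∈ (range (Nat.sqrt X)).filter (fun j => Nat.Coprime (2 * j + 3) m),
      ((Icc 1 X).filter fun N => N % m = r ∧ (2 * j + 3) * (2 * j + 3) ∣ N).card ≤
      ∑ j ∈ range (Nat.sqrt X), (X / (m * ((2 * j + 3) * (2 * j + 3))) + 1) := by
    refine (Finset.sum_le_sum fun j hj => card_sq (Finset.mem_filter.1 hj).2 X).trans ?_
    exact Finset.sum_le_sum_of_subset (Finset.filter_subset _ _)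
  have h3 : (((Icc 1 X).filter fun N => N % m = r ∧ ¬ Squarefree N).card : ℝ) ≤
      ∑ j ∈ range (Nat.sqrt X), (((X / (m * ((2 * j + 3) * (2 * j + 3))) : ℕ) : ℝ) + 1) := by
    have := h1.trans h2
    exact_mod_cast this
  refine h3.trans ?_
  rw [Finset.sum_add_distrib, Finset.sum_const, Finset.card_range, nsmul_eq_mul, mul_one]
  have h4 : ∑ j ∈ range (Nat.sqrt X), ((X / (m * ((2 * j + 3) * (2 * j + 3))) : ℕ) : ℝ) ≤
      ∑ j ∈ range (Nat.sqrt X), (X : ℝ) / m * ((1 : ℝ) / (((2 * j + 3) * (2 * j + 3) : ℕ) : ℝ)) := by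
    refine Finset.sum_le_sum fun j _ => ?_
    refine Nat.cast_div_le.trans (le_of_eq ?_)
    rw [Nat.cast_mul, ← div_div]
    ring
  rw [← Finset.mul_sum] at h4
  have h5 := sum_odd (Nat.sqrt X)
  have h6 : (X : ℝ) / m * ∑ j ∈ range (Nat.sqrt X), ((1 : ℝ) / (((2 * j + 3) * (2 * j + 3) : ℕ) : ℝ)) ≤
      (X : ℝ) / m * (1 / 4) := by
    refine mul_le_mul_of_nonneg_left (h5.trans ?_) (by positivity)
    have : 0 < 1 / ((Nat.sqrt X : ℝ) + 1) := by positivity
    linarith
  linarith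

end LowX

theorem t_XNS : S_XNS := by
  intro hdq m r hOk
  refine (hdq m r hOk).congr fun X => ?_
  have e1 := LowX.card_eq m r hOk.2.2.2.1 X Gd
  have e2 := LowX.card_eq m r hOk.2.2.2.1 X (fun _ => True)
  rw [Finset.filter_true] at e2
  simp only [and_true] at e2
  rw [← e1, ← e2]

theorem t_XLOW : S_XLOW := by
  intro m r hOk
  have hOk' := hOk
  obtain ⟨hm, h4m, hr, hc, hr4⟩ := hOk'
  have hm' : (0 : ℝ) < m := by exact_mod_cast hm
  refine ⟨1 / (2 * m), (8 * m) * (8 * m), by positivity, fun X hX => ?_⟩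
  have e2 := LowX.card_eq m r hc X (fun _ => True)
  rw [Finset.filter_true] at e2
  simp only [and_true] at e2
  rw [← e2]
  have h1 := LowX.card_class hm (by omega) hr X
  have h2 := LowX.card_bad hOk X
  have h3 : ((Icc 1 X).filter fun N => N % m = r) ⊆
      ((Icc 1 X).filter fun N => Squarefree N ∧ N % m = r) ∪
        ((Icc 1 X).filter fun N => N % m = r ∧ ¬ Squarefree N) := by
    intro N hN
    obtain ⟨h4, h5⟩ := Finset.mem_filter.1 hN
    by_cases h6 : Squarefree N
    · exact Finset.mem_union_left _ (Finset.mem_filter.2 ⟨h4, h6, h5⟩)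
    · exact Finset.mem_union_right _ (Finset.mem_filter.2 ⟨h4, h5, h6⟩)
  have h4 := (Finset.card_le_card h3).trans (Finset.card_union_le _ _)
  have h5 : ((X / m : ℕ) : ℝ) ≤
      (((Icc 1 X).filter fun N => Squarefree N ∧ N % m = r).card : ℝ) +
        (((Icc 1 X).filter fun N => N % m = r ∧ ¬ Squarefree N).card : ℝ) := by
    exact_mod_cast h1.trans h4
  have h6 : (X : ℝ) / m - 1 ≤ ((X / m : ℕ) : ℝ) := by
    have h7 : (X : ℝ) / m < ((X / m : ℕ) : ℝ) + 1 := by
      rw [div_lt_iff₀ hm']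
      have h8 : X < (X / m + 1) * m := by
        exact Nat.lt_mul_of_div_lt (Nat.lt_succ_self _) hm
      exact_mod_cast h8
    linarith
  have h8 : 8 * m ≤ Nat.sqrt X := Nat.le_sqrt.2 hX
  have h9 : Nat.sqrt X * Nat.sqrt X ≤ X := Nat.sqrt_le X
  have h10 : (8 * m : ℝ) ≤ (Nat.sqrt X : ℝ) := by exact_mod_cast h8
  have h11 : (Nat.sqrt X : ℝ) * (Nat.sqrt X : ℝ) ≤ (X : ℝ) := by exact_mod_cast h9
  have hm1 : (1 : ℝ) ≤ m := by exact_mod_cast hm
  have h12 : 2 * (Nat.sqrt X : ℝ) ≤ (X : ℝ) / m * (1 / 4) := by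
    have : 2 * (Nat.sqrt X : ℝ) * (4 * m) ≤ X := by nlinarith
    rw [div_mul_eq_mul_div, le_div_iff₀ hm']
    linarith
  have h13 : 1 / (2 * m) * (X : ℝ) = (X : ℝ) / m * (1 / 2) := by
    field_simp
  rw [h13]
  nlinarith

end Pool.Agent.NH3.XD
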