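import Pool.Agent.NH3.XD.Stm
import Pool.Agent.NH4.PJ.MomA

/-!
# Project XD: the moments of the number of the solutions (helper2)
-/

set_option autoImplicit false
set_option linter.unusedSectionVars false

open scoped Classical

namespace Pool.Agent.NH3.XD.MM

open Finset
open Pool.Agent.Y703.CQ (prs)
open Pool.Agent.NH4.PJ (inj)
open Pool.Agent.NH4.PJ.Mom (card_li px py px_apply py_apply)

/-- the field with two elements -/
abbrev F : Type := ZMod 2

section

variable {U J : Type} [Fintype U] [Fintype J] [LinearOrder J]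

/-- a small row -/
noncomputable def rS (d : Dat U J) (u : U) : ((U → F) × (J → F)) →ₗ[F] F :=
  ∑ v, d.A u v • (px v + px u) + ∑ l, d.B u l • (py l + px u)

/-- a large row -/
noncomputable def rL (d : Dat U J) (α : prs (univ : Finset J) → F) (k : J) :
    ((U → F) × (J → F)) →ₗ[F] F :=
  ∑ u, d.C k u • (px u + py k) + ∑ l, ex3 d α k l • (py l + py k)

theorem rS_apply (d : Dat U J) (u : U) (z : (U → F) × (J → F)) :
    rS d u z = ∑ v, d.A u v * (z.1 v + z.1 u) + ∑ l, d.B u l * (z.2 l + z.1 u) := by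
  unfold rS
  simp only [LinearMap.add_apply, LinearMap.sum_apply, LinearMap.smul_apply, px_apply, py_apply,
    smul_eq_mul]

theorem rL_apply (d : Dat U J) (α : prs (univ : Finset J) → F) (k : J)
    (z : (U → F) × (J → F)) :
    rL d α k z = ∑ u, d.C k u * (z.1 u + z.2 k) + ∑ l, ex3 d α k l * (z.2 l + z.2 k) := by
  unfold rL
  simp only [LinearMap.add_apply, LinearMap.sum_apply, LinearMap.smul_apply, px_apply, py_apply,
    smul_eq_mul]

/-- the solutions of the small rows which vanish at `i` -/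
noncomputable def K0 (d : Dat U J) (i : J) : Submodule F ((U → F) × (J → F)) :=
  (⨅ u, LinearMap.ker (rS d u)) ⊓ LinearMap.ker (py i)

theorem mem_K0 (d : Dat U J) (i : J) (z : (U → F) × (J → F)) :
    z ∈ K0 d i ↔ Sml d z.1 z.2 ∧ z.2 i = 0 := by
  unfold K0 Sml
  simp only [Submodule.mem_inf, Submodule.mem_iInf, LinearMap.mem_ker, rS_apply, py_apply]

theorem mem_KK (d : Dat U J) (i : J) (z : (U → F) × (J → F)) : z ∈ KK d i ↔ z ∈ K0 d i := by
  unfold KK
  rw [mem_filter, mem_K0]
  simp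

/-- the solutions of the system which vanish at `i` -/
noncomputable def Sol (d : Dat U J) (i : J) (α : prs (univ : Finset J) → F) :
    Submodule F ((U → F) × (J → F)) :=
  K0 d i ⊓ ⨅ k : {k : J // k ≠ i}, LinearMap.ker (rL d α k.1)

theorem mem_Sol (d : Dat U J) (i : J) (α : prs (univ : Finset J) → F) (z : (U → F) × (J → F)) :
    z ∈ Sol d i α ↔ z ∈ K0 d i ∧ Lrg d (univ.erase i) α z.1 z.2 := by
  unfold Sol Lrg
  simp only [Submodule.mem_inf, Submodule.mem_iInf, LinearMap.mem_ker, rL_apply, mem_erase,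
    mem_univ, and_true, Subtype.forall]

theorem nkL_eq (d : Dat U J) (i : J) (α : prs (univ : Finset J) → F) :
    nkL d i α = Nat.card (Sol d i α) := by
  have e : ∀ z, z ∈ (KK d i).filter (fun z => Lrg d (univ.erase i) α z.1 z.2) ↔ z ∈ Sol d i α := by
    intro z
    rw [mem_filter, mem_KK, mem_Sol]
  unfold nkL
  rw [← Nat.card_eq_finsetCard]
  exact Nat.card_congr (Equiv.subtypeEquivRight e)

/-- the number of the completions for which a family consists of solutions -/
noncomputable def Az (d : Dat U J) (i : J) {k : ℕ} (z : Fin k → (U → F) × (J → F)) : ℕ :=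
  (univ.filter fun α : prs (univ : Finset J) → ZMod 2 =>
      ∀ s, Lrg d (univ.erase i) α (z s).1 (z s).2).card

/-- the linearly independent families -/
noncomputable def LK (d : Dat U J) (i : J) (k : ℕ) : Finset (Fin k → (U → F) × (J → F)) :=
  univ.filter fun z => (∀ s, z s ∈ KK d i) ∧ LinearIndependent F z

theorem sum_inj (d : Dat U J) (i : J) (k : ℕ) :
    ∑ α : prs (univ : Finset J) → F, inj k (nkL d i α) = ∑ z ∈ LK d i k, (Az d i z : ℝ) := by
  have h1 : ∀ α : prs (univ : Finset J) → F, inj k (nkL d i α) =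
      ∑ z ∈ LK d i k, if ∀ s, Lrg d (univ.erase i) α (z s).1 (z s).2 then (1 : ℝ) else 0 := by
    intro α
    rw [nkL_eq, ← card_li, Finset.sum_boole]
    have e : ∀ z : Fin k → (U → F) × (J → F), ((∀ a, z a ∈ Sol d i α) ∧ LinearIndependent F z) ↔
        z ∈ (LK d i k).filter (fun z => ∀ s, Lrg d (univ.erase i) α (z s).1 (z s).2) := by
      intro z
      unfold LK
      simp only [mem_filter, mem_univ, true_and, mem_Sol, mem_KK]
      constructor
      · rintro ⟨h, h'⟩
        exact ⟨⟨fun s => (h s).1, h'⟩, fun s => (h s).2⟩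
      · rintro ⟨⟨h, h'⟩, h2⟩
        exact ⟨fun s => ⟨h s, h2 s⟩, h'⟩
    rw [← Nat.card_eq_finsetCard]
    congr 1
    exact Nat.card_congr (Equiv.subtypeEquivRight e)
  simp only [h1]
  rw [Finset.sum_comm]
  refine Finset.sum_congr rfl fun z _ => ?_
  unfold Az
  rw [Finset.sum_boole]

/-- the isotropic families with independent large parts -/
noncomputable def QK (d : Dat U J) (i : J) (k : ℕ) : Finset (Fin k → (U → F) × (J → F)) :=
  univ.filter fun z => (∀ s, z s ∈ KK d i) ∧ LinearIndependent F (fun s => (z s).2) ∧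
    ∀ s t, om d (z s) (z t) = 0

/-- the isotropic families -/
noncomputable def IK (d : Dat U J) (i : J) (k : ℕ) : Finset (Fin k → (U → F) × (J → F)) :=
  univ.filter fun z => (∀ s, z s ∈ KK d i) ∧ ∀ s t, om d (z s) (z t) = 0

/-- the families with dependent large parts -/
noncomputable def DK (d : Dat U J) (i : J) (k : ℕ) : Finset (Fin k → (U → F) × (J → F)) :=
  univ.filter fun z => (∀ s, z s ∈ KK d i) ∧ ¬ LinearIndependent F (fun s => (z s).2)

/-- the families with dependent large parts are no solutions -/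
theorem Az_zero (d : Dat U J) (hd : d.Good) (i : J) (hi : d.bJ i = 1) {k : ℕ}
    (z : Fin k → (U → F) × (J → F)) (hz : ∀ s, z s ∈ KK d i) (hl : LinearIndependent F z)
    (hn : ¬ LinearIndependent F (fun s => (z s).2)) : Az d i z = 0 := by
  unfold Az
  rw [Finset.card_eq_zero, Finset.filter_eq_empty_iff]
  intro α _ hα
  rw [Fintype.linearIndependent_iff] at hn
  push Not at hn
  obtain ⟨g, hg, s0, hs0⟩ := hn
  obtain ⟨w, hw⟩ : ∃ w, w = ∑ s, g s • z s := ⟨_, rfl⟩
  have hw2 : w.2 = 0 := by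
    rw [hw, Prod.snd_sum]
    exact hg
  have hwS : w ∈ Sol d i α := by
    rw [hw]
    exact Submodule.sum_mem _ fun s _ => Submodule.smul_mem _ _
      ((mem_Sol d i α (z s)).2 ⟨(mem_KK d i _).1 (hz s), hα s⟩)
  have hw1 : ∃ u, w.1 u ≠ 0 := by
    by_contra hcon
    push Not at hcon
    have h0 : w = 0 := Prod.ext (funext hcon) hw2
    rw [hw] at h0
    exact hs0 (Fintype.linearIndependent_iff.1 hl g h0 s0)
  obtain ⟨l, hl0, hl1⟩ := hd.nd w.1 hw1
  have hli : l ≠ i := by
    rintro rfl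
    rw [hi] at hl0
    exact one_ne_zero hl0
  have h3 := ((mem_Sol d i α w).1 hwS).2 l (mem_erase.2 ⟨hli, mem_univ l⟩)
  apply hl1
  rw [← h3, hw2]
  simp only [Pi.zero_apply, add_zero, mul_zero, Finset.sum_const_zero]
  exact Finset.sum_congr rfl fun u _ => mul_comm _ _

theorem sum_Az (hPRB : S_PRB) (d : Dat U J) (hd : d.Good) (i : J) (hi : d.bJ i = 1) (k : ℕ) :
    (∑ z ∈ LK d i k, (Az d i z : ℝ)) * 2 ^ ((Fintype.card J - 1) * k) =
      2 ^ (prs (univ : Finset J)).card * 2 ^ (k * (k - 1) / 2) * (QK d i k).card := by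
  have hsub : QK d i k ⊆ LK d i k := by
    intro z hz
    unfold QK at hz
    unfold LK
    rw [mem_filter] at hz ⊢
    refine ⟨mem_univ z, hz.2.1, ?_⟩
    exact LinearIndependent.of_comp (LinearMap.snd F (U → F) (J → F)) hz.2.2.1
  rw [Finset.sum_mul]
  have h1 : ∀ z ∈ LK d i k, (Az d i z : ℝ) * 2 ^ ((Fintype.card J - 1) * k) =
      if z ∈ QK d i k then 2 ^ (prs (univ : Finset J)).card * 2 ^ (k * (k - 1) / 2) else 0 := by
    intro z hz
    unfold LK at hz
    rw [mem_filter] at hz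
    obtain ⟨-, hz1, hz2⟩ := hz
    by_cases hl : LinearIndependent F (fun s => (z s).2)
    · have h2 := hPRB U J d hd i k z hi hz1 hl
      have h2' : Az d i z * 2 ^ ((Fintype.card J - 1) * k) =
          if ∀ s t, om d (z s) (z t) = 0 then
            2 ^ (prs (univ : Finset J)).card * 2 ^ (k * (k - 1) / 2) else 0 := h2
      have h3 : z ∈ QK d i k ↔ ∀ s t, om d (z s) (z t) = 0 := by
        unfold QK
        rw [mem_filter]
        exact ⟨fun h => h.2.2.2, fun h => ⟨mem_univ z, hz1, hl, h⟩⟩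
      by_cases ho : ∀ s t, om d (z s) (z t) = 0
      · rw [if_pos ho] at h2'
        rw [if_pos (h3.2 ho)]
        exact_mod_cast h2'
      · rw [if_neg ho] at h2'
        rw [if_neg (fun h => ho (h3.1 h))]
        exact_mod_cast h2'
    · rw [Az_zero d hd i hi z hz1 hz2 hl, if_neg, Nat.cast_zero, zero_mul]
      intro h
      unfold QK at h
      exact hl (mem_filter.1 h).2.2.1
  rw [Finset.sum_congr rfl h1, ← Finset.sum_filter, Finset.sum_const, nsmul_eq_mul, mul_comm]
  congr 2
  rw [Finset.filter_mem_eq_inter, Finset.inter_eq_right.2 hsub]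

theorem card_QI (d : Dat U J) (i : J) (k : ℕ) :
    (QK d i k).card ≤ (IK d i k).card ∧ (IK d i k).card ≤ (QK d i k).card + (DK d i k).card := by
  constructor
  · refine Finset.card_le_card fun z hz => ?_
    unfold QK at hz
    unfold IK
    rw [mem_filter] at hz ⊢
    exact ⟨mem_univ z, hz.2.1, hz.2.2.2⟩
  · refine le_trans (Finset.card_le_card fun z hz => ?_) (Finset.card_union_le _ _)
    unfold IK at hz
    rw [mem_filter] at hz
    rw [mem_union]
    by_cases hl : LinearIndependent F (fun s => (z s).2)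
    · left
      unfold QK
      exact mem_filter.2 ⟨mem_univ z, hz.2.1, hl, hz.2.2⟩
    · right
      unfold DK
      exact mem_filter.2 ⟨mem_univ z, hz.2.1, hl⟩

theorem card_rel (d : Dat U J) (i : J) (k : ℕ) (g : Fin k → F) (s0 : Fin k) (hs0 : g s0 ≠ 0) :
    (univ.filter fun z : Fin k → (U → F) × (J → F) => (∀ s, z s ∈ KK d i) ∧
      ∑ s, g s • (z s).2 = 0).card * (KK d i).card ≤ 2 ^ Fintype.card U * (KK d i).card ^ k := by
  have e1 : (2 : ℕ) ^ Fintype.card U * (KK d i).card ^ k =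
      ((univ : Finset (U → F)) ×ˢ Fintype.piFinset (fun _ : Fin k => KK d i)).card := by
    rw [card_product, card_univ, Fintype.card_fun, ZMod.card, Fintype.card_piFinset_const]
  rw [e1, ← card_product]
  refine Finset.card_le_card_of_injOn
    (fun p : (Fin k → (U → F) × (J → F)) × ((U → F) × (J → F)) =>
      ((p.1 s0).1, Function.update p.1 s0 p.2)) ?_ ?_
  · rintro ⟨z, w⟩ hp
    simp only [coe_product, Set.mem_prod, mem_coe, mem_filter, mem_univ, true_and] at hp
    simp only [coe_product, Set.mem_prod, mem_coe, mem_univ, true_and, Fintype.mem_piFinset]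
    intro s
    by_cases hs : s = s0
    · subst hs
      rw [Function.update_self]
      exact hp.2
    · rw [Function.update_of_ne hs]
      exact hp.1.1 s
  · rintro ⟨z, w⟩ hp ⟨z', w'⟩ hp' h
    simp only [coe_product, Set.mem_prod, mem_coe, mem_filter, mem_univ, true_and] at hp hp'
    simp only [Prod.mk.injEq] at h
    obtain ⟨h1, h2⟩ := h
    have hw : w = w' := by
      have := congrFun h2 s0
      rwa [Function.update_self, Function.update_self] at this
    have hz : ∀ s, s ≠ s0 → z s = z' s := by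
      intro s hs
      have := congrFun h2 s
      rwa [Function.update_of_ne hs, Function.update_of_ne hs] at this
    have hz0 : (z s0).2 = (z' s0).2 := by
      have a1 := hp.1.2
      have a2 := hp'.1.2
      rw [← Finset.add_sum_erase _ _ (mem_univ s0)] at a1 a2
      have a3 : ∑ s ∈ univ.erase s0, g s • (z s).2 = ∑ s ∈ univ.erase s0, g s • (z' s).2 :=
        Finset.sum_congr rfl fun s hs => by rw [hz s (mem_erase.1 hs).1]
      rw [a3] at a1
      have a4 : g s0 • (z s0).2 = g s0 • (z' s0).2 := by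
        rw [← a2] at a1
        exact add_right_cancel a1
      exact smul_right_injective _ hs0 a4
    refine Prod.ext (funext fun s => ?_) hw
    by_cases hs : s = s0
    · subst hs
      exact Prod.ext h1 hz0
    · exact hz s hs

theorem card_DK (d : Dat U J) (i : J) (k : ℕ) :
    (DK d i k).card * (KK d i).card ≤ 2 ^ k * (2 ^ Fintype.card U * (KK d i).card ^ k) := by
  have h1 : DK d i k ⊆ (univ.filter fun g : Fin k → F => g ≠ 0).biUnion fun g =>
      univ.filter fun z : Fin k → (U → F) × (J → F) => (∀ s, z s ∈ KK d i) ∧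
        ∑ s, g s • (z s).2 = 0 := by
    intro z hz
    unfold DK at hz
    rw [mem_filter] at hz
    obtain ⟨-, hz1, hz2⟩ := hz
    rw [Fintype.linearIndependent_iff] at hz2
    push Not at hz2
    obtain ⟨g, hg, s0, hs0⟩ := hz2
    rw [mem_biUnion]
    refine ⟨g, mem_filter.2 ⟨mem_univ g, ?_⟩, mem_filter.2 ⟨mem_univ z, hz1, hg⟩⟩
    rintro rfl
    exact hs0 rfl
  have h2 : (DK d i k).card ≤ ∑ g ∈ univ.filter fun g : Fin k → F => g ≠ 0,
      (univ.filter fun z : Fin k → (U → F) × (J → F) => (∀ s, z s ∈ KK d i) ∧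
        ∑ s, g s • (z s).2 = 0).card := (Finset.card_le_card h1).trans Finset.card_biUnion_le
  refine (Nat.mul_le_mul_right _ h2).trans ?_
  rw [Finset.sum_mul]
  refine (Finset.sum_le_card_nsmul _ _ (2 ^ Fintype.card U * (KK d i).card ^ k) ?_).trans ?_
  · intro g hg
    obtain ⟨s0, hs0⟩ := Function.ne_iff.1 (mem_filter.1 hg).2
    exact card_rel d i k g s0 hs0
  · rw [smul_eq_mul]
    refine Nat.mul_le_mul_right _ ?_
    refine (Finset.card_le_univ _).trans (le_of_eq ?_)
    rw [Fintype.card_fun, ZMod.card, Fintype.card_fin]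

/-! ### the form -/

theorem om_add_left (d : Dat U J) (v v' w : (U → F) × (J → F)) :
    om d (v + v') w = om d v w + om d v' w := by
  unfold om
  simp only [Prod.fst_add, Prod.snd_add, Pi.add_apply, mul_add, add_mul, Finset.sum_add_distrib]
  ring

theorem om_comm (d : Dat U J) (v w : (U → F) × (J → F)) : om d v w = om d w v := by
  unfold om
  rw [mul_comm (∑ u, d.bU u * v.1 u + ∑ l, d.bJ l * v.2 l)]
  simp only [mul_comm (v.1 _), mul_comm (v.2 _)]

theorem om_smul_left (d : Dat U J) (c : F) (v w : (U → F) × (J → F)) :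
    om d (c • v) w = c * om d v w := by
  have e1 : ∀ (b x : U → F), ∑ u, b u * (c * x u) = c * ∑ u, b u * x u := by
    intro b x
    rw [Finset.mul_sum]
    exact Finset.sum_congr rfl fun u _ => by ring
  have e2 : ∀ (b x : J → F), ∑ u, b u * (c * x u) = c * ∑ u, b u * x u := by
    intro b x
    rw [Finset.mul_sum]
    exact Finset.sum_congr rfl fun u _ => by ring
  unfold om
  simp only [Prod.smul_fst, Prod.smul_snd, Pi.smul_apply, smul_eq_mul, mul_assoc c, e1, e2]
  ring

theorem om_self (d : Dat U J) (v : (U → F) × (J → F)) : om d v v = 0 := by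
  have hsq : ∀ x : F, x * x = x := by decide
  unfold om
  simp only [hsq]
  exact CharTwo.add_self_eq_zero _

/-- the form as a bilinear map -/
noncomputable def omL (d : Dat U J) (i : J) : K0 d i →ₗ[F] K0 d i →ₗ[F] F :=
  LinearMap.mk₂ F (fun v w => om d v w)
    (fun v v' w => om_add_left d v v' w)
    (fun c v w => om_smul_left d c v w)
    (fun v w w' => by
      show om d v (w + w') = _
      rw [om_comm, om_add_left, om_comm d w, om_comm d w'])
    (fun c v w => by
      show om d v (c • w) = _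
      rw [om_comm, om_smul_left, om_comm d w]
      rfl)

theorem omL_apply (d : Dat U J) (i : J) (v w : K0 d i) : omL d i v w = om d v w := rfl

theorem card_K0 (d : Dat U J) (i : J) [Fintype (K0 d i)] :
    Fintype.card (K0 d i) = (KK d i).card := by
  rw [← Nat.card_eq_fintype_card, ← Nat.card_eq_finsetCard]
  exact (Nat.card_congr (Equiv.subtypeEquivRight fun z => mem_KK d i z)).symm

theorem card_IK (d : Dat U J) (i : J) (k : ℕ) [Fintype (K0 d i)] :
    (univ.filter fun z : Fin k → K0 d i => ∀ s t, omL d i (z s) (z t) = 0).card =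
      (IK d i k).card := by
  refine Finset.card_bij (fun z _ s => (z s : (U → F) × (J → F))) ?_ ?_ ?_
  · intro z hz
    rw [mem_filter] at hz
    unfold IK
    rw [mem_filter]
    exact ⟨mem_univ _, fun s => (mem_KK d i _).2 (z s).2, hz.2⟩
  · intro z _ z' _ h
    funext s
    exact Subtype.ext (congrFun h s)
  · intro z hz
    unfold IK at hz
    rw [mem_filter] at hz
    exact ⟨fun s => ⟨z s, (mem_KK d i _).1 (hz.2.1 s)⟩, mem_filter.2 ⟨mem_univ _, hz.2.2⟩, rfl⟩

theorem card_rad (d : Dat U J) (i : J) [Fintype (K0 d i)] :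
    (univ.filter fun v : K0 d i => ∀ w, omL d i v w = 0).card =
      ((KK d i).filter fun v => ∀ w ∈ KK d i, om d v w = 0).card := by
  refine Finset.card_bij (fun v _ => (v : (U → F) × (J → F))) ?_ ?_ ?_
  · intro v hv
    rw [mem_filter] at hv ⊢
    exact ⟨(mem_KK d i _).2 v.2, fun w hw => hv.2 ⟨w, (mem_KK d i _).1 hw⟩⟩
  · intro v _ v' _ h
    exact Subtype.ext h
  · intro v hv
    rw [mem_filter] at hv
    exact ⟨⟨v, (mem_KK d i _).1 hv.1⟩, mem_filter.2 ⟨mem_univ _, fun w =>
      hv.2 w ((mem_KK d i _).2 w.2)⟩, rfl⟩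

end

end Pool.Agent.NH3.XD.MM

namespace Pool.Agent.NH3.XD

open Finset MM
open Pool.Agent.Y703.CQ (prs)
open Pool.Agent.NH4.PJ (inj)

theorem t_XMOM : S_XMOM := by
  intro hSYS hPRB hRAD hISO k
  obtain ⟨C, hC0, hC⟩ := hISO k
  refine ⟨2 ^ (k * (k - 1) / 2) * (2 ^ (k + 1) + 2 * C), by positivity, ?_⟩
  intro U J _ _ _ d hd i hi
  let _ : Fintype (K0 d i) := Fintype.ofFinite _
  have hI := hC (K0 d i) (omL d i) (fun v => om_self d v) (fun v w => om_comm d v w)
  rw [card_IK, card_K0, card_rad] at hI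
  have hR := hRAD U J d hd i hi
  have hq := (hSYS U J d hd i).2 hi
  have hS := sum_Az hPRB d hd i hi k
  rw [← sum_inj] at hS
  obtain ⟨hQI, hIQ⟩ := card_QI d i k
  have hD := card_DK d i k
  have hJ1 : 1 ≤ Fintype.card J := Fintype.card_pos_iff.2 ⟨i⟩
  have hT : (univ.filter fun l => d.bJ l = 1).card ≤ Fintype.card J := Finset.card_le_univ _
  -- names
  obtain ⟨S, eS⟩ : ∃ S : ℝ, S = ∑ α : prs (univ : Finset J) → F, inj k (nkL d i α) := ⟨_, rfl⟩
  obtain ⟨q, eq⟩ : ∃ q : ℝ, q = ((KK d i).card : ℝ) := ⟨_, rfl⟩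
  obtain ⟨P, eP⟩ : ∃ P : ℝ, P = 2 ^ (prs (univ : Finset J)).card := ⟨_, rfl⟩
  obtain ⟨E, eE⟩ : ∃ E : ℝ, E = 2 ^ (k * (k - 1) / 2) := ⟨_, rfl⟩
  obtain ⟨Q, eQ⟩ : ∃ Q : ℝ, Q = ((QK d i k).card : ℝ) := ⟨_, rfl⟩
  obtain ⟨I, eI⟩ : ∃ I : ℝ, I = ((IK d i k).card : ℝ) := ⟨_, rfl⟩
  obtain ⟨D, eD⟩ : ∃ D : ℝ, D = ((DK d i k).card : ℝ) := ⟨_, rfl⟩
  obtain ⟨ρ, eρ⟩ : ∃ ρ : ℝ, ρ = (((KK d i).filter fun v => ∀ w ∈ KK d i, om d v w = 0).card : ℝ) :=
    ⟨_, rfl⟩
  obtain ⟨u, eu⟩ : ∃ u : ℕ, u = Fintype.card U := ⟨_, rfl⟩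
  obtain ⟨T, eT⟩ : ∃ T : ℕ, T = (univ.filter fun l => d.bJ l = 1).card := ⟨_, rfl⟩
  have hqq : q = 2 ^ (Fintype.card J - 1) := by
    rw [eq, hq]
    push_cast
    rfl
  have hq0 : 0 < q := by rw [hqq]; positivity
  have hP0 : 0 < P := by rw [eP]; positivity
  have hE0 : 0 < E := by rw [eE]; positivity
  have hD0 : 0 ≤ D := by rw [eD]; positivity
  have hρ0 : 0 ≤ ρ := by rw [eρ]; positivity
  have hqT : (2 : ℝ) ^ T ≤ 2 * q := by
    rw [hqq, ← pow_succ', Nat.sub_add_cancel hJ1, eT]
    exact pow_le_pow_right₀ (by norm_num) hT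
  have h1 : S / P = E * Q / q ^ k := by
    rw [div_eq_div_iff hP0.ne' (by positivity)]
    rw [← eS, ← eP, ← eE, ← eQ, pow_mul, ← hqq] at hS
    rw [hS]
    ring
  have h2 : |Q - I| ≤ D := by
    have a1 : Q ≤ I := by rw [eQ, eI]; exact_mod_cast hQI
    have a2 : I ≤ Q + D := by rw [eQ, eI, eD]; exact_mod_cast hIQ
    rw [abs_le]
    constructor <;> linarith
  have h3 : D * q ≤ 2 ^ k * (2 ^ u * q ^ k) := by
    rw [eD, eq, eu]
    exact_mod_cast hD
  rw [← eI, ← eq, ← eρ, ← eE] at hI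
  rw [← eρ, ← eu, ← eT, ← hqq] at hR
  rw [← eS, ← eP, ← eu, ← eT, ← eE, h1]
  have h4 : |Q - q ^ k / E| ≤ D + C * q ^ k * (ρ / q) := by
    have : Q - q ^ k / E = (Q - I) + (I - q ^ k / E) := by ring
    rw [this]
    exact (abs_add_le _ _).trans (add_le_add h2 hI)
  have h5 : |E * Q / q ^ k - 1| = E / q ^ k * |Q - q ^ k / E| := by
    have : E * Q / q ^ k - 1 = E / q ^ k * (Q - q ^ k / E) := by
      field_simp
    rw [this, abs_mul, abs_of_pos (by positivity)]
  rw [h5]
  have h6 : D / q ^ k ≤ 2 ^ (k + 1) * 2 ^ u / 2 ^ T := by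
    rw [div_le_div_iff₀ (by positivity) (by positivity)]
    have a1 : D * 2 ^ T ≤ D * (2 * q) := mul_le_mul_of_nonneg_left hqT hD0
    calc D * 2 ^ T ≤ D * (2 * q) := a1
      _ = 2 * (D * q) := by ring
      _ ≤ 2 * (2 ^ k * (2 ^ u * q ^ k)) := by linarith
      _ = _ := by ring
  have h7 : ρ / q ≤ 2 * 2 ^ (2 * u) / 2 ^ T := by
    rw [div_le_div_iff₀ hq0 (by positivity)]
    rw [le_div_iff₀ (by positivity)] at hR
    calc ρ * 2 ^ T ≤ 2 ^ (2 * u + 1) * q := hR
      _ = _ := by ring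
  have h8 : (2 : ℝ) ^ u ≤ 2 ^ (2 * u) := pow_le_pow_right₀ (by norm_num) (by omega)
  calc E / q ^ k * |Q - q ^ k / E| ≤ E / q ^ k * (D + C * q ^ k * (ρ / q)) := by gcongr
    _ = E * (D / q ^ k + C * (ρ / q)) := by
        field_simp
    _ ≤ E * (2 ^ (k + 1) * 2 ^ (2 * u) / 2 ^ T + C * (2 * 2 ^ (2 * u) / 2 ^ T)) := by
        have : D / q ^ k ≤ 2 ^ (k + 1) * 2 ^ (2 * u) / 2 ^ T := by
          refine h6.trans ?_
          gcongr
        gcongr
    _ = _ := by ring

end Pool.Agent.NH3.XD
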