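import Pool.Agent.NH3.XD.Stm
import Pool.Agent.NH4.PJ.M1

/-!
# Project XD, job XV-D2: the probability that a family of vectors solves the large rows
-/

set_option autoImplicit false
set_option linter.unusedSectionVars false
set_option linter.unusedVariables false

open scoped Classical

namespace Pool.Agent.NH3.XD

open Finset
open Pool.Agent.Y703.CQ (prs)
open Pool.Agent.NH5.PR (ex2)
open Pool.Agent.NH4.PJ (Dep)
open Pool.Agent.NH4.PJ.M1 (s2 s2_zero s2_add sum_s2 mem_prs tt ex2_eq cx cx_of cx_inj Ac Bc count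
  dep_of)

namespace PRB

/-! ### the alternating form of the Laplacian -/

theorem bil {I : Type} [Fintype I] (M : I → I → ZMod 2) (b : I → ZMod 2)
    (hM : ∀ p q, p ≠ q → M p q + M q p = b p * b q) (v w : I → ZMod 2) :
    ∑ p, w p * ∑ q, M p q * (v q + v p) + ∑ p, v p * ∑ q, M p q * (w q + w p) =
      (∑ p, b p * v p) * (∑ p, b p * w p) + ∑ p, b p * (v p * w p) := by
  have h1 : ∑ p, w p * ∑ q, M p q * (v q + v p) + ∑ p, v p * ∑ q, M p q * (w q + w p) =
      ∑ p, ∑ q, M p q * (w p * v q) + ∑ p, ∑ q, M p q * (v p * w q) := by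
    rw [← Finset.sum_add_distrib, ← Finset.sum_add_distrib]
    refine Finset.sum_congr rfl fun p _ => ?_
    rw [Finset.mul_sum, Finset.mul_sum, ← Finset.sum_add_distrib, ← Finset.sum_add_distrib]
    refine Finset.sum_congr rfl fun q _ => ?_
    have h2 : ∀ m a b c e : ZMod 2, b * (m * (a + c)) + c * (m * (e + b)) =
        m * (b * a) + m * (c * e) := by decide
    exact h2 _ _ _ _ _
  have h3 : ∑ p, ∑ q, M p q * (v p * w q) = ∑ p, ∑ q, M q p * (w p * v q) := by
    rw [Finset.sum_comm]
    exact Finset.sum_congr rfl fun p _ => Finset.sum_congr rfl fun q _ => by ring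
  rw [h1, h3, ← Finset.sum_add_distrib]
  have h4 : ∀ p q, M p q * (w p * v q) + M q p * (w p * v q) =
      b q * v q * (b p * w p) + (if q = p then b p * (v p * w p) else 0) := by
    intro p q
    by_cases hpq : p = q
    · rw [if_pos hpq.symm, hpq]
      have h5 : ∀ m b v w : ZMod 2, m * (w * v) + m * (w * v) =
          b * v * (b * w) + b * (v * w) := by decide
      exact h5 _ _ _ _
    · rw [if_neg (fun h => hpq h.symm), ← add_mul, hM p q hpq]
      ring
  have h6 : ∀ p, ∑ q, M p q * (w p * v q) + ∑ q, M q p * (w p * v q) =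
      (∑ q, b q * v q) * (b p * w p) + b p * (v p * w p) := by
    intro p
    rw [← Finset.sum_add_distrib]
    simp_rw [h4]
    rw [Finset.sum_add_distrib, ← Finset.sum_mul]
    congr 1
    rw [Finset.sum_ite_eq' univ p, if_pos (mem_univ _)]
  simp_rw [h6]
  rw [Finset.sum_add_distrib, ← Finset.mul_sum]

section form

variable {U J : Type} [Fintype U] [Fintype J] [LinearOrder J]

/-- the matrix of the system, with the free symbols zero -/
noncomputable def MM (d : Dat U J) : U ⊕ J → U ⊕ J → ZMod 2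
  | Sum.inl u, Sum.inl v => d.A u v
  | Sum.inl u, Sum.inr l => d.B u l
  | Sum.inr k, Sum.inl u => d.C k u
  | Sum.inr k, Sum.inr l => tt (fun k l => d.bJ k * d.bJ l) k l

theorem MM_rec (d : Dat U J) (hd : d.Good) (p q : U ⊕ J) (hpq : p ≠ q) :
    MM d p q + MM d q p = Sum.elim d.bU d.bJ p * Sum.elim d.bU d.bJ q := by
  rcases p with u | k <;> rcases q with v | l
  · exact hd.rA u v (fun h => hpq (by rw [h]))
  · exact hd.rB u l
  · show d.C k v + d.B v k = d.bJ k * d.bU v
    rw [add_comm, hd.rB v k, mul_comm]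
  · have hkl : k ≠ l := fun h => hpq (by rw [h])
    show tt (fun k l => d.bJ k * d.bJ l) k l + tt (fun k l => d.bJ k * d.bJ l) l k =
      d.bJ k * d.bJ l
    unfold tt
    rcases lt_or_gt_of_ne hkl with h | h
    · rw [if_pos h, if_neg h.not_gt, add_zero]
    · rw [if_neg h.not_gt, if_pos h, zero_add, mul_comm]

/-- the large part of the bilinear form -/
noncomputable def GG (d : Dat U J) (v w : (U → ZMod 2) × (J → ZMod 2)) : ZMod 2 :=
  ∑ k, w.2 k * (∑ u, d.C k u * (v.1 u + v.2 k) +
    ∑ l, tt (fun k l => d.bJ k * d.bJ l) k l * (v.2 l + v.2 k))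

theorem GG_eq (d : Dat U J) (v w : (U → ZMod 2) × (J → ZMod 2)) (hv : Sml d v.1 v.2) :
    GG d v w = ∑ p, Sum.elim w.1 w.2 p *
      ∑ q, MM d p q * (Sum.elim v.1 v.2 q + Sum.elim v.1 v.2 p) := by
  rw [Fintype.sum_sum_type]
  have h1 : ∑ u : U, Sum.elim w.1 w.2 (Sum.inl u) * ∑ q, MM d (Sum.inl u) q *
      (Sum.elim v.1 v.2 q + Sum.elim v.1 v.2 (Sum.inl u)) = 0 := by
    refine Finset.sum_eq_zero fun u _ => ?_
    rw [Fintype.sum_sum_type]
    show w.1 u * (∑ x, d.A u x * (v.1 x + v.1 u) + ∑ l, d.B u l * (v.2 l + v.1 u)) = 0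
    rw [hv u, mul_zero]
  rw [h1, zero_add]
  unfold GG
  refine Finset.sum_congr rfl fun k _ => ?_
  rw [Fintype.sum_sum_type]
  rfl

theorem GG_om (d : Dat U J) (hd : d.Good) (v w : (U → ZMod 2) × (J → ZMod 2))
    (hv : Sml d v.1 v.2) (hw : Sml d w.1 w.2) : GG d v w + GG d w v = om d v w := by
  rw [GG_eq d v w hv, GG_eq d w v hw,
    bil (MM d) (Sum.elim d.bU d.bJ) (MM_rec d hd) (Sum.elim v.1 v.2) (Sum.elim w.1 w.2)]
  simp only [Fintype.sum_sum_type, Sum.elim_inl, Sum.elim_inr]
  rfl

theorem om_self (d : Dat U J) (v : (U → ZMod 2) × (J → ZMod 2)) : om d v v = 0 := by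
  unfold om
  have h1 : ∀ a : ZMod 2, a * a = a := by decide
  have h2 : ∀ a : ZMod 2, a + a = 0 := by decide
  simp_rw [h1]
  exact h2 _

theorem om_comm (d : Dat U J) (v w : (U → ZMod 2) × (J → ZMod 2)) : om d v w = om d w v := by
  unfold om
  rw [mul_comm (∑ u, d.bU u * v.1 u + ∑ l, d.bJ l * v.2 l)]
  simp_rw [mul_comm (v.1 _), mul_comm (v.2 _)]

end form

/-! ### the alternating matrices -/

section alt

variable {n : ℕ}

/-- the symmetric matrix with zero diagonal -/
noncomputable def am (a : prs (univ : Finset (Fin n)) → ZMod 2) (s t : Fin n) : ZMod 2 :=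
  ex2 (fun _ _ => 0) a s t

theorem am_lt (a : prs (univ : Finset (Fin n)) → ZMod 2) (s t : Fin n) (h : s < t) :
    am a s t = a ⟨(s, t), (mem_prs s t).2 h⟩ := by
  unfold am ex2
  have h1 : (t, s) ∉ prs (univ : Finset (Fin n)) := fun h2 => absurd ((mem_prs t s).1 h2) h.not_gt
  rw [dif_neg h1, dif_pos ((mem_prs s t).2 h), add_zero]

theorem am_gt (a : prs (univ : Finset (Fin n)) → ZMod 2) (s t : Fin n) (h : t < s) :
    am a s t = a ⟨(t, s), (mem_prs t s).2 h⟩ := by
  unfold am ex2
  rw [dif_pos ((mem_prs t s).2 h)]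

theorem am_self (a : prs (univ : Finset (Fin n)) → ZMod 2) (s : Fin n) : am a s s = 0 := by
  unfold am ex2
  have h1 : (s, s) ∉ prs (univ : Finset (Fin n)) := fun h2 =>
    absurd ((mem_prs s s).1 h2) (lt_irrefl _)
  rw [dif_neg h1, dif_neg h1]

theorem am_symm (a : prs (univ : Finset (Fin n)) → ZMod 2) (s t : Fin n) :
    am a s t = am a t s := by
  rcases lt_trichotomy s t with h | h | h
  · rw [am_lt a s t h, am_gt a t s h]
  · rw [h]
  · rw [am_gt a s t h, am_lt a t s h]

theorem am_of (A : Fin n → Fin n → ZMod 2) (h1 : ∀ s t, A s t = A t s) (h2 : ∀ s, A s s = 0)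
    (s t : Fin n) : am (fun p => A p.1.1 p.1.2) s t = A s t := by
  rcases lt_trichotomy s t with h | h | h
  · rw [am_lt _ s t h]
  · rw [h, am_self, h2]
  · rw [am_gt _ s t h, h1 s t]

theorem sum_am (a : prs (univ : Finset (Fin n)) → ZMod 2) (G : Fin n → Fin n → ZMod 2) :
    ∑ s, ∑ t, am a s t * G s t =
      ∑ p : prs (univ : Finset (Fin n)), a p * (G p.1.1 p.1.2 + G p.1.2 p.1.1) := by
  have h1 : ∀ s t, am a s t * G s t = ∑ p : prs (univ : Finset (Fin n)), a p *
      ((if (p : Fin n × Fin n) = (t, s) then G s t else 0) +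
        (if (p : Fin n × Fin n) = (s, t) then G s t else 0)) := by
    intro s t
    unfold am
    rw [ex2_eq]
    have h2 : tt (fun _ _ : Fin n => (0 : ZMod 2)) s t = 0 := by
      unfold tt
      split_ifs <;> rfl
    rw [h2, zero_add, Finset.sum_mul]
    refine Finset.sum_congr rfl fun p _ => ?_
    rw [mul_assoc, add_mul, ite_mul, ite_mul, one_mul, zero_mul]
  simp_rw [h1]
  have h3 : ∀ s, ∑ t, ∑ p : prs (univ : Finset (Fin n)), a p *
      ((if (p : Fin n × Fin n) = (t, s) then G s t else 0) +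
        (if (p : Fin n × Fin n) = (s, t) then G s t else 0)) =
      ∑ p : prs (univ : Finset (Fin n)), ∑ t, a p *
      ((if (p : Fin n × Fin n) = (t, s) then G s t else 0) +
        (if (p : Fin n × Fin n) = (s, t) then G s t else 0)) := fun s => Finset.sum_comm
  simp_rw [h3]
  rw [Finset.sum_comm]
  refine Finset.sum_congr rfl fun p _ => ?_
  simp_rw [← Finset.mul_sum]
  congr 1
  obtain ⟨⟨x, z⟩, hp⟩ := p
  simp only [Finset.sum_add_distrib, Prod.mk.injEq]
  rw [add_comm]
  congr 1
  · rw [Finset.sum_eq_single x]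
    · rw [Finset.sum_eq_single z]
      · rw [if_pos ⟨rfl, rfl⟩]
      · intro l _ hl
        rw [if_neg (fun h => hl h.2.symm)]
      · intro h
        exact absurd (mem_univ _) h
    · intro k _ hk
      refine Finset.sum_eq_zero fun l _ => ?_
      rw [if_neg (fun h => hk h.1.symm)]
    · intro h
      exact absurd (mem_univ _) h
  · rw [Finset.sum_eq_single z]
    · rw [Finset.sum_eq_single x]
      · rw [if_pos ⟨rfl, rfl⟩]
      · intro l _ hl
        rw [if_neg (fun h => hl h.1.symm)]
      · intro h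
        exact absurd (mem_univ _) h
    · intro k _ hk
      refine Finset.sum_eq_zero fun l _ => ?_
      rw [if_neg (fun h => hk h.2.symm)]
    · intro h
      exact absurd (mem_univ _) h

theorem card_prs (n : ℕ) : (prs (univ : Finset (Fin n))).card = n * (n - 1) / 2 := by
  have h1 : prs (univ : Finset (Fin n)) = univ.filter fun p : Fin n × Fin n => p.1 < p.2 := by
    ext ⟨k, l⟩
    rw [mem_prs, mem_filter]
    exact ⟨fun h => ⟨mem_univ _, h⟩, fun h => h.2⟩
  rw [h1, Finset.card_filter, Fintype.sum_prod_type_right]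
  have h2 : ∀ l : Fin n, (∑ k : Fin n, if (k, l).1 < (k, l).2 then 1 else 0) = (l : ℕ) := by
    intro l
    rw [← Finset.card_filter]
    have h3 : (univ.filter fun k : Fin n => (k, l).1 < (k, l).2) = Finset.Iio l := by
      ext k
      simp
    rw [h3, Fin.card_Iio]
  simp_rw [h2]
  rw [Fin.sum_univ_eq_sum_range (fun x => x) n, Finset.sum_range_id]

end alt

/-! ### the sum over the dual code -/

theorem gen {J S P : Type} [Fintype J] [LinearOrder J] [Fintype S] [Fintype P] (JR : Finset J)
    (t : J → J → ZMod 2) (y c0 : J → S → ZMod 2) (Φ : (P → ZMod 2) → J → S → ZMod 2)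
    (hinj : Function.Injective Φ) (hD : ∀ a, Dep JR y (Φ a))
    (hsurj : ∀ c, Dep JR y c → ∃ a, Φ a = c) (hl : ∃ l, l ∉ JR ∧ y l = 0) (ω : P → ZMod 2)
    (hA : ∀ a, ∑ k, ∑ s, Φ a k s * (c0 k s + ∑ l, tt t k l * (y l s + y k s)) =
      ∑ p, a p * ω p) :
    ((univ.filter fun α : prs (univ : Finset J) → ZMod 2 => ∀ k ∈ JR, ∀ s,
      c0 k s + ∑ l, ex2 t α k l * (y l s + y k s) = 0).card : ℤ) *
        2 ^ (JR.card * Fintype.card S) =
    2 ^ (prs (univ : Finset J)).card * (if ω = 0 then 2 ^ Fintype.card P else 0) := by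
  rw [count, ← sum_s2 ω, Finset.mul_sum]
  symm
  rw [← Finset.sum_filter_add_sum_filter_not univ
    (fun c : JR × S → ZMod 2 => (fun p : prs (univ : Finset J) => Bc JR y c p) = 0)]
  have h0 : ∑ c ∈ univ.filter (fun c : JR × S → ZMod 2 =>
      ¬ (fun p : prs (univ : Finset J) => Bc JR y c p) = 0), s2 (Ac JR t y c0 c) *
      (if (fun p : prs (univ : Finset J) => Bc JR y c p) = 0 then
        (2 : ℤ) ^ (prs (univ : Finset J)).card else 0) = 0 := by
    refine Finset.sum_eq_zero fun c hc => ?_
    rw [if_neg (mem_filter.1 hc).2, mul_zero]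
  rw [h0, add_zero]
  have hcx : ∀ a, cx JR (fun x : JR × S => Φ a x.1 x.2) = Φ a := by
    intro a
    funext k s
    by_cases hk : k ∈ JR
    · unfold cx
      rw [dif_pos hk]
    · rw [cx_of JR _ k hk, (hD a).1 k hk]
  refine Finset.sum_bij (fun a _ => fun x : JR × S => Φ a x.1 x.2) ?_ ?_ ?_ ?_
  · intro a _
    rw [mem_filter]
    refine ⟨mem_univ _, ?_⟩
    funext p
    unfold Bc
    rw [hcx a]
    obtain ⟨-, h2, h3⟩ := hD a
    have h4 : ∑ s, (Φ a p.1.2 s * (y p.1.1 s + y p.1.2 s) + Φ a p.1.1 s * (y p.1.2 s + y p.1.1 s)) =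
        ∑ s, Φ a p.1.2 s * y p.1.1 s + ∑ s, Φ a p.1.2 s * y p.1.2 s +
          (∑ s, Φ a p.1.1 s * y p.1.2 s + ∑ s, Φ a p.1.1 s * y p.1.1 s) := by
      rw [← Finset.sum_add_distrib, ← Finset.sum_add_distrib, ← Finset.sum_add_distrib]
      exact Finset.sum_congr rfl fun s _ => by ring
    rw [h4, h2, h2, add_zero, add_zero, h3 p.1.2 p.1.1]
    have h5 : ∀ x : ZMod 2, x + x = 0 := by decide
    exact h5 _
  · intro a _ b _ hab
    apply hinj
    rw [← hcx a, ← hcx b]
    exact congrArg (cx JR) hab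
  · intro c hc
    obtain ⟨a, ha⟩ := hsurj _ (dep_of JR y hl c (mem_filter.1 hc).2)
    refine ⟨a, mem_univ _, ?_⟩
    apply cx_inj JR
    show cx JR (fun x : JR × S => Φ a x.1 x.2) = cx JR c
    rw [hcx a, ha]
  · intro a ha
    have h6 : (fun p : prs (univ : Finset J) => Bc JR y (fun x : JR × S => Φ a x.1 x.2) p) = 0 := by
      funext p
      unfold Bc
      rw [hcx a]
      obtain ⟨-, h2, h3⟩ := hD a
      have h4 : ∑ s, (Φ a p.1.2 s * (y p.1.1 s + y p.1.2 s) +
          Φ a p.1.1 s * (y p.1.2 s + y p.1.1 s)) =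
          ∑ s, Φ a p.1.2 s * y p.1.1 s + ∑ s, Φ a p.1.2 s * y p.1.2 s +
            (∑ s, Φ a p.1.1 s * y p.1.2 s + ∑ s, Φ a p.1.1 s * y p.1.1 s) := by
        rw [← Finset.sum_add_distrib, ← Finset.sum_add_distrib, ← Finset.sum_add_distrib]
        exact Finset.sum_congr rfl fun s _ => by ring
      rw [h4, h2, h2, add_zero, add_zero, h3 p.1.2 p.1.1]
      have h5 : ∀ x : ZMod 2, x + x = 0 := by decide
      exact h5 _
    rw [if_pos h6, mul_comm]
    congr 2
    unfold Ac
    rw [hcx a, hA a]

/-! ### the dependencies of a family with independent large parts -/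

theorem left_inv {J : Type} [Fintype J] {n : ℕ} (v : Fin n → J → ZMod 2)
    (hv : LinearIndependent (ZMod 2) v) :
    ∃ w : Fin n → J → ZMod 2, ∀ s t, ∑ l, w s l * v t l = if t = s then 1 else 0 := by
  have hker : LinearMap.ker (Fintype.linearCombination (ZMod 2) v) = ⊥ := by
    rw [LinearMap.ker_eq_bot']
    intro g hg
    rw [Fintype.linearCombination_apply] at hg
    funext s
    exact (Fintype.linearIndependent_iff.1 hv) g hg s
  obtain ⟨f, hf⟩ := (Fintype.linearCombination (ZMod 2) v).exists_leftInverse_of_injective hker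
  refine ⟨fun s l => f (fun j => if l = j then 1 else 0) s, fun s t => ?_⟩
  have h1 : f (v t) = Pi.single t 1 := by
    have h2 := LinearMap.congr_fun hf (Pi.single t 1)
    rw [LinearMap.comp_apply, Fintype.linearCombination_apply_single, one_smul] at h2
    exact h2
  have h3 := congrFun (LinearMap.pi_apply_eq_sum_univ f (v t)) s
  rw [h1, Finset.sum_apply] at h3
  simp only [Pi.smul_apply, smul_eq_mul] at h3
  have h4 : ∑ l, f (fun j => if l = j then 1 else 0) s * v t l =
      ∑ l, v t l * f (fun j => if l = j then 1 else 0) s :=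
    Finset.sum_congr rfl fun l _ => mul_comm _ _
  rw [h4, ← h3, Pi.single_apply]
  simp only [eq_comm]

/-- the dependency of an alternating matrix -/
noncomputable def ca {J : Type} {n : ℕ} (y : J → Fin n → ZMod 2)
    (a : prs (univ : Finset (Fin n)) → ZMod 2) (k : J) (s : Fin n) : ZMod 2 :=
  ∑ t, am a s t * y k t

section dep

variable {J : Type} [Fintype J] {n : ℕ} (JR : Finset J) (y : J → Fin n → ZMod 2)

theorem ca_dep (h0 : ∀ k, k ∉ JR → y k = 0) (a : prs (univ : Finset (Fin n)) → ZMod 2) :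
    Dep JR y (ca y a) := by
  refine ⟨fun k hk => ?_, fun k => ?_, fun k l => ?_⟩
  · funext s
    unfold ca
    refine Finset.sum_eq_zero fun t _ => ?_
    rw [h0 k hk]
    exact mul_zero _
  · have h1 : ∑ s, ca y a k s * y k s = ∑ s, ∑ t, am a s t * (y k t * y k s) := by
      refine Finset.sum_congr rfl fun s _ => ?_
      unfold ca
      rw [Finset.sum_mul]
      exact Finset.sum_congr rfl fun t _ => by ring
    rw [h1, sum_am a (fun s t => y k t * y k s)]
    refine Finset.sum_eq_zero fun p _ => ?_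
    have h2 : ∀ a x z : ZMod 2, a * (z * x + x * z) = 0 := by decide
    exact h2 _ _ _
  · have h1 : ∀ k l, ∑ s, ca y a k s * y l s = ∑ s, ∑ t, am a s t * (y k t * y l s) := by
      intro k l
      refine Finset.sum_congr rfl fun s _ => ?_
      unfold ca
      rw [Finset.sum_mul]
      exact Finset.sum_congr rfl fun t _ => by ring
    rw [h1, h1, Finset.sum_comm]
    refine Finset.sum_congr rfl fun t _ => Finset.sum_congr rfl fun s _ => ?_
    rw [am_symm a s t]
    ring

theorem ca_inj (w : Fin n → J → ZMod 2)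
    (hw : ∀ s t, ∑ l, w s l * y l t = if t = s then 1 else 0) :
    Function.Injective (ca y) := by
  have h1 : ∀ a s t, ∑ k, w t k * ca y a k s = am a s t := by
    intro a s t
    have h2 : ∀ k, w t k * ca y a k s = ∑ r, am a s r * (w t k * y k r) := by
      intro k
      unfold ca
      rw [Finset.mul_sum]
      exact Finset.sum_congr rfl fun r _ => by ring
    simp_rw [h2]
    rw [Finset.sum_comm]
    simp_rw [← Finset.mul_sum, hw]
    simp
  intro a b hab
  funext p
  obtain ⟨⟨s, t⟩, hp⟩ := p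
  have hst := (mem_prs s t).1 hp
  have h2 := h1 a s t
  rw [hab, h1 b s t, am_lt b s t hst, am_lt a s t hst] at h2
  exact h2.symm

theorem ca_surj (w : Fin n → J → ZMod 2)
    (hw : ∀ s t, ∑ l, w s l * y l t = if t = s then 1 else 0) (c : J → Fin n → ZMod 2)
    (hc : Dep JR y c) : ∃ a, ca y a = c := by
  obtain ⟨hc1, hc2, hc3⟩ := hc
  -- the matrix
  obtain ⟨A, hAd⟩ : ∃ A : Fin n → Fin n → ZMod 2, ∀ t s, A t s = ∑ l, w t l * c l s :=
    ⟨_, fun t s => rfl⟩
  have hcA : ∀ k t, c k t = ∑ s, A t s * y k s := by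
    intro k t
    have h1 : ∑ l, w t l * ∑ s, c k s * y l s = ∑ l, w t l * ∑ s, c l s * y k s :=
      Finset.sum_congr rfl fun l _ => by rw [hc3 k l]
    have h2 : ∑ l, w t l * ∑ s, c k s * y l s = c k t := by
      have h3 : ∀ l, w t l * ∑ s, c k s * y l s = ∑ s, c k s * (w t l * y l s) := by
        intro l
        rw [Finset.mul_sum]
        exact Finset.sum_congr rfl fun r _ => by ring
      simp_rw [h3]
      rw [Finset.sum_comm]
      simp_rw [← Finset.mul_sum, hw]
      simp
    have h4 : ∑ l, w t l * ∑ s, c l s * y k s = ∑ s, A t s * y k s := by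
      have h3 : ∀ l, w t l * ∑ s, c l s * y k s = ∑ s, (w t l * c l s) * y k s := by
        intro l
        rw [Finset.mul_sum]
        exact Finset.sum_congr rfl fun r _ => by ring
      simp_rw [h3]
      rw [Finset.sum_comm]
      simp_rw [← Finset.sum_mul, ← hAd]
    rw [← h2, h1, h4]
  have hproj : ∀ (g : Fin n → ZMod 2) (t : Fin n), ∑ l, w t l * ∑ s, g s * y l s = g t := by
    intro g t
    have h3 : ∀ l, w t l * ∑ s, g s * y l s = ∑ s, g s * (w t l * y l s) := by
      intro l
      rw [Finset.mul_sum]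
      exact Finset.sum_congr rfl fun r _ => by ring
    simp_rw [h3]
    rw [Finset.sum_comm]
    simp_rw [← Finset.mul_sum, hw]
    simp
  have hsym : ∀ s t, A s t = A t s := by
    -- `∑ s, c k s y l s` is symmetric
    intro a b
    have h1 : ∀ k l, ∑ s, c k s * y l s = ∑ s, c l s * y k s := hc3
    have h2 : ∀ k, ∑ l, w a l * ∑ s, c k s * y l s = c k a := fun k => hproj (c k) a
    have h3 : ∀ k, ∑ l, w a l * ∑ s, c l s * y k s = c k a := by
      intro k
      rw [← h2 k]
      exact Finset.sum_congr rfl fun l _ => by rw [h1 k l]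
    -- `A b a = ∑ k, w b k c k a`
    have h4 : A b a = ∑ k, w b k * ∑ l, w a l * ∑ s, c l s * y k s := by
      rw [hAd]
      exact Finset.sum_congr rfl fun k _ => by rw [h3 k]
    have h5 : ∑ k, w b k * ∑ l, w a l * ∑ s, c l s * y k s =
        ∑ l, w a l * ∑ k, w b k * ∑ s, c l s * y k s := by
      simp_rw [Finset.mul_sum]
      rw [Finset.sum_comm]
      refine Finset.sum_congr rfl fun l _ => Finset.sum_congr rfl fun k _ =>
        Finset.sum_congr rfl fun s _ => by ring
    rw [h4, h5]
    have h6 : ∀ l, ∑ k, w b k * ∑ s, c l s * y k s = c l b := fun l => hproj (c l) b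
    simp_rw [h6]
    rw [hAd]
  have hdiag : ∀ s, A s s = 0 := by
    have h1 : ∀ k, ∑ s, A s s * y k s = 0 := by
      intro k
      have h2 := hc2 k
      have h3 : ∑ s, c k s * y k s = ∑ s, ∑ t, A s t * (y k t * y k s) := by
        refine Finset.sum_congr rfl fun s _ => ?_
        rw [hcA k s, Finset.sum_mul]
        exact Finset.sum_congr rfl fun t _ => by ring
      have h4 : ∀ s t, A s t = am (fun p => A p.1.1 p.1.2) s t + if t = s then A s s else 0 := by
        intro s t
        rcases lt_trichotomy s t with h | h | h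
        · rw [am_lt _ s t h, if_neg h.ne', add_zero]
        · rw [h, am_self, if_pos rfl, zero_add]
        · rw [am_gt _ s t h, if_neg h.ne, add_zero, hsym s t]
      have h5 : ∑ s, ∑ t, A s t * (y k t * y k s) =
          ∑ s, ∑ t, am (fun p => A p.1.1 p.1.2) s t * (y k t * y k s) +
            ∑ s, A s s * y k s := by
        rw [← Finset.sum_add_distrib]
        refine Finset.sum_congr rfl fun s _ => ?_
        have h6 : ∀ t, A s t * (y k t * y k s) =
            am (fun p => A p.1.1 p.1.2) s t * (y k t * y k s) +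
              (if t = s then A s s * (y k s * y k s) else 0) := by
          intro t
          rw [h4 s t, add_mul]
          congr 1
          split_ifs with hts
          · rw [hts]
          · rw [zero_mul]
        rw [Finset.sum_congr rfl fun t _ => h6 t, Finset.sum_add_distrib,
          Finset.sum_ite_eq' univ s, if_pos (mem_univ _)]
        have h7 : ∀ x : ZMod 2, x * x = x := by decide
        rw [h7]
      rw [h3, h5, sum_am _ (fun s t => y k t * y k s)] at h2
      have h8 : ∑ p : prs (univ : Finset (Fin n)), A p.1.1 p.1.2 *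
          (y k p.1.2 * y k p.1.1 + y k p.1.1 * y k p.1.2) = 0 := by
        refine Finset.sum_eq_zero fun p _ => ?_
        have h9 : ∀ a x z : ZMod 2, a * (z * x + x * z) = 0 := by decide
        exact h9 _ _ _
      rw [h8, zero_add] at h2
      exact h2
    intro s
    have h2 := hproj (fun s => A s s) s
    simp_rw [h1] at h2
    rw [← h2]
    exact Finset.sum_eq_zero fun l _ => mul_zero _
  refine ⟨fun p => A p.1.1 p.1.2, ?_⟩
  funext k s
  unfold ca
  rw [hcA k s]
  exact Finset.sum_congr rfl fun t _ => by rw [am_of A hsym hdiag]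

end dep

/-! ### the change of the free symbols -/

section shift

variable {U J : Type} [Fintype U] [Fintype J] [LinearOrder J]

/-- the shift -/
noncomputable def ta (d : Dat U J) (p : prs (univ : Finset J)) : ZMod 2 := d.bJ p.1.1 * d.bJ p.1.2

theorem ex3_eq (d : Dat U J) (α : prs (univ : Finset J) → ZMod 2) (k l : J) :
    ex3 d α k l = ex2 (fun k l => d.bJ k * d.bJ l) (α + ta d) k l := by
  unfold ex3 ex2
  have h2 : ∀ a b : ZMod 2, a = a + b + b := by decide
  by_cases h : (k, l) ∈ prs (univ : Finset J)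
  · have h1 : (l, k) ∉ prs (univ : Finset J) := fun h' =>
      absurd ((mem_prs l k).1 h') ((mem_prs k l).1 h).not_gt
    rw [dif_pos h, dif_neg h1, dif_pos h]
    exact h2 _ _
  · rw [dif_neg h]
    by_cases h1 : (l, k) ∈ prs (univ : Finset J)
    · rw [dif_pos h1, dif_pos h1]
      show _ = α ⟨(l, k), h1⟩ + d.bJ l * d.bJ k
      rw [mul_comm (d.bJ k)]
    · rw [dif_neg h1, dif_neg h1, dif_neg h]

end shift

end PRB

open PRB

theorem t_PRB : S_PRB := by
  intro U J _ _ _ d hd i n z hbi hz hli
  obtain ⟨w, hw⟩ := left_inv _ hli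
  have hz1 : ∀ s, Sml d (z s).1 (z s).2 := fun s => (mem_filter.1 (hz s)).2.1
  have hz2 : ∀ s, (z s).2 i = 0 := fun s => (mem_filter.1 (hz s)).2.2
  have h0 : ∀ k, k ∉ univ.erase i → (fun (l : J) (s : Fin n) => (z s).2 l) k = 0 := by
    intro k hk
    rw [mem_erase, not_and] at hk
    have hki : k = i := by
      by_contra h
      exact hk h (mem_univ _)
    funext s
    rw [hki]
    exact hz2 s
  have key := gen (univ.erase i) (fun k l => d.bJ k * d.bJ l) (fun (l : J) (s : Fin n) => (z s).2 l)
    (fun k s => ∑ u, d.C k u * ((z s).1 u + (z s).2 k))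
    (ca (fun (l : J) (s : Fin n) => (z s).2 l))
    (ca_inj _ w hw) (ca_dep (univ.erase i) _ h0) (ca_surj (univ.erase i) _ w hw)
    ⟨i, notMem_erase _ _, by funext s; exact hz2 s⟩
    (fun p : prs (univ : Finset (Fin n)) => om d (z p.1.1) (z p.1.2)) (by
      intro a
      have h1 : ∀ (k : J) (s : Fin n), ca (fun (l : J) (s : Fin n) => (z s).2 l) a k s *
          (∑ u, d.C k u * ((z s).1 u + (z s).2 k) +
            ∑ l, tt (fun k l => d.bJ k * d.bJ l) k l * ((z s).2 l + (z s).2 k)) =
          ∑ t, am a s t * ((z t).2 k * (∑ u, d.C k u * ((z s).1 u + (z s).2 k) +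
            ∑ l, tt (fun k l => d.bJ k * d.bJ l) k l * ((z s).2 l + (z s).2 k))) := by
        intro k s
        unfold ca
        rw [Finset.sum_mul]
        exact Finset.sum_congr rfl fun t _ => by ring
      have h2 : ∑ k, ∑ s, ca (fun (l : J) (s : Fin n) => (z s).2 l) a k s *
          (∑ u, d.C k u * ((z s).1 u + (z s).2 k) +
            ∑ l, tt (fun k l => d.bJ k * d.bJ l) k l * ((z s).2 l + (z s).2 k)) =
          ∑ s, ∑ t, am a s t * GG d (z s) (z t) := by
        simp_rw [h1]
        rw [Finset.sum_comm]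
        refine Finset.sum_congr rfl fun s _ => ?_
        rw [Finset.sum_comm]
        refine Finset.sum_congr rfl fun t _ => ?_
        rw [← Finset.mul_sum]
        rfl
      rw [h2, sum_am a (fun s t => GG d (z s) (z t))]
      refine Finset.sum_congr rfl fun p _ => ?_
      rw [GG_om d hd _ _ (hz1 _) (hz1 _)])
  have hcard : (univ.filter fun α : prs (univ : Finset J) → ZMod 2 =>
      ∀ s, Lrg d (univ.erase i) α (z s).1 (z s).2).card =
      (univ.filter fun α : prs (univ : Finset J) → ZMod 2 => ∀ k ∈ univ.erase i, ∀ s : Fin n,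
        ∑ u, d.C k u * ((z s).1 u + (z s).2 k) + ∑ l, ex2 (fun k l => d.bJ k * d.bJ l) α k l *
          ((z s).2 l + (z s).2 k) = 0).card := by
    have h2 : ∀ a b : ZMod 2, a + b + b = a := by decide
    refine Finset.card_bij (fun α _ => α + ta d) ?_ ?_ ?_
    · intro α hα
      rw [mem_filter] at hα ⊢
      refine ⟨mem_univ _, fun k hk s => ?_⟩
      have h1 := hα.2 s k hk
      simp_rw [ex3_eq] at h1
      exact h1
    · intro α _ β _ h
      exact add_right_cancel h
    · intro β hβ
      have hb : β + ta d + ta d = β := by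
        funext p
        exact h2 _ _
      refine ⟨β + ta d, ?_, hb⟩
      rw [mem_filter] at hβ ⊢
      refine ⟨mem_univ _, fun s k hk => ?_⟩
      simp_rw [ex3_eq, hb]
      exact hβ.2 k hk s
  rw [hcard]
  have hJ : (univ.erase i).card = Fintype.card J - 1 := by
    rw [card_erase_of_mem (mem_univ _), card_univ]
  rw [hJ, Fintype.card_fin, Fintype.card_coe, card_prs] at key
  have hiff : ((fun p : prs (univ : Finset (Fin n)) => om d (z p.1.1) (z p.1.2)) = 0) ↔
      ∀ s t, om d (z s) (z t) = 0 := by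
    constructor
    · intro h s t
      rcases lt_trichotomy s t with h1 | h1 | h1
      · exact congrFun h ⟨(s, t), (mem_prs s t).2 h1⟩
      · rw [h1]
        exact om_self d _
      · rw [om_comm]
        exact congrFun h ⟨(t, s), (mem_prs t s).2 h1⟩
    · intro h
      funext p
      exact h _ _
  by_cases hiso : ∀ s t, om d (z s) (z t) = 0
  · rw [if_pos hiso]
    rw [if_pos (hiff.2 hiso)] at key
    exact_mod_cast key
  · rw [if_neg hiso]
    rw [if_neg (fun h => hiso (hiff.1 h)), mul_zero] at key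
    exact_mod_cast key

end Pool.Agent.NH3.XD
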