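import Pool.Agent.NH3.XD.Stm

/-!
# The radical of the alternating form on the space of the small rows
-/

set_option autoImplicit false
set_option linter.unusedVariables false
set_option linter.unusedSectionVars false

open scoped Classical

namespace Pool.Agent.NH3.XD

open Finset

namespace Radh6

variable {U J : Type} [Fintype U] [Fintype J] [LinearOrder J]

/-- the space of the vectors -/
abbrev E (U J : Type) := (U → ZMod 2) × (J → ZMod 2)

/-- the rows as linear functionals; `none` is the coordinate `i` -/
noncomputable def L (d : Dat U J) (i : J) : Option U → (E U J →ₗ[ZMod 2] ZMod 2)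
  | none => { toFun := fun z => z.2 i
              map_add' := fun _ _ => rfl
              map_smul' := fun _ _ => rfl }
  | some u =>
    { toFun := fun z => ∑ v, d.A u v * (z.1 v + z.1 u) + ∑ l, d.B u l * (z.2 l + z.1 u)
      map_add' := by
        intro a b
        simp only [Prod.fst_add, Prod.snd_add, Pi.add_apply]
        rw [add_add_add_comm, ← sum_add_distrib, ← sum_add_distrib]
        congr 1
        · exact sum_congr rfl (fun _ _ => by ring)
        · exact sum_congr rfl (fun _ _ => by ring)
      map_smul' := by
        intro c a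
        simp only [Prod.smul_fst, Prod.smul_snd, Pi.smul_apply, smul_eq_mul, RingHom.id_apply]
        rw [mul_add, mul_sum, mul_sum]
        congr 1
        · exact sum_congr rfl (fun _ _ => by ring)
        · exact sum_congr rfl (fun _ _ => by ring) }

/-- the product with the vector `b` -/
noncomputable def bv (d : Dat U J) (v : E U J) : ZMod 2 :=
  ∑ u, d.bU u * v.1 u + ∑ l, d.bJ l * v.2 l

/-- the diagonal form -/
noncomputable def qv (d : Dat U J) (v w : E U J) : ZMod 2 :=
  ∑ u, d.bU u * (v.1 u * w.1 u) + ∑ l, d.bJ l * (v.2 l * w.2 l)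

lemma om_eq (d : Dat U J) (v w : E U J) : om d v w = bv d v * bv d w + qv d v w := rfl

lemma bv_add (d : Dat U J) (v w : E U J) : bv d (v + w) = bv d v + bv d w := by
  unfold bv
  rw [add_add_add_comm, ← sum_add_distrib, ← sum_add_distrib]
  congr 1
  · exact sum_congr rfl (fun _ _ => by simp only [Prod.fst_add, Pi.add_apply]; ring)
  · exact sum_congr rfl (fun _ _ => by simp only [Prod.snd_add, Pi.add_apply]; ring)

lemma bv_smul (d : Dat U J) (c : ZMod 2) (w : E U J) : bv d (c • w) = c * bv d w := by
  unfold bv
  rw [mul_add, mul_sum, mul_sum]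
  congr 1
  · exact sum_congr rfl (fun _ _ => by
      simp only [Prod.smul_fst, Pi.smul_apply, smul_eq_mul]; ring)
  · exact sum_congr rfl (fun _ _ => by
      simp only [Prod.smul_snd, Pi.smul_apply, smul_eq_mul]; ring)

lemma qv_add (d : Dat U J) (z v w : E U J) : qv d z (v + w) = qv d z v + qv d z w := by
  unfold qv
  rw [add_add_add_comm, ← sum_add_distrib, ← sum_add_distrib]
  congr 1
  · exact sum_congr rfl (fun _ _ => by simp only [Prod.fst_add, Pi.add_apply]; ring)
  · exact sum_congr rfl (fun _ _ => by simp only [Prod.snd_add, Pi.add_apply]; ring)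

lemma qv_smul (d : Dat U J) (c : ZMod 2) (z w : E U J) : qv d z (c • w) = c * qv d z w := by
  unfold qv
  rw [mul_add, mul_sum, mul_sum]
  congr 1
  · exact sum_congr rfl (fun _ _ => by
      simp only [Prod.smul_fst, Pi.smul_apply, smul_eq_mul]; ring)
  · exact sum_congr rfl (fun _ _ => by
      simp only [Prod.smul_snd, Pi.smul_apply, smul_eq_mul]; ring)

lemma qv_comm (d : Dat U J) (v w : E U J) : qv d v w = qv d w v := by
  unfold qv
  congr 1
  · exact sum_congr rfl (fun _ _ => by ring)
  · exact sum_congr rfl (fun _ _ => by ring)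

lemma om_add_left (d : Dat U J) (z v w : E U J) : om d (v + w) z = om d v z + om d w z := by
  rw [om_eq, om_eq, om_eq, bv_add, qv_comm d (v + w) z, qv_add, qv_comm d z v, qv_comm d z w]
  ring

/-- the form as a linear functional in the second variable -/
noncomputable def omL (d : Dat U J) (v : E U J) : E U J →ₗ[ZMod 2] ZMod 2 where
  toFun := fun w => om d v w
  map_add' := by
    intro a b
    rw [om_eq, om_eq, om_eq, bv_add, qv_add]
    ring
  map_smul' := by
    intro c a
    rw [om_eq, om_eq, bv_smul, qv_smul, RingHom.id_apply, smul_eq_mul]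
    ring

lemma z2_self (a : ZMod 2) : a + a = 0 := CharTwo.add_self_eq_zero a

lemma z2_eq {a b : ZMod 2} (h : a + b = 0) : b = a := by
  have : b = (a + b) + a := by
    rw [add_comm a b, add_assoc, z2_self, add_zero]
  rw [this, h, zero_add]

lemma z2_cases (a : ZMod 2) : a = 0 ∨ a = 1 := by
  revert a
  decide

lemma mem_KK (d : Dat U J) (i : J) (z : E U J) : z ∈ KK d i ↔ ∀ o, L d i o z = 0 := by
  unfold KK
  rw [mem_filter]
  constructor
  · rintro ⟨-, h1, h2⟩ o
    cases o with
    | none => exact h2
    | some u => exact h1 u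
  · intro h
    exact ⟨mem_univ _, fun u => h (some u), h none⟩

/-- the vectors orthogonal to all the vectors vanishing at `i` -/
lemma orth (d : Dat U J) (hd : d.Good) (i : J) (hi : d.bJ i = 1) (z : E U J) (hz : z.2 i = 0)
    (h : ∀ w : E U J, w.2 i = 0 → om d z w = 0) : ∀ l, d.bJ l = 1 → z.2 l = 0 := by
  have hJ : ∀ l, l ≠ i → d.bJ l = 1 → z.2 l = bv d z := by
    intro l hl hb
    have h1 := h (0, Pi.single l 1) (by
      show (Pi.single l (1 : ZMod 2) : J → ZMod 2) i = 0
      exact Pi.single_eq_of_ne (Ne.symm hl) 1)
    have e1 : bv d ((0, Pi.single l 1) : E U J) = d.bJ l := by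
      unfold bv
      simp [Pi.single_apply]
    have e2 : qv d z ((0, Pi.single l 1) : E U J) = d.bJ l * z.2 l := by
      unfold qv
      simp [Pi.single_apply]
    rw [om_eq, e1, e2, hb, mul_one, one_mul] at h1
    exact z2_eq h1
  have hU : ∀ u, d.bU u = 1 → z.1 u = bv d z := by
    intro u hb
    have h1 := h (Pi.single u 1, 0) rfl
    have e1 : bv d ((Pi.single u 1, 0) : E U J) = d.bU u := by
      unfold bv
      simp [Pi.single_apply]
    have e2 : qv d z ((Pi.single u 1, 0) : E U J) = d.bU u * z.1 u := by
      unfold qv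
      simp [Pi.single_apply]
    rw [om_eq, e1, e2, hb, mul_one, one_mul] at h1
    exact z2_eq h1
  have hc : bv d z = 0 := by
    have e1 : ∑ u, d.bU u * z.1 u = ∑ u, d.bU u * bv d z := by
      apply sum_congr rfl
      intro u _
      rcases z2_cases (d.bU u) with hb | hb
      · rw [hb, zero_mul, zero_mul]
      · rw [hU u hb]
    have e2 : ∑ l, d.bJ l * z.2 l = ∑ l, d.bJ l * bv d z + bv d z := by
      rw [← add_sum_erase univ _ (mem_univ i), ← add_sum_erase univ (fun l => d.bJ l * bv d z)
        (mem_univ i), hz, hi, mul_zero, one_mul, zero_add, add_comm (bv d z), add_assoc, z2_self,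
        add_zero]
      apply sum_congr rfl
      intro l hl
      rcases z2_cases (d.bJ l) with hb | hb
      · rw [hb, zero_mul, zero_mul]
      · rw [hJ l (ne_of_mem_erase hl) hb]
    have e3 : bv d z = bv d z + bv d z := by
      calc bv d z = ∑ u, d.bU u * z.1 u + ∑ l, d.bJ l * z.2 l := rfl
        _ = (∑ u, d.bU u + ∑ l, d.bJ l) * bv d z + bv d z := by
          rw [e1, e2, ← sum_mul, ← sum_mul]
          ring
        _ = bv d z + bv d z := by rw [hd.par, one_mul]
    rw [z2_self] at e3
    exact e3
  intro l hb
  by_cases hl : l = i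
  · rw [hl, hz]
  · rw [hJ l hl hb, hc]

/-- the number of the vectors vanishing on a set of large indices -/
lemma card_van (b : J → ZMod 2) :
    (univ.filter fun z : E U J => ∀ l, b l = 1 → z.2 l = 0).card * 2 ^ (univ.filter fun l => b l = 1).card
      = 2 ^ Fintype.card U * 2 ^ Fintype.card J := by
  have h1 : (univ.filter fun z : E U J => ∀ l, b l = 1 → z.2 l = 0) =
      (univ : Finset (U → ZMod 2)) ×ˢ
        Fintype.piFinset (fun l : J => if b l = 1 then ({0} : Finset (ZMod 2)) else univ) := by
    ext z
    rw [mem_filter, mem_product, Fintype.mem_piFinset]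
    constructor
    · rintro ⟨-, h⟩
      refine ⟨mem_univ _, fun l => ?_⟩
      by_cases hb : b l = 1
      · rw [if_pos hb, mem_singleton]
        exact h l hb
      · rw [if_neg hb]
        exact mem_univ _
    · rintro ⟨-, h⟩
      refine ⟨mem_univ _, fun l hb => ?_⟩
      have := h l
      rw [if_pos hb, mem_singleton] at this
      exact this
  rw [h1, card_product, Fintype.card_piFinset, card_univ, Fintype.card_fun, ZMod.card]
  have h2 : (∏ l : J, (if b l = 1 then ({0} : Finset (ZMod 2)) else univ).card) *
      2 ^ (univ.filter fun l => b l = 1).card = 2 ^ Fintype.card J := by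
    rw [← prod_const, prod_filter, ← prod_mul_distrib, ← card_univ, ← prod_const]
    apply prod_congr rfl
    intro l _
    by_cases hb : b l = 1
    · rw [if_pos hb, if_pos hb, card_singleton, one_mul]
    · rw [if_neg hb, if_neg hb, mul_one, card_univ, ZMod.card]
  rw [mul_assoc, h2]

end Radh6

/-- XD-3: the radical of the form on the space of the small rows -/
theorem t_RAD : S_RAD := by
  intro U J _ _ _ d hd i hi
  have hrep : ∀ v : Radh6.E U J, (∀ w ∈ KK d i, om d v w = 0) →
      ∃ c : Option U → ZMod 2, ∀ w, om d v w = ∑ o, c o * Radh6.L d i o w := by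
    intro v hv
    have h1 : Radh6.omL d v ∈ Submodule.span (ZMod 2) (Set.range (Radh6.L d i)) := by
      apply mem_span_of_iInf_ker_le_ker
      intro w hw
      rw [Submodule.mem_iInf] at hw
      rw [LinearMap.mem_ker]
      exact hv w ((Radh6.mem_KK d i w).2 (fun o => LinearMap.mem_ker.1 (hw o)))
    rw [Submodule.mem_span_range_iff_exists_fun] at h1
    obtain ⟨c, hc⟩ := h1
    refine ⟨c, fun w => ?_⟩
    have h2 := congrArg (fun f : Radh6.E U J →ₗ[ZMod 2] ZMod 2 => f w) hc
    simp only [LinearMap.sum_apply, LinearMap.smul_apply, smul_eq_mul] at h2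
    exact h2.symm
  choose! c hc using hrep
  set W : Finset (Radh6.E U J) := univ.filter fun z => ∀ l, d.bJ l = 1 → z.2 l = 0 with hW
  have hcard : ((KK d i).filter fun v => ∀ w ∈ KK d i, om d v w = 0).card ≤
      W.card * (2 ^ Fintype.card U) := by
    have h1 := card_le_mul_card_image (f := fun v : Radh6.E U J => fun u : U => c v (some u))
      ((KK d i).filter fun v => ∀ w ∈ KK d i, om d v w = 0) W.card ?_
    · refine h1.trans (Nat.mul_le_mul_left _ ?_)
      refine (card_le_univ _).trans (le_of_eq ?_)
      rw [Fintype.card_fun, ZMod.card]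
    · intro a ha
      rw [mem_image] at ha
      obtain ⟨v0, hv0, hv0a⟩ := ha
      apply card_le_card_of_injOn (fun v => v + v0)
      · intro v hv
        rw [mem_coe, mem_filter] at hv
        obtain ⟨hv, hva⟩ := hv
        rw [mem_filter] at hv hv0
        have hvK := (Radh6.mem_KK d i v).1 hv.1
        have hv0K := (Radh6.mem_KK d i v0).1 hv0.1
        rw [mem_coe, hW, mem_filter]
        refine ⟨mem_univ _, ?_⟩
        apply Radh6.orth d hd i hi
        · have e1 : v.2 i = 0 := hvK none
          have e2 : v0.2 i = 0 := hv0K none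
          show v.2 i + v0.2 i = 0
          rw [e1, e2, add_zero]
        · intro w hw
          rw [Radh6.om_add_left, hc v hv.2 w, hc v0 hv0.2 w, ← sum_add_distrib]
          apply sum_eq_zero
          intro o _
          cases o with
          | none =>
            have : Radh6.L d i none w = 0 := hw
            rw [this]
            ring
          | some u =>
            have e1 : c v (some u) = c v0 (some u) := by
              have := congrFun (hva.trans hv0a.symm) u
              exact this
            rw [e1]
            exact Radh6.z2_self _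
      · intro v _ v' _ h
        exact add_right_cancel h
  have hvan := Radh6.card_van (U := U) d.bJ
  rw [← hW] at hvan
  have hJ : 1 ≤ Fintype.card J := Fintype.card_pos_iff.2 ⟨i⟩
  rw [le_div_iff₀ (by positivity)]
  have e1 : (2:ℝ) ^ (Fintype.card J - 1) * 2 = 2 ^ Fintype.card J := by
    rw [← pow_succ]
    congr 1
    omega
  have e2 : (2:ℝ) ^ (2 * Fintype.card U + 1) * 2 ^ (Fintype.card J - 1) =
      (2 ^ Fintype.card U * 2 ^ Fintype.card J) * 2 ^ Fintype.card U := by
    rw [← e1, pow_succ, two_mul, pow_add]
    ring
  rw [e2]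
  have h3 : (((KK d i).filter fun v => ∀ w ∈ KK d i, om d v w = 0).card : ℝ) ≤
      (W.card : ℝ) * 2 ^ Fintype.card U := by exact_mod_cast hcard
  have h4 : (W.card : ℝ) * 2 ^ (univ.filter fun l => d.bJ l = 1).card =
      2 ^ Fintype.card U * 2 ^ Fintype.card J := by exact_mod_cast hvan
  calc (((KK d i).filter fun v => ∀ w ∈ KK d i, om d v w = 0).card : ℝ) *
        2 ^ (univ.filter fun l => d.bJ l = 1).card
      ≤ ((W.card : ℝ) * 2 ^ Fintype.card U) * 2 ^ (univ.filter fun l => d.bJ l = 1).card :=
        mul_le_mul_of_nonneg_right h3 (by positivity)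
    _ = ((W.card : ℝ) * 2 ^ (univ.filter fun l => d.bJ l = 1).card) * 2 ^ Fintype.card U := by ring
    _ = _ := by rw [h4]

end Pool.Agent.NH3.XD
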