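import Pool.Agent.NH3.XD.Stm

/-!
# XD-1 (helper15): facts on the system
-/

set_option autoImplicit false
set_option linter.unusedVariables false

open scoped Classical

namespace Pool.Agent.NH3.XD

open Finset
open Pool.Agent.Y703.CQ (nr sg prs HB S_EQ S_MER)

namespace SYS

theorem two_self (c : ZMod 2) : c + c = 0 := CharTwo.add_self_eq_zero c

theorem mul_one_add (c : ZMod 2) : c * (1 + c) = 0 := by
  revert c; decide

theorem card_filter_sub {V : Type} [AddCommGroup V] [Module (ZMod 2) V] [Fintype V]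
    (P : V → Prop) [DecidablePred P] (D : Submodule (ZMod 2) V) (h : ∀ v, v ∈ D ↔ P v) :
    (univ.filter P).card = 2 ^ Module.finrank (ZMod 2) D := by
  have h1 : Nat.card D = 2 ^ Module.finrank (ZMod 2) D := by
    rw [Module.natCard_eq_pow_finrank (K := ZMod 2), Nat.card_zmod]
  rw [← h1, Nat.card_eq_fintype_card, Fintype.card_subtype]
  congr 1
  ext v
  simp [h]

/-- the abstract sum formula -/
theorem sum_rows {E : Type} [Fintype E] (L : E → E → ZMod 2) (b v : E → ZMod 2)
    (hL : ∀ p q, p ≠ q → L p q + L q p = b p * b q) (hb : ∑ p, b p = 1) :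
    ∑ p, ∑ q, L p q * (v q + v p) = 0 := by
  have h1 : ∑ p, ∑ q, L p q * (v q + v p) = ∑ p, v p * ∑ q, (L q p + L p q) := by
    simp only [mul_add, Finset.sum_add_distrib, Finset.mul_sum]
    congr 1
    · rw [Finset.sum_comm]
      exact Finset.sum_congr rfl fun p _ => Finset.sum_congr rfl fun q _ => mul_comm _ _
    · exact Finset.sum_congr rfl fun p _ => Finset.sum_congr rfl fun q _ => mul_comm _ _
  rw [h1]
  refine Finset.sum_eq_zero fun p _ => ?_
  have h2 : ∑ q, (L q p + L p q) = b p * (1 + b p) := by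
    rw [← Finset.add_sum_erase _ _ (Finset.mem_univ p), two_self, zero_add]
    have h3 : ∑ q ∈ univ.erase p, b q = 1 + b p := by
      have h4 := Finset.add_sum_erase univ b (Finset.mem_univ p)
      rw [hb] at h4
      rw [← h4]
      have h5 := two_self (b p)
      linear_combination (-1 : ZMod 2) * h5
    rw [← h3, Finset.mul_sum]
    refine Finset.sum_congr rfl fun q hq => ?_
    rw [hL q p (Finset.ne_of_mem_erase hq), mul_comm]
  rw [h2, mul_one_add, mul_zero]

section

set_option linter.unusedSectionVars false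

variable {U J : Type} [Fintype U] [Fintype J] [LinearOrder J]

theorem mem_prs {k l : J} : (k, l) ∈ prs (univ : Finset J) ↔ k < l := by
  unfold prs
  rw [Finset.mem_filter]
  constructor
  · rintro ⟨-, -, -, h⟩
    exact h (Finset.mem_univ _)
  · intro h
    exact ⟨Finset.mem_univ _, Finset.mem_univ _, ne_of_gt h, fun _ => h⟩

theorem ex3_rec (d : Dat U J) (α : prs (univ : Finset J) → ZMod 2) {k l : J} (h : k ≠ l) :
    ex3 d α k l + ex3 d α l k = d.bJ k * d.bJ l := by
  have key : ∀ k l : J, k < l → ex3 d α k l + ex3 d α l k = d.bJ k * d.bJ l := by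
    intro k l hkl
    have h1 : (k, l) ∈ prs (univ : Finset J) := mem_prs.2 hkl
    have h2 : (l, k) ∉ prs (univ : Finset J) := fun h => lt_asymm hkl (mem_prs.1 h)
    unfold ex3
    rw [dif_pos h1, dif_neg h2, dif_pos h1]
    have := two_self (α ⟨(k, l), h1⟩)
    linear_combination this
  rcases lt_or_gt_of_ne h with h1 | h1
  · exact key k l h1
  · rw [add_comm, key l k h1, mul_comm]

/-- all symbols -/
noncomputable def LL (d : Dat U J) (α : prs (univ : Finset J) → ZMod 2) : U ⊕ J → U ⊕ J → ZMod 2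
  | .inl u, .inl v => d.A u v
  | .inl u, .inr l => d.B u l
  | .inr k, .inl u => d.C k u
  | .inr k, .inr l => ex3 d α k l

theorem LL_rec {d : Dat U J} (hd : d.Good) (α : prs (univ : Finset J) → ZMod 2) :
    ∀ p q : U ⊕ J, p ≠ q → LL d α p q + LL d α q p =
      Sum.elim d.bU d.bJ p * Sum.elim d.bU d.bJ q := by
  rintro (u | k) (v | l) h
  · exact hd.rA u v fun h' => h (by rw [h'])
  · exact hd.rB u l
  · show d.C k v + d.B v k = d.bJ k * d.bU v
    rw [add_comm, hd.rB v k, mul_comm]
  · exact ex3_rec d α fun h' => h (by rw [h'])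

/-- the small row -/
noncomputable def rS (d : Dat U J) (x : U → ZMod 2) (y : J → ZMod 2) (u : U) : ZMod 2 :=
  ∑ v, d.A u v * (x v + x u) + ∑ l, d.B u l * (y l + x u)

/-- the large row -/
noncomputable def rL (d : Dat U J) (α : prs (univ : Finset J) → ZMod 2) (x : U → ZMod 2)
    (y : J → ZMod 2) (k : J) : ZMod 2 :=
  ∑ u, d.C k u * (x u + y k) + ∑ l, ex3 d α k l * (y l + y k)

theorem sum_all {d : Dat U J} (hd : d.Good) (α : prs (univ : Finset J) → ZMod 2) (x : U → ZMod 2)
    (y : J → ZMod 2) : ∑ u, rS d x y u + ∑ k, rL d α x y k = 0 := by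
  have h := sum_rows (LL d α) (Sum.elim d.bU d.bJ) (Sum.elim x y) (LL_rec hd α) (by
    rw [Fintype.sum_sum_type]
    exact hd.par)
  rw [Fintype.sum_sum_type] at h
  rw [← h]
  congr 1
  · refine Finset.sum_congr rfl fun u _ => ?_
    rw [Fintype.sum_sum_type]
    rfl
  · refine Finset.sum_congr rfl fun u _ => ?_
    rw [Fintype.sum_sum_type]
    rfl

/-- the condition -/
def PP (d : Dat U J) (i : J) (α : prs (univ : Finset J) → ZMod 2)
    (z : (U → ZMod 2) × (J → ZMod 2)) : Prop :=
  (Sml d z.1 z.2 ∧ z.2 i = 0) ∧ Lrg d (univ.erase i) α z.1 z.2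

theorem nkL_eq (d : Dat U J) (i : J) (α : prs (univ : Finset J) → ZMod 2) :
    nkL d i α = (univ.filter fun z => PP d i α z).card := by
  unfold nkL KK
  rw [Finset.filter_filter]
  refine congrArg Finset.card ?_
  ext z
  rw [Finset.mem_filter, Finset.mem_filter]
  exact Iff.rfl

theorem rS_add (d : Dat U J) (x x' : U → ZMod 2) (y y' : J → ZMod 2) (u : U) :
    rS d (x + x') (y + y') u = rS d x y u + rS d x' y' u := by
  unfold rS
  simp only [Pi.add_apply, mul_add, Finset.sum_add_distrib]
  ring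

theorem rL_add (d : Dat U J) (α : prs (univ : Finset J) → ZMod 2) (x x' : U → ZMod 2)
    (y y' : J → ZMod 2) (k : J) :
    rL d α (x + x') (y + y') k = rL d α x y k + rL d α x' y' k := by
  unfold rL
  simp only [Pi.add_apply, mul_add, Finset.sum_add_distrib]
  ring

theorem rS_smul (d : Dat U J) (c : ZMod 2) (x : U → ZMod 2) (y : J → ZMod 2) (u : U) :
    rS d (c • x) (c • y) u = c * rS d x y u := by
  unfold rS
  simp only [Pi.smul_apply, smul_eq_mul, mul_add, Finset.mul_sum, Finset.sum_add_distrib]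
  simp only [mul_left_comm]

theorem rL_smul (d : Dat U J) (α : prs (univ : Finset J) → ZMod 2) (c : ZMod 2) (x : U → ZMod 2)
    (y : J → ZMod 2) (k : J) : rL d α (c • x) (c • y) k = c * rL d α x y k := by
  unfold rL
  simp only [Pi.smul_apply, smul_eq_mul, mul_add, Finset.mul_sum, Finset.sum_add_distrib]
  simp only [mul_left_comm]

theorem rS_const (d : Dat U J) (c : ZMod 2) (x : U → ZMod 2) (y : J → ZMod 2) (u : U) :
    rS d (fun v => x v + c) (fun l => y l + c) u = rS d x y u := by
  unfold rS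
  have h := two_self c
  congr 1
  · refine Finset.sum_congr rfl fun v _ => ?_
    linear_combination (d.A u v) * h
  · refine Finset.sum_congr rfl fun l _ => ?_
    linear_combination (d.B u l) * h

theorem rL_const (d : Dat U J) (α : prs (univ : Finset J) → ZMod 2) (c : ZMod 2) (x : U → ZMod 2)
    (y : J → ZMod 2) (k : J) :
    rL d α (fun v => x v + c) (fun l => y l + c) k = rL d α x y k := by
  unfold rL
  have h := two_self c
  congr 1
  · refine Finset.sum_congr rfl fun v _ => ?_
    linear_combination (d.C k v) * h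
  · refine Finset.sum_congr rfl fun l _ => ?_
    linear_combination (ex3 d α k l) * h

/-- the space of the solutions -/
noncomputable def spc (d : Dat U J) (i : J) (α : prs (univ : Finset J) → ZMod 2) :
    Submodule (ZMod 2) ((U → ZMod 2) × (J → ZMod 2)) where
  carrier := {z | PP d i α z}
  zero_mem' := by
    refine ⟨⟨fun u => ?_, rfl⟩, fun k _ => ?_⟩
    · simp
    · simp
  add_mem' := by
    rintro z w ⟨⟨h1, h2⟩, h3⟩ ⟨⟨g1, g2⟩, g3⟩
    refine ⟨⟨fun u => ?_, ?_⟩, fun k hk => ?_⟩
    · have h := rS_add d z.1 w.1 z.2 w.2 u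
      have e1 : rS d z.1 z.2 u = 0 := h1 u
      have e2 : rS d w.1 w.2 u = 0 := g1 u
      rw [e1, e2, add_zero] at h
      exact h
    · rw [Prod.snd_add, Pi.add_apply, h2, g2, add_zero]
    · have h := rL_add d α z.1 w.1 z.2 w.2 k
      have e1 : rL d α z.1 z.2 k = 0 := h3 k hk
      have e2 : rL d α w.1 w.2 k = 0 := g3 k hk
      rw [e1, e2, add_zero] at h
      exact h
  smul_mem' := by
    rintro c z ⟨⟨h1, h2⟩, h3⟩
    refine ⟨⟨fun u => ?_, ?_⟩, fun k hk => ?_⟩
    · have h := rS_smul d c z.1 z.2 u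
      have e1 : rS d z.1 z.2 u = 0 := h1 u
      rw [e1, mul_zero] at h
      exact h
    · rw [Prod.smul_snd, Pi.smul_apply, h2, smul_zero]
    · have h := rL_smul d α c z.1 z.2 k
      have e1 : rL d α z.1 z.2 k = 0 := h3 k hk
      rw [e1, mul_zero] at h
      exact h

theorem last_row {d : Dat U J} (hd : d.Good) (i : J) (α : prs (univ : Finset J) → ZMod 2)
    (x : U → ZMod 2) (y : J → ZMod 2) (h1 : Sml d x y) (h2 : Lrg d (univ.erase i) α x y) :
    Lrg d univ α x y := by
  have h := sum_all hd α x y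
  have e1 : ∑ u, rS d x y u = 0 := Finset.sum_eq_zero fun u _ => h1 u
  rw [e1, zero_add, ← Finset.add_sum_erase _ _ (Finset.mem_univ i)] at h
  have e2 : ∑ k ∈ univ.erase i, rL d α x y k = 0 := Finset.sum_eq_zero fun k hk => h2 k hk
  rw [e2, add_zero] at h
  intro k _
  by_cases hk : k = i
  · rw [hk]
    exact h
  · exact h2 k (Finset.mem_erase.2 ⟨hk, Finset.mem_univ _⟩)

theorem good_iff {d : Dat U J} (hd : d.Good) (i : J) (α : prs (univ : Finset J) → ZMod 2) :
    nkL d i α = 1 ↔ GdL d α := by
  have h0 : PP d i α 0 := (spc d i α).zero_mem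
  have h1 : nkL d i α = 1 ↔ ∀ z, PP d i α z → z = 0 := by
    rw [nkL_eq, Finset.card_eq_one]
    constructor
    · rintro ⟨a, ha⟩ z hz
      have e1 : z ∈ univ.filter fun z => PP d i α z := Finset.mem_filter.2 ⟨Finset.mem_univ _, hz⟩
      have e2 : (0 : (U → ZMod 2) × (J → ZMod 2)) ∈ univ.filter fun z => PP d i α z :=
        Finset.mem_filter.2 ⟨Finset.mem_univ _, h0⟩
      rw [ha, Finset.mem_singleton] at e1 e2
      rw [e1, e2]
    · intro h
      refine ⟨0, ?_⟩
      ext z
      rw [Finset.mem_filter, Finset.mem_singleton]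
      constructor
      · rintro ⟨-, hz⟩
        exact h z hz
      · rintro rfl
        exact ⟨Finset.mem_univ _, h0⟩
  rw [h1]
  constructor
  · intro h x y hs hl
    have h2 := h (fun v => x v + y i, fun l => y l + y i) ⟨⟨fun u => ?_, two_self _⟩,
      fun k hk => ?_⟩
    · refine ⟨y i, fun u => ?_, fun l => ?_⟩
      · have := congrFun (congrArg Prod.fst h2) u
        exact CharTwo.add_eq_zero.1 this
      · have := congrFun (congrArg Prod.snd h2) l
        exact CharTwo.add_eq_zero.1 this
    · have := rS_const d (y i) x y u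
      exact this.trans (hs u)
    · have := rL_const d α (y i) x y k
      exact this.trans (hl k (Finset.mem_univ _))
  · rintro h ⟨x, y⟩ ⟨⟨h2, h3⟩, h4⟩
    obtain ⟨c, hc1, hc2⟩ := h x y h2 (last_row hd i α x y h2 h4)
    have hc : c = 0 := by rw [← hc2 i]; exact h3
    refine Prod.ext ?_ ?_
    · funext u
      exact (hc1 u).trans hc
    · funext l
      exact (hc2 l).trans hc

/-- the map of the small rows -/
noncomputable def Phi (d : Dat U J) (i : J) :
    ((U → ZMod 2) × (J → ZMod 2)) →ₗ[ZMod 2] ((U → ZMod 2) × ZMod 2) where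
  toFun z := (fun u => rS d z.1 z.2 u, z.2 i)
  map_add' z w := by
    refine Prod.ext ?_ rfl
    funext u
    exact rS_add d z.1 w.1 z.2 w.2 u
  map_smul' c z := by
    refine Prod.ext ?_ rfl
    funext u
    exact rS_smul d c z.1 z.2 u

theorem rS_single {d : Dat U J} (k : J) (u : U) :
    rS d 0 (Pi.single k 1) u = d.B u k := by
  unfold rS
  simp only [Pi.zero_apply, add_zero, mul_zero, Finset.sum_const_zero, zero_add]
  rw [Finset.sum_eq_single k]
  · rw [Pi.single_eq_same, mul_one]
  · intro l _ hl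
    rw [Pi.single_eq_of_ne hl, mul_zero]
  · intro h
    exact absurd (Finset.mem_univ k) h

theorem Phi_surj {d : Dat U J} (hd : d.Good) (i : J) (hi : d.bJ i = 1) :
    LinearMap.range (Phi d i) = ⊤ := by
  by_contra hne
  obtain ⟨f, hf0, hf⟩ := Submodule.exists_le_ker_of_lt_top _ (lt_top_iff_ne_top.2 hne)
  set w : U → ZMod 2 := fun u => f (Pi.single u 1, 0) with hw
  set c : ZMod 2 := f (0, 1) with hc
  have hfe : ∀ a : U → ZMod 2, ∀ e : ZMod 2, f (a, e) = ∑ u, a u * w u + e * c := by
    intro a e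
    have h1 : ((a, e) : (U → ZMod 2) × ZMod 2) =
        ∑ u, a u • ((Pi.single u 1, 0) : (U → ZMod 2) × ZMod 2) + e • (0, 1) := by
      refine Prod.ext ?_ ?_
      · rw [Prod.fst_add, Prod.fst_sum]
        simp only [Prod.smul_mk, smul_zero, add_zero]
        funext v
        rw [Finset.sum_apply, Finset.sum_eq_single v]
        · simp
        · intro u _ hu
          rw [Pi.smul_apply, Pi.single_eq_of_ne (Ne.symm hu), smul_zero]
        · intro h
          exact absurd (Finset.mem_univ v) h
      · rw [Prod.snd_add, Prod.snd_sum]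
        simp
    rw [h1, map_add, map_sum, map_smul]
    simp only [map_smul, smul_eq_mul]
    rfl
  have hker : ∀ z : (U → ZMod 2) × (J → ZMod 2), ∑ u, rS d z.1 z.2 u * w u + z.2 i * c = 0 := by
    intro z
    rw [← hfe]
    exact hf ⟨z, rfl⟩
  have hw0 : ∀ u, w u = 0 := by
    by_contra hcon
    push Not at hcon
    obtain ⟨k, hk0, hk1⟩ := hd.nd w hcon
    have hki : i ≠ k := by
      rintro rfl
      rw [hi] at hk0
      exact one_ne_zero hk0
    have h2 := hker (0, Pi.single k 1)
    simp only [rS_single] at h2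
    rw [Pi.single_eq_of_ne hki, zero_mul, add_zero] at h2
    apply hk1
    rw [← h2]
    refine Finset.sum_congr rfl fun u _ => ?_
    have h3 := hd.rB u k
    rw [hk0, mul_zero] at h3
    rw [CharTwo.add_eq_zero.1 h3, mul_comm]
  have hc0 : c = 0 := by
    have h2 := hker (0, Pi.single i 1)
    simp only [hw0, mul_zero, Finset.sum_const_zero, zero_add] at h2
    rw [Pi.single_eq_same, one_mul] at h2
    exact h2
  apply hf0
  refine LinearMap.ext fun a => ?_
  have h4 := hfe a.1 a.2
  simp only [hw0, hc0, mul_zero, Finset.sum_const_zero, add_zero] at h4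
  exact h4

theorem card_KK {d : Dat U J} (hd : d.Good) (i : J) (hi : d.bJ i = 1) :
    (KK d i).card = 2 ^ (Fintype.card J - 1) := by
  have h1 : (KK d i).card = 2 ^ Module.finrank (ZMod 2) (LinearMap.ker (Phi d i)) := by
    unfold KK
    refine card_filter_sub (fun z : (U → ZMod 2) × (J → ZMod 2) => Sml d z.1 z.2 ∧ z.2 i = 0)
      (LinearMap.ker (Phi d i)) fun z => ?_
    rw [LinearMap.mem_ker]
    constructor
    · intro h
      exact ⟨fun u => congrFun (congrArg Prod.fst h) u, congrArg Prod.snd h⟩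
    · rintro ⟨h2, h3⟩
      refine Prod.ext ?_ h3
      funext u
      exact h2 u
  rw [h1]
  congr 1
  have h2 := LinearMap.finrank_range_add_finrank_ker (Phi d i)
  rw [Phi_surj hd i hi, finrank_top, Module.finrank_prod, Module.finrank_prod,
    Module.finrank_fintype_fun_eq_card, Module.finrank_fintype_fun_eq_card,
    Module.finrank_self] at h2
  omega

end

end SYS

/-- **XD-1.** -/
theorem t_SYS : S_SYS := by
  intro U J _ _ _ d hd i
  refine ⟨fun α => ⟨⟨Module.finrank (ZMod 2) (SYS.spc d i α), ?_⟩, SYS.good_iff hd i α⟩,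
    fun hi => SYS.card_KK hd i hi⟩
  rw [SYS.nkL_eq]
  exact SYS.card_filter_sub _ (SYS.spc d i α) fun v => Iff.rfl

end Pool.Agent.NH3.XD
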