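import Pool.Agent.NH3.XD.LA
import Pool.Agent.NH3.XD.SYS
import Pool.Agent.NH3.XD.PRB
import Pool.Agent.NH3.XD.RAD
import Pool.Agent.NH3.XD.ISO
import Pool.Agent.NH3.XD.MOM
import Pool.Agent.NH3.XD.BOX
import Pool.Agent.NH3.XD.Key
import Pool.Agent.NH3.XD.CNT
import Pool.Agent.NH3.XD.HAL
import Pool.Agent.NH3.XD.BAD
import Pool.Agent.NH3.XD.FEW
import Pool.Agent.NH3.XD.LOW
import Pool.Agent.NH3.XD.Asy
import Pool.Agent.NH3.XD.Gen
import Pool.Agent.NH5.PR.BIL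
import Pool.Agent.NH5.PR.ETA
import Pool.Agent.Y356.CQ.EQ
import Pool.Agent.Y488.CX.Sie
import Pool.Agent.Y405.CQ.MER

/-!
# The natural density of `4`-rank zero in a residue class, unconditionally
-/

set_option autoImplicit false

open scoped Classical

namespace Pool.Agent.NH3.XD

theorem f_XLA : S_XLA := t_XLA t_SYS t_PRB t_RAD t_ISO t_XMOM Pool.Agent.NH4.PJ.t_ABS
  Pool.Agent.NH4.PJ.t_LAW

theorem f_XDQ : S_XDQ := t_XASY Pool.Agent.NH5.PR.t_BIL Pool.Agent.Y356.CQ.t_EQ f_XLA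
  Pool.Agent.NH5.PR.t_ETA t_XBOX K40.t_XKEY t_XCNT Pool.Agent.Y488.CX.t_SIE t_XHAL t_XBAD
  Pool.Agent.Y405.CQ.t_MER t_XFEW t_XLOW

theorem f_XDEN : S_XDEN := t_XNS f_XDQ

end Pool.Agent.NH3.XD
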