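import Mathlib

/-!
# Project XD: the density of the squarefree numbers in a residue class
-/

set_option autoImplicit false

open scoped Classical

namespace Pool.Agent.NH3.XD

open Finset

/-- the density of the squarefree numbers `r` modulo `m` -/
noncomputable def dens (m : ℕ) : ℝ :=
  6 / Real.pi ^ 2 / (m * ∏ p ∈ m.primeFactors, (1 - 1 / (p : ℝ) ^ 2))

/-- XD-15: the squarefree numbers in a residue class -/
def S_SQF : Prop := ∀ m r : ℕ, 0 < m → Nat.Coprime r m → Filter.Tendsto
  (fun X : ℕ => (((Icc 1 X).filter fun N => Squarefree N ∧ N % m = r % m).card : ℝ) / X)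
  Filter.atTop (nhds (dens m))

end Pool.Agent.NH3.XD
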