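import Mathlib
import Pool.Agent.NH3.XD.Stm2

/-!
# Project XD (helper3), part D15: the density of the squarefree numbers in a residue class

Written by helper81.
-/

set_option autoImplicit false

namespace Pool.Agent.NH3.XD.SQ

open Finset Filter
open scoped ArithmeticFunction.Moebius ArithmeticFunction.zeta

/-- the sum of the Moebius function over the divisors -/
theorem sum_mu (b : ℕ) : ∑ d ∈ b.divisors, μ d = if b = 1 then 1 else 0 := by
  rw [← ArithmeticFunction.coe_mul_zeta_apply, ArithmeticFunction.moebius_mul_coe_zeta,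
    ArithmeticFunction.one_apply]

theorem sq_dvd_iff {a b d : ℕ} (ha : Squarefree a) (hb : b ≠ 0) : d ^ 2 ∣ b ^ 2 * a ↔ d ∣ b := by
  constructor
  · intro h
    have hg : 0 < Nat.gcd d b := Nat.gcd_pos_of_pos_right _ (Nat.pos_of_ne_zero hb)
    obtain ⟨d', b', hcop, hd, hb'⟩ := Nat.exists_coprime d b
    set g := Nat.gcd d b with hgd
    have h1 : g ^ 2 * d' ^ 2 ∣ g ^ 2 * (b' ^ 2 * a) := by
      have e1 : g ^ 2 * d' ^ 2 = d ^ 2 := by rw [hd]; ring
      have e2 : g ^ 2 * (b' ^ 2 * a) = b ^ 2 * a := by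
        conv_rhs => rw [hb']
        ring
      rw [e1, e2]
      exact h
    have h2 : d' ^ 2 ∣ b' ^ 2 * a := Nat.dvd_of_mul_dvd_mul_left (pow_pos hg 2) h1
    have h3 : d' ^ 2 ∣ a := (Nat.Coprime.pow 2 2 hcop).dvd_of_dvd_mul_left h2
    rw [pow_two] at h3
    have h4 := ha d' h3
    rw [Nat.isUnit_iff] at h4
    rw [h4, one_mul] at hd
    rw [hd]
    exact Nat.gcd_dvd_right _ _
  · intro h
    exact (pow_dvd_pow_of_dvd h 2).mul_right a

/-- the indicator of the squarefree numbers -/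
theorem ind (n X : ℕ) (hn : 1 ≤ n) (hX : n ≤ X) :
    ∑ d ∈ (Icc 1 X).filter (fun d => d ^ 2 ∣ n), μ d = if Squarefree n then 1 else 0 := by
  obtain ⟨a, b, hab, ha⟩ := Nat.sq_mul_squarefree n
  have hb : b ≠ 0 := by
    rintro rfl
    rw [← hab] at hn
    norm_num at hn
  have ha0 : a ≠ 0 := ha.ne_zero
  have h1 : (Icc 1 X).filter (fun d => d ^ 2 ∣ n) = b.divisors := by
    ext d
    rw [mem_filter, mem_Icc, Nat.mem_divisors, ← hab, sq_dvd_iff ha hb]
    constructor
    · rintro ⟨-, h⟩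
      exact ⟨h, hb⟩
    · rintro ⟨h, -⟩
      refine ⟨⟨Nat.pos_of_dvd_of_pos h (Nat.pos_of_ne_zero hb), ?_⟩, h⟩
      have h2 := Nat.le_of_dvd (Nat.pos_of_ne_zero hb) h
      have h3 : b ≤ b ^ 2 * a := by
        have h4 : 1 ≤ b := Nat.pos_of_ne_zero hb
        have h5 : 1 ≤ a := Nat.pos_of_ne_zero ha0
        nlinarith
      omega
  rw [h1, sum_mu]
  congr 1
  rw [eq_iff_iff]
  constructor
  · rintro rfl
    rw [← hab, one_pow, one_mul]
    exact ha
  · intro h
    have h2 := h b ⟨a, by rw [← hab]; ring⟩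
    rwa [Nat.isUnit_iff] at h2

/-- the numbers in the class which are divisible by `d ^ 2` -/
def g (m r d X : ℕ) : ℕ := ((Icc 1 X).filter fun n => d ^ 2 ∣ n ∧ n % m = r % m).card

theorem g_big {m r d X : ℕ} (h : d ∉ Icc 1 X) : g m r d X = 0 := by
  unfold g
  rw [card_eq_zero, filter_eq_empty_iff]
  intro n hn h1
  rw [mem_Icc] at hn h
  have h2 := Nat.le_of_dvd hn.1 h1.1
  rcases Nat.eq_zero_or_pos d with hd | hd
  · rw [hd] at h1
    have h3 : n = 0 := by simpa using h1.1
    omega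
  · have h3 : d ≤ d ^ 2 := by nlinarith
    omega

theorem g_le (m r d X : ℕ) (hd : 0 < d) : (g m r d X : ℝ) ≤ X / (d : ℝ) ^ 2 := by
  have h1 : g m r d X ≤ X / d ^ 2 := by
    unfold g
    rw [← Nat.Ioc_filter_dvd_card_eq_div]
    apply card_le_card
    intro n hn
    rw [mem_filter, mem_Icc] at hn
    rw [mem_filter, mem_Ioc]
    exact ⟨by omega, hn.2.1⟩
  have h2 : (g m r d X : ℝ) ≤ ((X / d ^ 2 : ℕ) : ℝ) := by exact_mod_cast h1
  refine h2.trans (Nat.cast_div_le.trans (le_of_eq ?_))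
  push_cast
  rfl

theorem count_class (q c X : ℕ) (hq : 0 < q) :
    |((((Ioc 0 X).filter fun n => n ≡ c [MOD q]).card : ℕ) : ℝ) - X / q| ≤ 1 := by
  have h := Nat.Ioc_filter_modEq_card 0 X hq c
  have hqq : (0 : ℚ) < q := by exact_mod_cast hq
  set x : ℚ := ((X : ℚ) - c) / q with hx
  set y : ℚ := (((0 : ℕ) : ℚ) - c) / q with hy
  have hxy : x - y = X / q := by
    rw [hx, hy]
    push_cast
    ring
  have hxy0 : 0 ≤ x - y := by
    rw [hxy]
    positivity
  have h1 := Int.floor_le x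
  have h2 := Int.lt_floor_add_one x
  have h3 := Int.floor_le y
  have h4 := Int.lt_floor_add_one y
  have h5 : |((((Ioc 0 X).filter fun n => n ≡ c [MOD q]).card : ℤ) : ℚ) - X / q| ≤ 1 := by
    rw [h, ← hxy, abs_le]
    push_cast
    constructor
    · have := le_max_left ((⌊x⌋ : ℚ) - ⌊y⌋) 0
      linarith
    · rw [sub_le_iff_le_add]
      apply max_le
      · linarith
      · linarith
  have h6 : ((|((((Ioc 0 X).filter fun n => n ≡ c [MOD q]).card : ℤ) : ℚ) - X / q| : ℚ) : ℝ) ≤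
      ((1 : ℚ) : ℝ) := by exact_mod_cast h5
  push_cast at h6
  exact h6

/-- the limit for a fixed divisor -/
theorem g_lim (m r d : ℕ) (hm : 0 < m) (hr : Nat.Coprime r m) :
    Tendsto (fun X : ℕ => (μ d : ℝ) * ((g m r d X : ℝ) / X)) atTop
      (nhds (if d.Coprime m then (μ d : ℝ) / (d : ℝ) ^ 2 / m else 0)) := by
  rcases Nat.eq_zero_or_pos d with hd | hd
  · have h1 : ∀ X, (μ d : ℝ) * ((g m r d X : ℝ) / X) = 0 := by
      intro X
      rw [g_big (by rw [hd, mem_Icc]; omega)]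
      simp
    simp_rw [h1]
    have h2 : (if d.Coprime m then (μ d : ℝ) / (d : ℝ) ^ 2 / m else 0) = 0 := by
      rw [hd]
      simp
    rw [h2]
    exact tendsto_const_nhds
  by_cases hc : d.Coprime m
  · rw [if_pos hc]
    have hcop : Nat.Coprime (d ^ 2) m := Nat.Coprime.pow_left 2 hc
    obtain ⟨c, hc1, hc2⟩ := Nat.chineseRemainder hcop 0 r
    have hq : 0 < d ^ 2 * m := Nat.mul_pos (pow_pos hd 2) hm
    have hqR : (0 : ℝ) < ((d ^ 2 * m : ℕ) : ℝ) := by exact_mod_cast hq
    have h1 : ∀ X, g m r d X = ((Ioc 0 X).filter fun n => n ≡ c [MOD d ^ 2 * m]).card := by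
      intro X
      unfold g
      congr 1
      ext n
      rw [mem_filter, mem_filter, mem_Icc, mem_Ioc, ← Nat.modEq_and_modEq_iff_modEq_mul hcop]
      have e1 : d ^ 2 ∣ n ↔ n ≡ c [MOD d ^ 2] := by
        rw [← Nat.modEq_zero_iff_dvd]
        exact ⟨fun h => h.trans hc1.symm, fun h => h.trans hc1⟩
      have e2 : n % m = r % m ↔ n ≡ c [MOD m] :=
        ⟨fun h => Nat.ModEq.trans h hc2.symm, fun h => Nat.ModEq.trans h hc2⟩
      rw [e1, e2]
      constructor
      · rintro ⟨h1, h2⟩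
        exact ⟨⟨by omega, h1.2⟩, h2⟩
      · rintro ⟨h1, h2⟩
        exact ⟨⟨by omega, h1.2⟩, h2⟩
    have h2 : Tendsto (fun X : ℕ => (g m r d X : ℝ) / X) atTop
        (nhds (1 / ((d ^ 2 * m : ℕ) : ℝ))) := by
      rw [tendsto_iff_norm_sub_tendsto_zero]
      have h3 : Tendsto (fun X : ℕ => (1 : ℝ) / X) atTop (nhds 0) :=
        tendsto_one_div_atTop_nhds_zero_nat
      refine squeeze_zero' (Eventually.of_forall fun X => norm_nonneg _) ?_ h3
      filter_upwards [eventually_gt_atTop 0] with X hX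
      have hX' : (0 : ℝ) < X := by exact_mod_cast hX
      have h4 := count_class (d ^ 2 * m) c X hq
      rw [← h1 X] at h4
      rw [Real.norm_eq_abs]
      have h5 : (g m r d X : ℝ) / X - 1 / ((d ^ 2 * m : ℕ) : ℝ) =
          ((g m r d X : ℝ) - X / ((d ^ 2 * m : ℕ) : ℝ)) / X := by
        field_simp
      rw [h5, abs_div, abs_of_pos hX']
      exact div_le_div_of_nonneg_right h4 hX'.le
    have h3 := h2.const_mul (μ d : ℝ)
    have h4 : (μ d : ℝ) * (1 / ((d ^ 2 * m : ℕ) : ℝ)) = (μ d : ℝ) / (d : ℝ) ^ 2 / m := by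
      push_cast
      rw [mul_one_div, div_div]
    rw [h4] at h3
    exact h3
  · rw [if_neg hc]
    obtain ⟨p, hp, hpd, hpm⟩ := Nat.Prime.not_coprime_iff_dvd.1 hc
    have h1 : ∀ X, g m r d X = 0 := by
      intro X
      unfold g
      rw [card_eq_zero, filter_eq_empty_iff]
      intro n hn h1
      have h2 : p ∣ n := (hpd.trans (dvd_pow_self d two_ne_zero)).trans h1.1
      have h3 : p ∣ r := by
        have h4 : n ≡ r [MOD m] := h1.2
        exact ((h4.of_dvd hpm).dvd_iff dvd_rfl).1 h2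
      have h4 : p ∣ Nat.gcd r m := Nat.dvd_gcd h3 hpm
      rw [hr] at h4
      exact hp.one_lt.ne' (Nat.dvd_one.1 h4)
    simp only [h1, Nat.cast_zero, zero_div, mul_zero]
    exact tendsto_const_nhds

/-- the number of the squarefree numbers in the class -/
theorem count_eq (m r X : ℕ) :
    ((((Icc 1 X).filter fun N => Squarefree N ∧ N % m = r % m).card : ℕ) : ℝ) / X =
      ∑' d : ℕ, (μ d : ℝ) * ((g m r d X : ℝ) / X) := by
  have h1 : (((((Icc 1 X).filter fun N => Squarefree N ∧ N % m = r % m).card : ℕ) : ℤ)) =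
      ∑ d ∈ Icc 1 X, μ d * (g m r d X : ℤ) := by
    have e1 : (((((Icc 1 X).filter fun N => Squarefree N ∧ N % m = r % m).card : ℕ) : ℤ)) =
        ∑ n ∈ (Icc 1 X).filter (fun n => n % m = r % m), if Squarefree n then (1 : ℤ) else 0 := by
      rw [← Finset.sum_filter, filter_filter, card_eq_sum_ones]
      push_cast
      refine sum_congr ?_ fun _ _ => rfl
      ext n
      rw [mem_filter, mem_filter]
      tauto
    rw [e1]
    have e2 : ∀ n ∈ (Icc 1 X).filter (fun n => n % m = r % m),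
        (if Squarefree n then (1 : ℤ) else 0) =
        ∑ d ∈ Icc 1 X, if d ^ 2 ∣ n then μ d else 0 := by
      intro n hn
      rw [mem_filter, mem_Icc] at hn
      rw [← ind n X hn.1.1 hn.1.2, sum_filter]
    rw [sum_congr rfl e2, sum_comm]
    refine sum_congr rfl fun d _ => ?_
    unfold g
    rw [← sum_filter, filter_filter, sum_const, nsmul_eq_mul, mul_comm]
    congr 3
    ext n
    rw [mem_filter, mem_filter]
    tauto
  rw [tsum_eq_sum (s := Icc 1 X)]
  · have h2 : ((((Icc 1 X).filter fun N => Squarefree N ∧ N % m = r % m).card : ℕ) : ℝ) =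
        ∑ d ∈ Icc 1 X, (μ d : ℝ) * (g m r d X : ℝ) := by
      have h3 : (((((((Icc 1 X).filter fun N => Squarefree N ∧ N % m = r % m).card : ℕ) : ℤ)) : ℤ)
          : ℝ) = ((∑ d ∈ Icc 1 X, μ d * (g m r d X : ℤ) : ℤ) : ℝ) := by rw [h1]
      push_cast at h3
      exact h3
    rw [h2, sum_div]
    refine sum_congr rfl fun d _ => ?_
    rw [mul_div_assoc]
  · intro d hd
    rw [g_big hd]
    simp

theorem mu_le (d : ℕ) : |(μ d : ℝ)| ≤ 1 := by
  have h := ArithmeticFunction.abs_moebius_le_one (n := d)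
  exact_mod_cast h

/-- the value of the sum -/
theorem value (m : ℕ) (hm : 0 < m) :
    ∑' d : ℕ, (if d.Coprime m then (μ d : ℝ) / (d : ℝ) ^ 2 / m else 0) = dens m := by
  have : NeZero m := ⟨hm.ne'⟩
  have hm' : (m : ℝ) ≠ 0 := by exact_mod_cast hm.ne'
  have h0 : (1 : ℝ) < (2 : ℂ).re := by norm_num
  have h1 := DirichletCharacter.LSeries.mul_mu_eq_one (1 : DirichletCharacter ℂ m) h0
  have h2 := DirichletCharacter.LFunction_eq_LSeries (1 : DirichletCharacter ℂ m) h0
  have h3 := DirichletCharacter.LFunctionTrivChar_eq_mul_riemannZeta (N := m)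
    (s := 2) (by norm_num)
  have h4 : LSeries (fun n : ℕ => (1 : DirichletCharacter ℂ m) n) 2 =
      ((∏ p ∈ m.primeFactors, (1 - 1 / (p : ℝ) ^ 2) : ℝ) : ℂ) * ((Real.pi ^ 2 / 6 : ℝ) : ℂ) := by
    rw [← h2]
    have h5 : DirichletCharacter.LFunction (1 : DirichletCharacter ℂ m) 2 =
        (∏ p ∈ m.primeFactors, (1 - (p : ℂ) ^ (-2 : ℂ))) * riemannZeta 2 := h3
    rw [h5, riemannZeta_two]
    push_cast
    congr 1
    refine prod_congr rfl fun p _ => ?_
    rw [Complex.cpow_neg, one_div]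
    norm_cast
  have h5 : LSeries ((fun n : ℕ => (1 : DirichletCharacter ℂ m) n) * (fun n : ℕ => ((μ n : ℤ) : ℂ))) 2 =
      ((∑' d : ℕ, (if d.Coprime m then (μ d : ℝ) / (d : ℝ) ^ 2 else 0) : ℝ) : ℂ) := by
    rw [LSeries, Complex.ofReal_tsum]
    refine tsum_congr fun d => ?_
    rcases Nat.eq_zero_or_pos d with hd | hd
    · rw [hd]
      simp
    · rw [LSeries.term_of_ne_zero hd.ne', Pi.mul_apply]
      have e1 : (1 : DirichletCharacter ℂ m) (d : ZMod m) = if d.Coprime m then 1 else 0 := by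
        split_ifs with h
        · exact MulChar.one_apply ((ZMod.isUnit_iff_coprime d m).2 h)
        · exact MulChar.map_nonunit _ (fun h' => h ((ZMod.isUnit_iff_coprime d m).1 h'))
      rw [e1]
      have e2 : ((d : ℂ)) ^ (2 : ℂ) = (d : ℂ) ^ 2 := by norm_cast
      rw [e2]
      split_ifs with h
      · push_cast
        ring
      · simp
  have h6 : (((∏ p ∈ m.primeFactors, (1 - 1 / (p : ℝ) ^ 2)) * (Real.pi ^ 2 / 6) *
      ∑' d : ℕ, (if d.Coprime m then (μ d : ℝ) / (d : ℝ) ^ 2 else 0) : ℝ) : ℂ) = ((1 : ℝ) : ℂ) := by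
    rw [Complex.ofReal_mul, Complex.ofReal_mul, ← h4, ← h5, Complex.ofReal_one]
    exact h1
  have h7 := Complex.ofReal_injective h6
  set P : ℝ := ∏ p ∈ m.primeFactors, (1 - 1 / (p : ℝ) ^ 2) with hP
  set T : ℝ := ∑' d : ℕ, (if d.Coprime m then (μ d : ℝ) / (d : ℝ) ^ 2 else 0) with hT
  have hP0 : P ≠ 0 := by
    intro h
    rw [h] at h7
    simp at h7
  have hpi : Real.pi ≠ 0 := Real.pi_ne_zero
  have h8 : ∑' d : ℕ, (if d.Coprime m then (μ d : ℝ) / (d : ℝ) ^ 2 / m else 0) = T / m := by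
    rw [hT, ← tsum_div_const]
    refine tsum_congr fun d => ?_
    split_ifs
    · rfl
    · simp
  rw [h8]
  unfold dens
  rw [← hP]
  have h9 : T = 6 / Real.pi ^ 2 / P := by
    field_simp
    field_simp at h7
    linarith
  rw [h9]
  field_simp

end Pool.Agent.NH3.XD.SQ

namespace Pool.Agent.NH3.XD

open Finset Filter SQ
open scoped ArithmeticFunction.Moebius

/-- XD-15: the density of the squarefree numbers in a residue class -/
theorem t_SQF : S_SQF := by
  intro m r hm hr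
  rw [← value m hm]
  have h1 : (fun X : ℕ => ((((Icc 1 X).filter fun N => Squarefree N ∧ N % m = r % m).card : ℕ) : ℝ) /
      X) = fun X : ℕ => ∑' d : ℕ, (μ d : ℝ) * ((g m r d X : ℝ) / X) := by
    funext X
    exact count_eq m r X
  have h2 : Tendsto (fun X : ℕ => ∑' d : ℕ, (μ d : ℝ) * ((g m r d X : ℝ) / X)) atTop
      (nhds (∑' d : ℕ, (if d.Coprime m then (μ d : ℝ) / (d : ℝ) ^ 2 / m else 0))) := by
    apply tendsto_tsum_of_dominated_convergence (bound := fun d : ℕ => 1 / (d : ℝ) ^ 2)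
    · exact Real.summable_one_div_nat_pow.2 (by norm_num)
    · exact fun d => g_lim m r d hm hr
    · filter_upwards [eventually_gt_atTop 0] with X hX
      intro d
      have hX' : (0 : ℝ) < X := by exact_mod_cast hX
      rcases Nat.eq_zero_or_pos d with hd | hd
      · rw [g_big (by rw [hd, mem_Icc]; omega)]
        simp [hd]
      · have h0 : (0 : ℝ) ≤ (g m r d X : ℝ) / X := by positivity
        rw [norm_mul, Real.norm_eq_abs, Real.norm_of_nonneg h0]
        have h3 := mu_le d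
        have h4 := g_le m r d X hd
        have h5 : (g m r d X : ℝ) / X ≤ 1 / (d : ℝ) ^ 2 := by
          rw [div_le_iff₀ hX']
          refine h4.trans (le_of_eq ?_)
          ring
        calc |(μ d : ℝ)| * ((g m r d X : ℝ) / X) ≤ 1 * ((g m r d X : ℝ) / X) :=
              mul_le_mul_of_nonneg_right h3 h0
          _ ≤ _ := by rw [one_mul]; exact h5
  rw [← h1] at h2
  exact h2

end Pool.Agent.NH3.XD
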