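import Pool.Agent.NH3.XD.Num
import Pool.Agent.NH3.XD.SQF

/-!
# The densities of the classes
-/

set_option autoImplicit false

open scoped Classical

namespace Pool.Agent.NH3.XD

open Finset Filter Topology
open Pool.Agent.NH5.PR (eta t_ETA)

theorem pf60 : (60 : ℕ).primeFactors = {2, 3, 5} := by
  have : (60 : ℕ) = 2 ^ 2 * 3 * 5 := by norm_num
  ext p
  rw [Nat.mem_primeFactors]
  simp only [mem_insert, mem_singleton]
  constructor
  · rintro ⟨hp, hd, _⟩
    rw [this] at hd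
    rcases hp.dvd_mul.1 hd with hd | hd
    · rcases hp.dvd_mul.1 hd with hd | hd
      · exact Or.inl ((Nat.prime_dvd_prime_iff_eq hp Nat.prime_two).1 (hp.dvd_of_dvd_pow hd))
      · exact Or.inr (Or.inl ((Nat.prime_dvd_prime_iff_eq hp Nat.prime_three).1 hd))
    · exact Or.inr (Or.inr ((Nat.prime_dvd_prime_iff_eq hp Nat.prime_five).1 hd))
  · rintro (rfl | rfl | rfl) <;> norm_num

theorem dens_60 : dens 60 = 5 / (32 * Real.pi ^ 2) := by
  unfold dens
  rw [pf60, Finset.prod_insert (by decide), Finset.prod_insert (by decide), Finset.prod_singleton]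
  have := Real.pi_ne_zero
  push_cast
  field_simp
  norm_num

/-- the density of a class of squarefree numbers -/
theorem dens_cN {M : ℕ} {R : Finset ℕ} (h : OkR M R) :
    Tendsto (fun X : ℕ => (cN M R (fun _ => True) X : ℝ) / X) atTop (𝓝 (R.card * dens M)) := by
  have h1 : ∀ r ∈ R, Tendsto (fun X : ℕ =>
      (((Icc 1 X).filter fun N => Squarefree N ∧ N % M = r).card : ℝ) / X) atTop (𝓝 (dens M)) := by
    intro r hr
    obtain ⟨g1, g2, _⟩ := h.2.2.2 r hr
    have := t_SQF M r h.1 g2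
    simpa only [Nat.mod_eq_of_lt g1] using this
  have h2 := tendsto_finset_sum R h1
  rw [Finset.sum_const, nsmul_eq_mul] at h2
  refine h2.congr fun X => ?_
  rw [cN_eq, ← Finset.sum_div]
  push_cast
  simp only [and_true]

theorem rs1 : (rs (60 * 1) (fun r => (-(r : ℤ)) % ((1 : ℕ) : ℤ) ∈ ({0} : Finset ℤ))).card = 2 := by
  have : rs (60 * 1) (fun r => (-(r : ℤ)) % ((1 : ℕ) : ℤ) ∈ ({0} : Finset ℤ)) = {23, 47} := by
    ext r
    rw [mem_rs]
    simp only [mem_insert, mem_singleton, mul_one, Nat.cast_one, Int.emod_one, and_true]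
    constructor
    · rintro ⟨h1, _, h3⟩
      omega
    · rintro (rfl | rfl)
      · exact ⟨by norm_num, by norm_num, Or.inl rfl⟩
      · exact ⟨by norm_num, by norm_num, Or.inr rfl⟩
  rw [this]
  rfl

theorem ok1 : OkR (60 * 1) (rs (60 * 1) (fun r => (-(r : ℤ)) % ((1 : ℕ) : ℤ) ∈ ({0} : Finset ℤ))) :=
  rs_ok (by norm_num) (by norm_num) (rs_ne one_pos ⟨13, Or.inl rfl, by norm_num, by simp⟩)

theorem cZ_DB (X : ℕ) : cZ DB X =
    cN (60 * 1) (rs (60 * 1) (fun r => (-(r : ℤ)) % ((1 : ℕ) : ℤ) ∈ ({0} : Finset ℤ))) (fun _ => True) X := by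
  rw [cZ_neg _ (fun D hD => hD.1)]
  unfold cN
  refine card_iff fun N _ => ?_
  have h1 := @db_nat' 1 one_pos {0} N
  rw [and_true, ← h1]
  simp

/-- **The density of the class.** -/
theorem dens_DB : Tendsto (fun X : ℕ => (cZ DB X : ℝ) / X) atTop (𝓝 (5 / (16 * Real.pi ^ 2))) := by
  have h1 := dens_cN ok1
  rw [rs1, mul_one, dens_60] at h1
  have h2 : ((2 : ℕ) : ℝ) * (5 / (32 * Real.pi ^ 2)) = 5 / (16 * Real.pi ^ 2) := by
    have := Real.pi_ne_zero
    push_cast
    field_simp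
    norm_num
  rw [h2] at h1
  refine h1.congr fun X => ?_
  rw [cZ_DB]

/-- **The density of the good discriminants.** -/
theorem dens_DB_Kr : Tendsto (fun X : ℕ => (cZ (fun D => DB D ∧ KrD D) X : ℝ) / X) atTop
    (𝓝 (eta * (5 / (16 * Real.pi ^ 2)))) := by
  have h1 := (law_m one_pos).1
  have e1 : ∀ X, cZ (fun D => DB D ∧ Int.gcd D ((1 : ℕ) : ℤ) = 1) X = cZ DB X := fun X =>
    cZ_congr (fun D => by simp) X
  have e2 : ∀ X, cZ (fun D => (DB D ∧ Int.gcd D ((1 : ℕ) : ℤ) = 1) ∧ KrD D) X =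
      cZ (fun D => DB D ∧ KrD D) X := fun X => cZ_congr (fun D => by simp) X
  simp only [e1, e2] at h1
  have h2 := h1.mul dens_DB
  have h3 : ∀ᶠ X : ℕ in atTop, (0 : ℝ) < (cZ DB X : ℝ) / X :=
    dens_DB.eventually_const_lt (by positivity)
  refine h2.congr' ?_
  filter_upwards [h3] with X hX
  have h4 : (cZ DB X : ℝ) ≠ 0 := by
    intro h0
    rw [h0, zero_div] at hX
    exact lt_irrefl _ hX
  field_simp

end Pool.Agent.NH3.XD
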