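import Pool.Agent.NH3.XD.Fin
import Pool.Agent.XV.Defs

/-!
# The natural density of `4`-rank zero: unions of residue classes, negative discriminants
-/

set_option autoImplicit false

open scoped Classical

namespace Pool.Agent.NH3.XD

open Finset Filter Topology
open Pool.Agent.NH5.PR (eta t_ETA)

/-- weighted averages of sequences with the same limit -/
theorem ratio_sum {ι : Type*} (s : Finset ι) (hs : s.Nonempty) (a b : ι → ℕ → ℝ) (e : ℝ)
    (h : ∀ i ∈ s, Tendsto (fun X => a i X / b i X) atTop (𝓝 e))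
    (hb : ∀ i ∈ s, ∀ᶠ X in atTop, 0 < b i X) :
    Tendsto (fun X => (∑ i ∈ s, a i X) / ∑ i ∈ s, b i X) atTop (𝓝 e) := by
  rw [Metric.tendsto_nhds]
  intro ε hε
  have h1 : ∀ᶠ X in atTop, ∀ i ∈ s, dist (a i X / b i X) e < ε / 2 := by
    rw [Filter.eventually_all_finset]
    intro i hi
    exact (Metric.tendsto_nhds.1 (h i hi)) _ (half_pos hε)
  have h2 : ∀ᶠ X in atTop, ∀ i ∈ s, 0 < b i X := by
    rw [Filter.eventually_all_finset]
    exact hb
  filter_upwards [h1, h2] with X g1 g2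
  have hB : 0 < ∑ i ∈ s, b i X := Finset.sum_pos g2 hs
  have g3 : |∑ i ∈ s, a i X - e * ∑ i ∈ s, b i X| ≤ ε / 2 * ∑ i ∈ s, b i X := by
    rw [Finset.mul_sum, ← Finset.sum_sub_distrib, Finset.mul_sum]
    refine (Finset.abs_sum_le_sum_abs _ _).trans (Finset.sum_le_sum fun i hi => ?_)
    have g4 := (g1 i hi).le
    have g5 := g2 i hi
    rw [Real.dist_eq] at g4
    have g6 : a i X - e * b i X = (a i X / b i X - e) * b i X := by
      field_simp
    rw [g6, abs_mul, abs_of_pos g5]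
    exact mul_le_mul_of_nonneg_right g4 g5.le
  rw [Real.dist_eq]
  have g7 : (∑ i ∈ s, a i X) / (∑ i ∈ s, b i X) - e =
      (∑ i ∈ s, a i X - e * ∑ i ∈ s, b i X) / ∑ i ∈ s, b i X := by
    field_simp
  rw [g7, abs_div, abs_of_pos hB, div_lt_iff₀ hB]
  nlinarith

theorem card_iff {α : Type*} {s : Finset α} {p q : α → Prop} {ip : DecidablePred p}
    {iq : DecidablePred q} (h : ∀ x ∈ s, p x ↔ q x) : (s.filter p).card = (s.filter q).card := by
  refine congrArg Finset.card (Finset.ext fun x => ?_)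
  rw [mem_filter, mem_filter]
  exact and_congr_right (h x)

/-- a union of classes -/
def OkR (M : ℕ) (R : Finset ℕ) : Prop :=
  0 < M ∧ 4 ∣ M ∧ R.Nonempty ∧ ∀ r ∈ R, r < M ∧ Nat.Coprime r M ∧ r % 4 = 3

theorem OkR.ok {M : ℕ} {R : Finset ℕ} (h : OkR M R) {r : ℕ} (hr : r ∈ R) : Ok M r :=
  ⟨h.1, h.2.1, (h.2.2.2 r hr).1, (h.2.2.2 r hr).2.1, (h.2.2.2 r hr).2.2⟩

/-- the squarefree numbers of the union of the classes with the property `Q` -/
noncomputable def cN (M : ℕ) (R : Finset ℕ) (Q : ℕ → Prop) (X : ℕ) : ℕ :=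
  ((Icc 1 X).filter fun N => Squarefree N ∧ N % M ∈ R ∧ Q N).card

theorem cN_eq (M : ℕ) (R : Finset ℕ) (Q : ℕ → Prop) (X : ℕ) :
    cN M R Q X = ∑ r ∈ R, ((Icc 1 X).filter fun N => Squarefree N ∧ N % M = r ∧ Q N).card := by
  unfold cN
  rw [Finset.card_eq_sum_card_fiberwise (f := fun N => N % M) (t := R)]
  · refine Finset.sum_congr rfl fun r hr => ?_
    rw [Finset.filter_filter]
    refine congrArg Finset.card (Finset.filter_congr fun N _ => ?_)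
    constructor
    · rintro ⟨⟨h1, h2, h3⟩, h4⟩
      exact ⟨h1, h4, h3⟩
    · rintro ⟨h1, h2, h3⟩
      exact ⟨⟨h1, by rw [h2]; exact hr, h3⟩, h2⟩
  · intro N hN
    exact (Finset.mem_filter.1 hN).2.2.1

/-- the lower bound for the class -/
theorem low_class {m r : ℕ} (hO : Ok m r) : ∃ (c : ℝ) (X₀ : ℕ), 0 < c ∧ ∀ X : ℕ, X₀ ≤ X →
    c * X ≤ (((Icc 1 X).filter fun N => Squarefree N ∧ N % m = r).card : ℝ) := by
  obtain ⟨c, X₀, hc, h⟩ := t_XLOW m r hO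
  refine ⟨c, X₀, hc, fun X hX => (h X hX).trans (le_of_eq ?_)⟩
  have e2 := LowX.card_eq m r hO.2.2.2.1 X (fun _ => True)
  rw [Finset.filter_true] at e2
  simp only [and_true] at e2
  rw [← e2]

/-- the law for a union of classes -/
theorem den_union {M : ℕ} {R : Finset ℕ} (h : OkR M R) :
    Tendsto (fun X : ℕ => (cN M R (fun N => Gd N.primeFactors) X : ℝ) /
      (cN M R (fun _ => True) X : ℝ)) atTop (𝓝 eta) := by
  have h1 := ratio_sum R h.2.2.1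
    (fun r X => (((Icc 1 X).filter fun N => Squarefree N ∧ N % M = r ∧ Gd N.primeFactors).card : ℝ))
    (fun r X => (((Icc 1 X).filter fun N => Squarefree N ∧ N % M = r).card : ℝ)) eta
    (fun r hr => f_XDEN M r (h.ok hr)) (fun r hr => by
      obtain ⟨c, X₀, hc, g⟩ := low_class (h.ok hr)
      filter_upwards [eventually_ge_atTop (max X₀ 1)] with X hX
      refine lt_of_lt_of_le ?_ (g X ((le_max_left _ _).trans hX))
      have : (1 : ℝ) ≤ X := by exact_mod_cast (le_max_right X₀ 1).trans hX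
      positivity)
  refine h1.congr fun X => ?_
  rw [cN_eq, cN_eq]
  push_cast
  simp only [and_true]

/-- a positive proportion of all numbers -/
theorem low_union {M : ℕ} {R : Finset ℕ} (h : OkR M R) : ∃ (c : ℝ) (X₀ : ℕ), 0 < c ∧ ∀ X : ℕ,
    X₀ ≤ X → c * X ≤ (cN M R (fun N => Gd N.primeFactors) X : ℝ) := by
  obtain ⟨r, hr⟩ := h.2.2.1
  obtain ⟨c, X₀, hc, g⟩ := low_class (h.ok hr)
  have h1 : ∀ᶠ X : ℕ in atTop, eta / 2 < (((Icc 1 X).filter fun N => Squarefree N ∧ N % M = r ∧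
      Gd N.primeFactors).card : ℝ) / (((Icc 1 X).filter fun N => Squarefree N ∧ N % M = r).card : ℝ) :=
    (f_XDEN M r (h.ok hr)).eventually_const_lt (half_lt_self t_ETA.2.1)
  obtain ⟨X₁, h2⟩ := Filter.eventually_atTop.1 h1
  refine ⟨eta / 2 * c, max (max X₀ X₁) 1, mul_pos (half_pos t_ETA.2.1) hc, fun X hX => ?_⟩
  have g1 := g X (((le_max_left _ _).trans (le_max_left _ _)).trans hX)
  have g2 := h2 X (((le_max_right _ _).trans (le_max_left _ _)).trans hX)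
  have g3 : (1 : ℝ) ≤ X := by exact_mod_cast (le_max_right _ _).trans hX
  have g4 : 0 < (((Icc 1 X).filter fun N => Squarefree N ∧ N % M = r).card : ℝ) :=
    lt_of_lt_of_le (by positivity) g1
  rw [lt_div_iff₀ g4] at g2
  have g5 : (((Icc 1 X).filter fun N => Squarefree N ∧ N % M = r ∧ Gd N.primeFactors).card : ℝ) ≤
      (cN M R (fun N => Gd N.primeFactors) X : ℝ) := by
    rw [cN_eq]
    push_cast
    exact Finset.single_le_sum
      (f := fun r => (((Icc 1 X).filter fun N => Squarefree N ∧ N % M = r ∧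
        Gd N.primeFactors).card : ℝ)) (fun i _ => Nat.cast_nonneg _) hr
  have g6 := mul_le_mul_of_nonneg_left g1 (half_pos t_ETA.2.1).le
  nlinarith

/-! ### negative integers -/

/-- the number of the integers `D`, `|D| ≤ X`, with the property `Q` -/
noncomputable def cZ (Q : ℤ → Prop) (X : ℕ) : ℕ := ((Icc (-(X : ℤ)) X).filter Q).card

theorem cZ_mono {Q Q' : ℤ → Prop} (h : ∀ D, Q D → Q' D) (X : ℕ) : cZ Q X ≤ cZ Q' X := by
  unfold cZ
  exact Finset.card_le_card fun D hD => by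
    rw [mem_filter] at hD ⊢
    exact ⟨hD.1, h D hD.2⟩

theorem cZ_congr {Q Q' : ℤ → Prop} (h : ∀ D, Q D ↔ Q' D) (X : ℕ) : cZ Q X = cZ Q' X := by
  have : Q = Q' := funext fun D => propext (h D)
  rw [this]

theorem cZ_neg (Q : ℤ → Prop) (hQ : ∀ D, Q D → D < 0) (X : ℕ) :
    cZ Q X = ((Icc 1 X).filter fun N : ℕ => Q (-(N : ℤ))).card := by
  unfold cZ
  refine Finset.card_bij' (fun D _ => D.natAbs) (fun N _ => -(N : ℤ)) ?_ ?_ ?_ ?_
  · intro D hD
    rw [mem_filter, mem_Icc] at hD ⊢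
    have h1 := hQ D hD.2
    refine ⟨⟨by omega, by omega⟩, ?_⟩
    rw [show -((D.natAbs : ℕ) : ℤ) = D by omega]
    exact hD.2
  · intro N hN
    rw [mem_filter, mem_Icc] at hN ⊢
    exact ⟨⟨by omega, by omega⟩, hN.2⟩
  · intro D hD
    have h1 := hQ D (mem_filter.1 hD).2
    show -((D.natAbs : ℕ) : ℤ) = D
    omega
  · intro N _
    show (-(N : ℤ)).natAbs = N
    omega

/-- the discriminants of the class `b`: `D < 0` squarefree, `D = 13, 37 mod 60` -/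
def DB (D : ℤ) : Prop := D < 0 ∧ Squarefree D ∧ (D % 60 = 13 ∨ D % 60 = 37)

/-- the `4`-rank of the class group of `ℚ(√D)` is zero -/
def KrD (D : ℤ) : Prop := Pool.Agent.XV.Kr D.natAbs.primeFactors

theorem kr_iff {N : Finset ℕ} (hN : ∀ p ∈ N, p.Prime ∧ p ≠ 2) : Pool.Agent.XV.Kr N ↔ Gd N :=
  (gd_iff_gen hN).symm

/-- the residues modulo `M` -/
noncomputable def rs (M : ℕ) (T : ℕ → Prop) : Finset ℕ :=
  (range M).filter fun r => Nat.Coprime r M ∧ (r % 60 = 23 ∨ r % 60 = 47) ∧ T r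

theorem mem_rs {M : ℕ} {T : ℕ → Prop} {r : ℕ} :
    r ∈ rs M T ↔ r < M ∧ Nat.Coprime r M ∧ (r % 60 = 23 ∨ r % 60 = 47) ∧ T r := by
  rw [rs, mem_filter, mem_range]

theorem rs_ok {M : ℕ} {T : ℕ → Prop} (hM : 0 < M) (h60 : 60 ∣ M) (hne : (rs M T).Nonempty) :
    OkR M (rs M T) := by
  refine ⟨hM, dvd_trans (by norm_num) h60, hne, fun r hr => ?_⟩
  rw [rs, mem_filter, mem_range] at hr
  exact ⟨hr.1, hr.2.1, by omega⟩

theorem sqf_neg (N : ℕ) : Squarefree (-(N : ℤ)) ↔ Squarefree N := by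
  rw [← Int.squarefree_natAbs, Int.natAbs_neg, Int.natAbs_natCast]

theorem cop_mod {M N : ℕ} : Nat.Coprime (N % M) M ↔ Nat.Coprime N M := by
  unfold Nat.Coprime
  rw [← Nat.gcd_rec, Nat.gcd_comm]

theorem cop_of {N : ℕ} (h : N % 60 = 23 ∨ N % 60 = 47) : Nat.Coprime N 60 := by
  rw [← cop_mod]
  rcases h with h | h <;> rw [h] <;> decide

/-- translation to numbers -/
theorem db_nat {m : ℕ} {T : Finset ℤ} {N : ℕ} :
    (DB (-(N : ℤ)) ∧ Int.gcd (-(N : ℤ)) m = 1 ∧ (-(N : ℤ)) % m ∈ T) ↔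
      (Squarefree N ∧ N % (60 * m) ∈ rs (60 * m) (fun r => (-(r : ℤ)) % m ∈ T) ∧ 0 < m) ∨
      (m = 0 ∧ DB (-(N : ℤ)) ∧ Int.gcd (-(N : ℤ)) m = 1 ∧ (-(N : ℤ)) % m ∈ T) := by
  rcases Nat.eq_zero_or_pos m with h0 | hm
  · subst h0
    simp
  have h60 : 60 ∣ 60 * m := dvd_mul_right _ _
  have hmm : m ∣ 60 * m := dvd_mul_left _ _
  have e1 : (-((N % (60 * m) : ℕ) : ℤ)) % m = (-(N : ℤ)) % m := by
    refine Int.ModEq.neg ?_
    rw [Int.natCast_mod]
    exact (Int.mod_modEq _ _).of_dvd (by exact_mod_cast hmm)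
  have e2 : Int.gcd (-(N : ℤ)) m = Nat.gcd N m := by
    rw [Int.gcd_eq_natAbs_gcd_natAbs, Int.natAbs_neg, Int.natAbs_natCast, Int.natAbs_natCast]
  unfold DB
  rw [mem_rs, sqf_neg, Nat.mod_mod_of_dvd N h60, cop_mod, e1, e2]
  constructor
  · rintro ⟨⟨h1, h2, h3⟩, h4, h5⟩
    refine Or.inl ⟨h2, ⟨Nat.mod_lt _ (by positivity), ?_, by omega, h5⟩, hm⟩
    exact (cop_of (by omega)).mul_right h4
  · rintro (⟨h1, ⟨_, h3, h4, h5⟩, _⟩ | ⟨h0, _⟩)
    · exact ⟨⟨by omega, h1, by omega⟩, h3.coprime_mul_left_right, h5⟩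
    · omega

theorem db_nat' {m : ℕ} (hm : 0 < m) {T : Finset ℤ} {N : ℕ} :
    (DB (-(N : ℤ)) ∧ Int.gcd (-(N : ℤ)) m = 1 ∧ (-(N : ℤ)) % m ∈ T) ↔
      (Squarefree N ∧ N % (60 * m) ∈ rs (60 * m) (fun r => (-(r : ℤ)) % m ∈ T)) := by
  rw [db_nat]
  constructor
  · rintro (⟨h1, h2, _⟩ | ⟨h0, _⟩)
    · exact ⟨h1, h2⟩
    · omega
  · rintro ⟨h1, h2⟩
    exact Or.inl ⟨h1, h2, hm⟩

/-- the residue classes are not empty -/
theorem rs_ne {m : ℕ} (hm : 0 < m) {T : Finset ℤ}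
    (h : ∃ a : ℤ, (a % 60 = 13 ∨ a % 60 = 37) ∧ Int.gcd a m = 1 ∧ a % m ∈ T) :
    (rs (60 * m) (fun r => (-(r : ℤ)) % m ∈ T)).Nonempty := by
  obtain ⟨a, h1, h2, h3⟩ := h
  have hM : (0 : ℤ) < ((60 * m : ℕ) : ℤ) := by exact_mod_cast (by positivity : 0 < 60 * m)
  have g1 : 0 ≤ (-a) % ((60 * m : ℕ) : ℤ) := Int.emod_nonneg _ hM.ne'
  have g2 : (-a) % ((60 * m : ℕ) : ℤ) < ((60 * m : ℕ) : ℤ) := Int.emod_lt_of_pos _ hM
  obtain ⟨r, hr⟩ := Int.eq_ofNat_of_zero_le g1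
  have g3 : (r : ℤ) ≡ -a [ZMOD ((60 * m : ℕ) : ℤ)] := by
    rw [← hr]
    exact Int.mod_modEq _ _
  have g60 : (r : ℤ) ≡ -a [ZMOD 60] := g3.of_dvd ⟨(m : ℤ), by push_cast; ring⟩
  have gm : (r : ℤ) ≡ -a [ZMOD m] := g3.of_dvd ⟨60, by push_cast; ring⟩
  have k1 : r % 60 = 23 ∨ r % 60 = 47 := by
    unfold Int.ModEq at g60
    omega
  have k2 : Nat.Coprime r m := by
    have h5 : Int.gcd (r : ℤ) m = Int.gcd (-a) m := by
      rw [← Int.gcd_emod (r : ℤ) m, ← Int.gcd_emod (-a) m, gm.eq]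
    rw [Int.neg_gcd, h2] at h5
    exact_mod_cast h5
  refine ⟨r, ?_⟩
  rw [mem_rs]
  refine ⟨by rw [hr] at g2; exact_mod_cast g2, (cop_of k1).mul_right k2, k1, ?_⟩
  have k3 : (-(r : ℤ)) % m = a % m := by
    have := gm.neg
    rwa [neg_neg] at this
  show (-(r : ℤ)) % m ∈ T
  rw [k3]
  exact h3

/-- **The law.** For every set of residue classes modulo `m`, prime to `m`, which meets the class `b`. -/
theorem law_T {m : ℕ} (hm : 0 < m) (T : Finset ℤ)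
    (h : ∃ a : ℤ, (a % 60 = 13 ∨ a % 60 = 37) ∧ Int.gcd a m = 1 ∧ a % m ∈ T) :
    Tendsto (fun X : ℕ => (cZ (fun D => (DB D ∧ Int.gcd D m = 1 ∧ D % m ∈ T) ∧ KrD D) X : ℝ) /
      (cZ (fun D => DB D ∧ Int.gcd D m = 1 ∧ D % m ∈ T) X : ℝ)) atTop (𝓝 eta) ∧
    ∃ (c : ℝ) (X₀ : ℕ), 0 < c ∧ ∀ X : ℕ, X₀ ≤ X →
      c * X ≤ (cZ (fun D => (DB D ∧ Int.gcd D m = 1 ∧ D % m ∈ T) ∧ KrD D) X : ℝ) := by
  have hO := rs_ok (by positivity) (dvd_mul_right 60 m) (rs_ne hm h)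
  have e1 : ∀ X : ℕ, cZ (fun D => DB D ∧ Int.gcd D m = 1 ∧ D % m ∈ T) X =
      cN (60 * m) (rs (60 * m) (fun r => (-(r : ℤ)) % m ∈ T)) (fun _ => True) X := by
    intro X
    rw [cZ_neg _ (fun D hD => hD.1.1)]
    unfold cN
    refine card_iff fun N _ => ?_
    rw [db_nat' hm, and_true]
  have e2 : ∀ X : ℕ, cZ (fun D => (DB D ∧ Int.gcd D m = 1 ∧ D % m ∈ T) ∧ KrD D) X =
      cN (60 * m) (rs (60 * m) (fun r => (-(r : ℤ)) % m ∈ T)) (fun N => Gd N.primeFactors) X := by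
    intro X
    rw [cZ_neg _ (fun D hD => hD.1.1.1)]
    unfold cN
    refine card_iff fun N _ => ?_
    rw [db_nat' hm, and_assoc]
    refine and_congr_right fun hs => and_congr_right fun hN => ?_
    unfold KrD
    rw [Int.natAbs_neg, Int.natAbs_natCast]
    refine kr_iff fun p hp => ⟨Nat.prime_of_mem_primeFactors hp, ?_⟩
    rintro rfl
    have h2 := Nat.dvd_of_mem_primeFactors hp
    rw [mem_rs, Nat.mod_mod_of_dvd N (dvd_mul_right 60 m)] at hN
    omega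
  constructor
  · refine (den_union hO).congr fun X => ?_
    rw [e1, e2]
  · obtain ⟨c, X₀, hc, g⟩ := low_union hO
    refine ⟨c, X₀, hc, fun X hX => ?_⟩
    rw [e2]
    exact g X hX

/-- the law for the discriminants prime to `m` -/
theorem law_m {m : ℕ} (hm : 0 < m) :
    Tendsto (fun X : ℕ => (cZ (fun D => (DB D ∧ Int.gcd D m = 1) ∧ KrD D) X : ℝ) /
      (cZ (fun D => DB D ∧ Int.gcd D m = 1) X : ℝ)) atTop (𝓝 eta) ∧
    ∃ (c : ℝ) (X₀ : ℕ), 0 < c ∧ ∀ X : ℕ, X₀ ≤ X →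
      c * X ≤ (cZ (fun D => (DB D ∧ Int.gcd D m = 1) ∧ KrD D) X : ℝ) := by
  have hne : ∃ a : ℤ, (a % 60 = 13 ∨ a % 60 = 37) ∧ Int.gcd a m = 1 ∧
      a % m ∈ (Finset.range m).image (fun i : ℕ => (i : ℤ)) := by
    obtain ⟨p, hp1, hp2, hp3⟩ := Nat.forall_exists_prime_gt_and_eq_mod
      (show IsUnit ((13 : ℕ) : ZMod 60) by exact (ZMod.isUnit_iff_coprime 13 60).2 (by norm_num)) m
    have hp4 : p % 60 = 13 := by
      have := (ZMod.natCast_eq_natCast_iff' p 13 60).1 hp3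
      simpa using this
    refine ⟨p, Or.inl (by omega), ?_, ?_⟩
    · have : Nat.Coprime p m := (Nat.Prime.coprime_iff_not_dvd hp2).2 fun hd =>
        absurd (Nat.le_of_dvd hm hd) (by omega)
      exact_mod_cast this
    · rw [mem_image]
      exact ⟨p % m, mem_range.2 (Nat.mod_lt _ hm), by push_cast; rfl⟩
  have hT : ∀ D : ℤ, D % m ∈ (Finset.range m).image (fun i : ℕ => (i : ℤ)) := by
    intro D
    have h1 : 0 ≤ D % (m : ℤ) := Int.emod_nonneg _ (by omega)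
    have h2 : D % (m : ℤ) < m := Int.emod_lt_of_pos _ (by omega)
    rw [mem_image]
    exact ⟨(D % (m : ℤ)).toNat, mem_range.2 (by omega), by omega⟩
  obtain ⟨h1, c, X₀, hc, h2⟩ := law_T hm _ hne
  have e1 : ∀ X, cZ (fun D => DB D ∧ Int.gcd D m = 1 ∧
      D % m ∈ (Finset.range m).image (fun i : ℕ => (i : ℤ))) X =
      cZ (fun D => DB D ∧ Int.gcd D m = 1) X := fun X => cZ_congr (fun D => by
    simp only [hT D, and_true]) X
  have e2 : ∀ X, cZ (fun D => (DB D ∧ Int.gcd D m = 1 ∧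
      D % m ∈ (Finset.range m).image (fun i : ℕ => (i : ℤ))) ∧ KrD D) X =
      cZ (fun D => (DB D ∧ Int.gcd D m = 1) ∧ KrD D) X := fun X => cZ_congr (fun D => by
    simp only [hT D, and_true]) X
  constructor
  · refine h1.congr fun X => ?_
    rw [e1, e2]
  · refine ⟨c, X₀, hc, fun X hX => ?_⟩
    rw [← e2]
    exact h2 X hX

end Pool.Agent.NH3.XD
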