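import Pool.Agent.NH3.XD.Stm
import Pool.Agent.NH4.PJ.ABS
import Pool.Agent.NH4.PJ.LAW

/-!
# Project XD: the probability that a random completion is good, from the moments
-/

set_option autoImplicit false

open scoped Classical

namespace Pool.Agent.NH3.XD

open Finset
open Pool.Agent.Y703.CQ (prs)
open Pool.Agent.NH5.PR (eta)
open Pool.Agent.NH4.PJ (inj S_ABS LawP law)

theorem t_XLA (hS : S_SYS) (hP : S_PRB) (hR : S_RAD) (hI : S_ISO) (hM : S_XMOM) (ha : S_ABS)
    (hl : LawP) : S_XLA := by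
  intro ε hε
  obtain ⟨n, θ, hθ, h⟩ := ha 1 0 (fun _ => 0) ε hε
  have hM' := hM hS hP hR hI
  choose C hC hmom using hM'
  -- a common constant
  obtain ⟨K, hK⟩ : ∃ K : ℝ, ∀ k ≤ n, C k ≤ K := by
    refine ⟨∑ k ∈ range (n + 1), C k, fun k hk => ?_⟩
    exact single_le_sum (f := C) (fun i _ => (hC i).le) (mem_range.2 (Nat.lt_succ_of_le hk))
  obtain ⟨R, hR0⟩ : ∃ R : ℕ, K < θ * 2 ^ R := by
    obtain ⟨R, hR⟩ := pow_unbounded_of_one_lt (K / θ) (by norm_num : (1 : ℝ) < 2)
    refine ⟨R, ?_⟩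
    rw [div_lt_iff₀ hθ] at hR
    linarith [mul_comm θ ((2 : ℝ) ^ R)]
  refine ⟨R + 1, ?_⟩
  intro U J _ _ _ d hd hcard
  set T : ℕ := (univ.filter fun l => d.bJ l = 1).card with hT
  obtain ⟨i, hi⟩ : ∃ i, i ∈ univ.filter fun l => d.bJ l = 1 := by
    apply Finset.card_pos.1
    omega
  rw [mem_filter] at hi
  obtain ⟨h1, h2⟩ := hS U J d hd i
  have key := h (prs (univ : Finset J) → ZMod 2) (fun _ α => nkL d i α) (fun _ => 0)
    (fun _ α => (h1 α).1) (fun _ => by simp) (fun k hk => ?_)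
  · simp only [Fin.forall_fin_one, Finset.univ_unique, Finset.prod_singleton, pow_zero,
      hl.zero] at key
    have e1 : (univ.filter fun α : prs (univ : Finset J) → ZMod 2 => GdL d α) =
        univ.filter fun α => nkL d i α = 1 :=
      Finset.filter_congr fun α _ => ((h1 α).2).symm
    have e2 : (Fintype.card (prs (univ : Finset J) → ZMod 2) : ℝ) =
        2 ^ (prs (univ : Finset J)).card := by
      rw [Fintype.card_fun, ZMod.card, Fintype.card_coe]
      push_cast
      rfl
    rw [e2] at key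
    rw [e1]
    exact key
  · simp only [Finset.univ_unique, Finset.prod_singleton, mul_zero, zpow_zero]
    have e2 : (Fintype.card (prs (univ : Finset J) → ZMod 2) : ℝ) =
        2 ^ (prs (univ : Finset J)).card := by
      rw [Fintype.card_fun, ZMod.card, Fintype.card_coe]
      push_cast
      rfl
    rw [e2]
    refine (hmom (k default) U J d hd i hi.2).trans ?_
    rw [← hT]
    have h3 : C (k default) ≤ K := hK _ (hk default)
    have h4 : (2 : ℝ) ^ (2 * Fintype.card U) * 2 ^ R ≤ 2 ^ T := by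
      rw [← pow_add]
      exact pow_le_pow_right₀ (by norm_num) (by omega)
    have h5 : (0 : ℝ) < 2 ^ T := by positivity
    rw [div_le_iff₀ h5]
    have h6 : (0 : ℝ) ≤ 2 ^ (2 * Fintype.card U) := by positivity
    calc C (k default) * 2 ^ (2 * Fintype.card U) ≤ K * 2 ^ (2 * Fintype.card U) :=
          mul_le_mul_of_nonneg_right h3 h6
      _ ≤ (θ * 2 ^ R) * 2 ^ (2 * Fintype.card U) := mul_le_mul_of_nonneg_right hR0.le h6
      _ = θ * (2 ^ (2 * Fintype.card U) * 2 ^ R) := by ring
      _ ≤ θ * 2 ^ T := mul_le_mul_of_nonneg_left h4 hθ.le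

end Pool.Agent.NH3.XD
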